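import Pool.Agent.TH70.AR.Cube
set_option autoImplicit false

/-!
# Lookahead: objective functions with two uniform regions and with raised hypersinks
-/

namespace Pool.Agent.J4.H16.LA

open Finset
open Pool.Agent.TH70.AR hiding flip flip_flip


lemma fl_fl {n : ℕ} (x : Fin n → Bool) (i : Fin n) : TH70.AR.flip (TH70.AR.flip x i) i = x :=
  Pool.Agent.TH70.AR.flip_flip x i

variable {n : ℕ}

/-- functions with the same orientation of all edges -/
lemma aof_congr {f g : (Fin n → Bool) → ℕ} (hf : AOF f)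
    (h : ∀ y i, g (TH70.AR.flip y i) < g y ↔ f (TH70.AR.flip y i) < f y) : AOF g := by
  intro F x
  obtain ⟨y, ⟨hy1, hy2⟩, hy3⟩ := hf F x
  exact ⟨y, ⟨hy1, fun i hi => (h y i).2 (hy2 i hi)⟩,
    fun z hz => hy3 z ⟨hz.1, fun i hi => (h z i).1 (hz.2 i hi)⟩⟩

/-- **Gluing.** `f₂` on the hypersink `{u = b on X}` of `f₁`, where it is not smaller than `f₁`, and
`f₁` elsewhere. -/
def glue (X : Finset (Fin n)) (b : Fin n → Bool) (f₂ f₁ : (Fin n → Bool) → ℕ) :
    (Fin n → Bool) → ℕ := fun u => if On X b u then f₂ u else f₁ u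

lemma glue_pos {X : Finset (Fin n)} {b : Fin n → Bool} {f₂ f₁ : (Fin n → Bool) → ℕ}
    {u : Fin n → Bool} (h : On X b u) : glue X b f₂ f₁ u = f₂ u := if_pos h

lemma glue_neg {X : Finset (Fin n)} {b : Fin n → Bool} {f₂ f₁ : (Fin n → Bool) → ℕ}
    {u : Fin n → Bool} (h : ¬ On X b u) : glue X b f₂ f₁ u = f₁ u := if_neg h

lemma On.of_flip {X : Finset (Fin n)} {b u : Fin n → Bool} {i : Fin n}
    (h : On X b (TH70.AR.flip u i)) (hi : i ∉ X) : On X b u := by
  simpa [fl_fl] using TH70.AR.On.flip h hi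

lemma flip_mem_exit {X : Finset (Fin n)} {b u : Fin n → Bool} {i : Fin n}
    (h : ¬ On X b u) (h' : On X b (TH70.AR.flip u i)) : i ∈ X := by
  by_contra hi
  exact h (On.of_flip h' hi)

/-- crossing edges of the glued function -/
lemma glue_cross {X : Finset (Fin n)} {b : Fin n → Bool} {f₂ f₁ : (Fin n → Bool) → ℕ}
    (hX : Hyp f₁ X b) (hle : ∀ y, On X b y → f₁ y ≤ f₂ y) {z : Fin n → Bool} {i : Fin n}
    (hz : ¬ On X b z) (hy : On X b (TH70.AR.flip z i)) :
    glue X b f₂ f₁ z < glue X b f₂ f₁ (TH70.AR.flip z i) := by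
  rw [glue_neg hz, glue_pos hy]
  have hi := flip_mem_exit hz hy
  have h1 := hX (TH70.AR.flip z i) hy i hi
  rw [fl_fl] at h1
  exact lt_of_lt_of_le h1 (hle _ hy)

lemma glue_cross' {X : Finset (Fin n)} {b : Fin n → Bool} {f₂ f₁ : (Fin n → Bool) → ℕ}
    (hX : Hyp f₁ X b) (hle : ∀ y, On X b y → f₁ y ≤ f₂ y) {z : Fin n → Bool} {i : Fin n}
    (hz : On X b z) (hy : ¬ On X b (TH70.AR.flip z i)) :
    glue X b f₂ f₁ (TH70.AR.flip z i) < glue X b f₂ f₁ z := by
  have h1 := glue_cross hX hle (z := TH70.AR.flip z i) (i := i) hy (by rw [fl_fl]; exact hz)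
  rwa [fl_fl] at h1

lemma aof_glue {X : Finset (Fin n)} {b : Fin n → Bool} {f₂ f₁ : (Fin n → Bool) → ℕ}
    (h₁ : AOF f₁) (h₂ : AOF f₂) (hX : Hyp f₁ X b) (hle : ∀ y, On X b y → f₁ y ≤ f₂ y) :
    AOF (glue X b f₂ f₁) := by
  refine aof_congr (h₁.stackOn h₂ hX) fun y i => ?_
  by_cases hy : On X b y <;> by_cases hz : On X b (TH70.AR.flip y i)
  · rw [glue_pos hy, glue_pos hz, stack_lt_pos hz hy]
  · exact iff_of_true (glue_cross' hX hle hy hz) (stack_lt hz hy)
  · have h1 := glue_cross hX hle hy hz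
    have h2 := stack_lt (g := f₂) (f := f₁) hy hz
    constructor <;> intro h <;> omega
  · rw [glue_neg hy, glue_neg hz, stack_lt_neg hz hy]

/-- raising `P`, uniformly towards `v`, to the values above `T` -/
def raise (P : (Fin n → Bool) → Prop) [DecidablePred P] (T : ℕ) (v : Fin n → Bool)
    (f : (Fin n → Bool) → ℕ) : (Fin n → Bool) → ℕ :=
  fun u => if P u then T + agr u v else f u

section raise

variable {P : (Fin n → Bool) → Prop} [DecidablePred P] {T : ℕ} {v : Fin n → Bool}
  {f : (Fin n → Bool) → ℕ}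

lemma raise_pos {u : Fin n → Bool} (h : P u) : raise P T v f u = T + agr u v := if_pos h

lemma raise_neg {u : Fin n → Bool} (h : ¬ P u) : raise P T v f u = f u := if_neg h

/-- `AOF.stackUniform` with prescribed values -/
lemma aof_raise (hf : AOF f) (hT : ∀ u, f u < T)
    (hup : ∀ u i, P u → u i ≠ v i → P (TH70.AR.flip u i))
    (hH : ∀ u, P u → ∃ A, Hyp f A v ∧ On A v u ∧ ∀ z, On A v z → P z) :
    AOF (raise P T v f) := by
  refine aof_congr (hf.stackUniform hup hH) fun y i => ?_
  by_cases hy : P y <;> by_cases hz : P (TH70.AR.flip y i)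
  · rw [raise_pos hy, raise_pos hz, stack_lt_pos hz hy]; omega
  · refine iff_of_true ?_ (stack_lt hz hy)
    rw [raise_pos hy, raise_neg hz]
    have := hT (TH70.AR.flip y i)
    omega
  · have h1 := hT y
    have h2 := stack_lt (g := fun u => agr u v) (f := f) hy hz
    rw [raise_pos hz, raise_neg hy]
    constructor <;> intro h <;> omega
  · rw [raise_neg hy, raise_neg hz, stack_lt_neg hz hy]

end raise

/-- number of coordinates of `G` in which `u` differs from `a` -/
def cnt (G : Finset (Fin n)) (a u : Fin n → Bool) : ℕ := (G.filter fun x => u x ≠ a x).card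

lemma cnt_mono {G G' : Finset (Fin n)} (h : G ⊆ G') (a u : Fin n → Bool) :
    cnt G a u ≤ cnt G' a u := card_le_card (filter_subset_filter _ h)

lemma cnt_flip_le {G : Finset (Fin n)} {a u : Fin n → Bool} {i : Fin n} :
    cnt G a (TH70.AR.flip u i) ≤ cnt G a u + 1 := by
  unfold cnt
  have h1 : (G.filter fun x => TH70.AR.flip u i x ≠ a x) ⊆ insert i (G.filter fun x => u x ≠ a x) := by
    intro x hx
    rw [mem_filter] at hx
    rw [mem_insert, mem_filter]
    by_cases hxi : x = i
    · exact Or.inl hxi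
    · rw [flip_of_ne _ hxi] at hx
      exact Or.inr hx
  exact (card_le_card h1).trans (card_insert_le _ _)

lemma cnt_flip_of_not_mem {G : Finset (Fin n)} {a u : Fin n → Bool} {i : Fin n} (hi : i ∉ G) :
    cnt G a (TH70.AR.flip u i) = cnt G a u := by
  unfold cnt
  congr 1
  apply filter_congr
  intro x hx
  rw [flip_of_ne _ (by rintro rfl; exact hi hx)]

lemma cnt_le_flip {G : Finset (Fin n)} {a u : Fin n → Bool} {i : Fin n}
    (h : i ∈ G → TH70.AR.flip u i i ≠ a i) : cnt G a u ≤ cnt G a (TH70.AR.flip u i) := by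
  unfold cnt
  apply card_le_card
  intro x hx
  rw [mem_filter] at hx ⊢
  refine ⟨hx.1, ?_⟩
  by_cases hxi : x = i
  · subst hxi; exact h hx.1
  · rw [flip_of_ne _ hxi]; exact hx.2

lemma cnt_flip_mem {G : Finset (Fin n)} {a u : Fin n → Bool} {i : Fin n} (hi : i ∈ G)
    (h : u i = a i) : cnt G a (TH70.AR.flip u i) = cnt G a u + 1 := by
  apply le_antisymm cnt_flip_le
  unfold cnt
  have h1 : insert i (G.filter fun x => u x ≠ a x) ⊆ (G.filter fun x => TH70.AR.flip u i x ≠ a x) := by
    intro x hx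
    rw [mem_insert, mem_filter] at hx
    rw [mem_filter]
    rcases hx with rfl | hx
    · refine ⟨hi, ?_⟩
      rw [flip_self, h]
      simp
    · refine ⟨hx.1, ?_⟩
      rw [flip_of_ne _ (by rintro rfl; exact hx.2 h)]
      exact hx.2
  have h2 : i ∉ G.filter fun x => u x ≠ a x := by simp [h]
  rw [← card_insert_of_notMem h2]
  exact card_le_card h1

lemma bool_eq_of_ne {a b c : Bool} (h1 : a ≠ c) (h2 : b ≠ c) : a = b := by
  cases a <;> cases b <;> cases c <;> simp_all

/-- **The two regions of a batch**: uniform towards `t`, and after more than `r` steps in `G` uniform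
towards `t'`. -/
def two (r B J : ℕ) (G : Finset (Fin n)) (a t t' : Fin n → Bool) : (Fin n → Bool) → ℕ :=
  fun u => if r < cnt G a u then (J + 1) * B + agr u t' else J * B + agr u t

section two

variable {r B J : ℕ} {G : Finset (Fin n)} {a t t' : Fin n → Bool}

lemma two_pos {u : Fin n → Bool} (h : r < cnt G a u) :
    two r B J G a t t' u = (J + 1) * B + agr u t' := if_pos h

lemma two_neg {u : Fin n → Bool} (h : ¬ r < cnt G a u) :
    two r B J G a t t' u = J * B + agr u t := if_neg h

lemma two_lt (u : Fin n → Bool) : two r B J G a t t' u < (J + 1) * B + (n + 1) := by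
  unfold two
  have h1 := agr_le u t
  have h2 := agr_le u t'
  have h3 : (J + 1) * B = J * B + B := by ring
  split_ifs <;> omega

lemma aof_two (hB : n < B) (hG : ∀ x ∈ G, t x ≠ a x) (hG' : ∀ x ∈ G, t' x = t x) :
    AOF (two r B J G a t t') := by
  have h1 : AOF (fun u => J * B + agr u t) :=
    aof_congr (AOF.uniform t) fun y i => by
      constructor <;> intro h <;> omega
  refine aof_congr (f := raise (fun u => r < cnt G a u) ((J + 1) * B) t' fun u => J * B + agr u t)
    ?_ fun y i => Iff.rfl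
  apply aof_raise h1
  · intro u
    have h2 := agr_le u t
    have h3 : (J + 1) * B = J * B + B := by ring
    omega
  · intro u i hu hi
    refine lt_of_lt_of_le hu (cnt_le_flip fun hiG => ?_)
    rw [flip_self]
    intro h
    have h2 := hG i hiG
    have h3 := hG' i hiG
    cases h4 : u i <;> cases h5 : t i <;> simp_all
  · intro u hu
    refine ⟨G.filter fun x => u x ≠ a x, ?_, ?_, ?_⟩
    · intro z hz x hx
      have h2 := hz x hx
      rw [mem_filter] at hx
      have h3 := agr_flip_lt (u := z) (v := t) (i := x) (by rw [h2, hG' x hx.1])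
      change J * B + agr (TH70.AR.flip z x) t < J * B + agr z t
      omega
    · intro x hx
      rw [mem_filter] at hx
      rw [hG' x hx.1]
      exact bool_eq_of_ne hx.2 (hG x hx.1)
    · intro z hz
      refine lt_of_lt_of_le hu (card_le_card ?_)
      intro x hx
      have h2 := hz x hx
      rw [mem_filter] at hx ⊢
      refine ⟨hx.1, ?_⟩
      rw [h2, hG' x hx.1]
      exact hG x hx.1

/-- orientation of the edges at `u` -/
lemma two_improving (hB : n < B) (hG : ∀ x ∈ G, t x ≠ a x) (hG' : ∀ x ∈ G, t' x = t x)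
    (u : Fin n → Bool) (i : Fin n) :
    two r B J G a t t' u < two r B J G a t t' (TH70.AR.flip u i) ↔
      if r < cnt G a u then u i ≠ t' i else u i ≠ t i := by
  have h3 : (J + 1) * B = J * B + B := by ring
  by_cases hu : r < cnt G a u <;> by_cases hz : r < cnt G a (TH70.AR.flip u i)
  · rw [two_pos hu, two_pos hz, if_pos hu, ← agr_flip_lt_iff]
    constructor <;> intro h <;> omega
  · rw [two_pos hu, two_neg hz, if_pos hu]
    have h1 := agr_le (TH70.AR.flip u i) t
    refine iff_of_false (by omega) fun h => hz (lt_of_lt_of_le hu (cnt_le_flip fun hiG => ?_))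
    rw [flip_self]
    intro h'
    have h4 := hG i hiG
    have h5 := hG' i hiG
    cases h6 : u i <;> cases h7 : t i <;> simp_all
  · rw [two_neg hu, two_pos hz, if_neg hu]
    have h1 := agr_le u t
    refine iff_of_true (by omega) fun h => hu ?_
    -- `i` is in `G`, and `u i = t i ≠ a i`
    by_cases hiG : i ∈ G
    · have h4 := hG i hiG
      have h5 : cnt G a (TH70.AR.flip u i) ≤ cnt G a u := by
        have := cnt_le_flip (G := G) (a := a) (u := TH70.AR.flip u i) (i := i) (fun _ => by
          rw [fl_fl, h]; exact h4)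
        rwa [fl_fl] at this
      omega
    · rwa [cnt_flip_of_not_mem hiG] at hz
  · rw [two_neg hu, two_neg hz, if_neg hu, ← agr_flip_lt_iff]
    constructor <;> intro h <;> omega

end two

end Pool.Agent.J4.H16.LA
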