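import Pool.Agent.J4.H16.LA.Play
set_option autoImplicit false

/-!
# Lookahead: composition of plays
-/

namespace Pool.Agent.J4.H16.LA

open Finset
open Pool.Agent.TH70.AR hiding flip flip_flip

variable {n : ℕ}

lemma clr_W_sub (X : Finset (Fin n)) (b : Fin n → Bool) (ρ : LR n) : (clr X b ρ).W ⊆ ρ.W :=
  filter_subset _ _

lemma wc_mono {A A' : Finset (Fin n)} (h : A ⊆ A') (v : Fin n → Bool) (ρ : LR n) :
    wc A v ρ ≤ wc A' v ρ := cnt_mono (inter_subset_inter h (Subset.refl _)) _ _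

lemma wc_congr {A : Finset (Fin n)} {v v' : Fin n → Bool} {ρ : LR n} (h : ∀ x ∈ A, v x = v' x) :
    wc A v ρ = wc A v' ρ := by
  unfold wc cnt
  congr 1
  apply filter_congr
  intro x hx
  rw [h x (mem_inter.1 hx).1]

/-- a record which is wiped more than `r` times has nothing prescribed in the face -/
lemma wc_le_of_on {A : Finset (Fin n)} {v u : Fin n → Bool} {ρ : LR n} (h : On A v u) :
    wc A v ρ ≤ cnt ρ.W ρ.w u := by
  apply card_le_card
  intro x hx
  rw [mem_filter, mem_inter] at hx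
  rw [mem_filter]
  exact ⟨hx.1.2, by rw [h x hx.1.1]; exact hx.2⟩

/-- outside of the hypersinks the second function dominates -/
lemma dom {r B H H' : ℕ} {s s₁ s₂ : St n} {ρ₀ ρ₁ : LR n} {p q : List (LR n)}
    {X X' : Finset (Fin n)} {v v' : Fin n → Bool} {𝓐 𝓐' : Finset (Finset (Fin n))}
    {f₁ f₂ : (Fin n → Bool) → ℕ} (h₁ : Sol r B H s ρ₀ p X s₁ v' 𝓐' f₁)
    (h₂ : Sol r B H' s₁ ρ₁ q X' s₂ v 𝓐 f₂) (hw : ρ₁.w = s₁.a)
    (hW : ∀ x ∈ ρ₁.W, s₁.t x ≠ s₁.a x) (hHB : H ≤ B) (hA : ∀ A ∈ 𝓐', r < wc A v' ρ₁) :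
    ∀ y, On X s₁.a y → f₁ y ≤ f₂ y := by
  intro y hy
  by_contra hlt
  push Not at hlt
  have h3 := h₂.le y
  obtain ⟨A, hAA, hAy⟩ := h₁.exit y hy (by omega)
  have h4 : wc A v' ρ₁ ≤ cnt ρ₁.W s₁.a y := by
    apply card_le_card
    intro x hx
    rw [mem_filter, mem_inter] at hx
    rw [mem_filter]
    refine ⟨hx.1.2, ?_⟩
    have h5 : v' x ≠ s₁.a x := by rw [← hw]; exact hx.2
    rw [hAy x hx.1.1 (bool_eq_of_ne h5 (hW x hx.1.2))]
    exact h5
  have h5 := h₂.far y (lt_of_lt_of_le (hA A hAA) h4)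
  have h6 := h₁.lt y
  have h7 : (s₁.J + 1) * B = s₁.J * B + B := by ring
  omega

/-- the functions glued: values and improving directions -/
lemma glue_data {r B H H' : ℕ} {s s₁ s₂ : St n} {ρ₀ ρ₁ : LR n} {p q : List (LR n)}
    {X X' : Finset (Fin n)} {v v' : Fin n → Bool} {𝓐 𝓐' : Finset (Finset (Fin n))}
    {f₁ f₂ : (Fin n → Bool) → ℕ} (hp : Play r B H s ρ₀ p X s₁)
    (hq : Play r B H' s₁ ρ₁ q X' s₂) (h₁ : Sol r B H s ρ₀ p X s₁ v' 𝓐' f₁)
    (h₂ : Sol r B H' s₁ ρ₁ q X' s₂ v 𝓐 f₂) (hle : ∀ y, On X s₁.a y → f₁ y ≤ f₂ y) :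
    ∀ ρ ∈ (ρ₀ :: p) ++ ρ₁ :: q, ∀ u ∈ ρ.Q, glue X s₁.a f₂ f₁ u = (ρ.D u).1 ∧
      ∀ i ∈ s.Y, (glue X s₁.a f₂ f₁ u < glue X s₁.a f₂ f₁ (TH70.AR.flip u i) ↔ i ∈ (ρ.D u).2) := by
  -- records of the second play
  have hsec : ∀ ρ ∈ ρ₁ :: q, ∀ u ∈ ρ.Q, glue X s₁.a f₂ f₁ u = (ρ.D u).1 ∧
      ∀ i ∈ s.Y, (glue X s₁.a f₂ f₁ u < glue X s₁.a f₂ f₁ (TH70.AR.flip u i) ↔ i ∈ (ρ.D u).2) := by
    intro ρ hρ u hu
    have hoff := hq.QY ρ hρ u hu
    have hX : On X s₁.a u := by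
      intro x hx
      exact hoff x (by rw [hp.hY, mem_sdiff]; exact fun h => h.2 hx)
    refine ⟨by rw [glue_pos hX]; exact h₂.val ρ hρ u hu, fun i hi => ?_⟩
    by_cases hiX : i ∈ X
    · have h3 : ¬ On X s₁.a (TH70.AR.flip u i) := by
        intro h
        have h4 := h i hiX
        rw [flip_self, hX i hiX] at h4
        simp at h4
      have h4 := glue_cross' h₁.hypX hle hX h3
      refine iff_of_false (by omega) fun h => ?_
      have h5 := hq.DY ρ hρ u hu h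
      rw [hp.hY, mem_sdiff] at h5
      exact h5.2 hiX
    · rw [glue_pos hX, glue_pos (TH70.AR.On.flip hX hiX)]
      exact h₂.imp ρ hρ u hu i (by rw [hp.hY, mem_sdiff]; exact ⟨hi, hiX⟩)
  intro ρ hρ u hu
  rcases List.mem_append.1 hρ with hρ | hρ
  · by_cases hX : On X s₁.a u
    · -- seen before
      obtain ⟨h3, h4⟩ := hp.exit ρ hρ u hu hX
      obtain ⟨h5, h6⟩ := hq.entry u h3
      have h7 := hsec ρ₁ List.mem_cons_self u h5
      rw [h4, ← h6]
      exact h7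
    · refine ⟨by rw [glue_neg hX]; exact h₁.val ρ hρ u hu, fun i hi => ?_⟩
      by_cases h3 : On X s₁.a (TH70.AR.flip u i)
      · refine iff_of_true (glue_cross h₁.hypX hle hX h3) ?_
        rw [← h₁.imp ρ hρ u hu i hi]
        have h4 := h₁.hypX (TH70.AR.flip u i) h3 i (flip_mem_exit hX h3)
        rwa [fl_fl] at h4
      · rw [glue_neg hX, glue_neg h3]
        exact h₁.imp ρ hρ u hu i hi
  · exact hsec ρ hρ u hu

/-- structural conditions of a composition which do not depend on the exit -/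
lemma comp_cov {s₁ : St n} {ρ₀ ρ₁ : LR n} {p q : List (LR n)} {X : Finset (Fin n)} :
    ∀ ρ ∈ clr X s₁.a ρ₀ :: (p.map (clr X s₁.a) ++ ρ₁ :: q),
      (∃ ρ' ∈ ρ₀ :: p, ρ = clr X s₁.a ρ') ∨ ρ ∈ ρ₁ :: q := by
  intro ρ hρ
  rcases List.mem_cons.1 hρ with rfl | hρ
  · exact Or.inl ⟨ρ₀, List.mem_cons_self, rfl⟩
  · rcases List.mem_append.1 hρ with hρ | hρ
    · obtain ⟨ρ', hρ', rfl⟩ := List.mem_map.1 hρ
      exact Or.inl ⟨ρ', List.mem_cons_of_mem _ hρ', rfl⟩
    · exact Or.inr hρ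

/-- **Composition without release.** -/
lemma play_nested {r B H H' : ℕ} {s s₁ s₂ : St n} {ρ₀ ρ₁ : LR n} {p q : List (LR n)}
    {X X' : Finset (Fin n)} (hp : Play r B H s ρ₀ p X s₁)
    (hq : Play r B H' s₁ ρ₁ q X' s₂) (hHB : H ≤ B) :
    Play r B H' s (clr X s₁.a ρ₀) (p.map (clr X s₁.a) ++ ρ₁ :: q) (X ∪ X') s₂ := by
  classical
  have hcov := comp_cov (s₁ := s₁) (ρ₀ := ρ₀) (ρ₁ := ρ₁) (p := p) (q := q) (X := X)
  have hY₁ : ∀ x, x ∈ s₁.Y ↔ x ∈ s.Y ∧ x ∉ X := fun x => by rw [hp.hY, mem_sdiff]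
  have hbX : ∀ x ∈ X, s₂.a x = s₁.a x := fun x hx => hq.off x fun h => ((hY₁ x).1 h).2 hx
  have hoff₁ : ∀ x, x ∉ s.Y → x ∉ s₁.Y := fun x hx h => hx ((hY₁ x).1 h).1
  have hYs : s₁.Y ⊆ s.Y := fun x hx => ((hY₁ x).1 hx).1
  have hY₂ : s₂.Y = s.Y \ (X ∪ X') := by
    rw [hq.hY, hp.hY, sdiff_sdiff_left]
    rfl
  refine ⟨hY₂, union_subset hp.XY (hq.XY.trans hYs), ?_, hq.toff,
    hp.hJ.trans (by have := hq.hJ; omega), ?_, ?_, ?_, ?_, ?_, hp.w₀, ?_, ?_, ?_, ?_⟩
  · intro x hx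
    rw [hq.off x (hoff₁ x hx), hp.off x hx]
  · intro ρ hρ u hu x hx
    rcases hcov ρ hρ with ⟨ρ', hρ', rfl⟩ | hρ
    · exact hp.QY ρ' hρ' u hu x hx
    · rw [hq.QY ρ hρ u hu x (hoff₁ x hx), hp.off x hx]
  · intro ρ hρ u hu
    rcases hcov ρ hρ with ⟨ρ', hρ', rfl⟩ | hρ
    · exact hp.DY ρ' hρ' u hu
    · exact (hq.DY ρ hρ u hu).trans hYs
  · intro ρ hρ
    rcases hcov ρ hρ with ⟨ρ', hρ', rfl⟩ | hρ
    · exact (clr_W_sub _ _ _).trans (hp.WY ρ' hρ')
    · exact (hq.WY ρ hρ).trans hYs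
  · intro ρ hρ u hu
    rcases hcov ρ hρ with ⟨ρ', hρ', rfl⟩ | hρ
    · exact (cnt_mono (clr_W_sub _ _ _) _ _).trans (hp.cov ρ' hρ' u hu)
    · exact hq.cov ρ hρ u hu
  · intro ρ hρ u hu hX
    have hX' : On X' s₂.a u := fun x hx => hX x (mem_union_right _ hx)
    have hX₁ : On X s₁.a u := fun x hx => by
      rw [hX x (mem_union_left _ hx), hbX x hx]
    rcases hcov ρ hρ with ⟨ρ', hρ', rfl⟩ | hρ
    · obtain ⟨h3, h4⟩ := hp.exit ρ' hρ' u hu hX₁
      obtain ⟨h5, h6⟩ := hq.entry u h3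
      obtain ⟨h7, h8⟩ := hq.exit ρ₁ List.mem_cons_self u h5 hX'
      exact ⟨h7, by rw [← h8, h6]; exact h4⟩
    · exact hq.exit ρ hρ u hu hX'
  · intro x hx
    exact hp.W₀ x (clr_W_sub _ _ _ hx)
  · exact hp.entry
  · -- start
    refine lt_of_lt_of_le hp.start ?_
    apply card_le_card
    intro x hx
    rw [mem_filter, mem_inter] at hx
    obtain ⟨⟨h1, h2⟩, h3⟩ := hx
    rw [mem_filter, mem_inter]
    refine ⟨⟨mem_union_left _ h1, mem_filter.2 ⟨h2, fun h => h3 h.2⟩⟩, ?_⟩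
    rw [hbX x h1]
    exact h3
  · -- ext
    intro v 𝓐 hv h𝓐
    have hvX : ∀ x ∈ X, v x = s₁.a x := fun x hx => by
      rw [hv x (mem_union_left _ hx), hbX x hx]
    obtain ⟨f₁, h₁⟩ := hp.ext v 𝓐 hvX (by
      intro A hA ρ hρ
      refine lt_of_lt_of_le (h𝓐 A hA (clr X s₁.a ρ) ?_)
        (cnt_mono (inter_subset_inter (Subset.refl _) (clr_W_sub _ _ _)) _ _)
      rcases List.mem_cons.1 hρ with rfl | hρ
      · exact List.mem_cons_self
      · exact List.mem_cons_of_mem _ (List.mem_append_left _ (List.mem_map_of_mem hρ)))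
    have hwq : ∀ A ∈ 𝓐, ∀ ρ ∈ ρ₁ :: q, r < wc (A \ X) v ρ := by
      intro A hA ρ hρ
      refine lt_of_lt_of_le (h𝓐 A hA ρ (List.mem_cons_of_mem _
        (List.mem_append_right _ hρ))) (cnt_mono ?_ _ _)
      intro x hx
      rw [mem_inter] at hx
      rw [mem_inter, mem_sdiff]
      exact ⟨⟨hx.1, ((hY₁ x).1 (hq.WY ρ hρ hx.2)).2⟩, hx.2⟩
    obtain ⟨f₂, h₂⟩ := hq.ext v (𝓐.image fun A => A \ X)
      (fun x hx => hv x (mem_union_right _ hx)) (by
      intro A hA ρ hρ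
      obtain ⟨A', hA', rfl⟩ := mem_image.1 hA
      exact hwq A' hA' ρ hρ)
    have hle := dom h₁ h₂ hq.w₀ hq.W₀ hHB (fun A hA =>
      lt_of_lt_of_le (hwq A hA ρ₁ List.mem_cons_self) (wc_mono sdiff_subset _ _))
    have hdat := glue_data hp hq h₁ h₂ hle
    have hdat' : ∀ ρ ∈ clr X s₁.a ρ₀ :: (p.map (clr X s₁.a) ++ ρ₁ :: q), ∀ u ∈ ρ.Q,
        glue X s₁.a f₂ f₁ u = (ρ.D u).1 ∧
        ∀ i ∈ s.Y, (glue X s₁.a f₂ f₁ u < glue X s₁.a f₂ f₁ (TH70.AR.flip u i) ↔ i ∈ (ρ.D u).2) := by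
      intro ρ hρ u hu
      rcases hcov ρ hρ with ⟨ρ', hρ', rfl⟩ | hρ
      · exact hdat ρ' (List.mem_append_left _ hρ') u hu
      · exact hdat ρ (List.mem_append_right _ hρ) u hu
    have hJ₁ : s₁.J * B + H ≤ s₂.J * B := by
      have h3 := Nat.mul_le_mul_right B hq.hJ
      have h4 : (s₁.J + 1) * B = s₁.J * B + B := by ring
      omega
    refine ⟨glue X s₁.a f₂ f₁, aof_glue h₁.aof h₂.aof h₁.hypX hle,
      fun ρ hρ u hu => (hdat' ρ hρ u hu).1, fun ρ hρ u hu => (hdat' ρ hρ u hu).2,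
      ?_, ?_, ?_, ?_, ?_, ?_⟩
    · -- exit hypersink
      intro u hu i hi
      have hX₁ : On X s₁.a u := fun x hx => by
        rw [hu x (mem_union_left _ hx), hbX x hx]
      by_cases hiX : i ∈ X
      · apply glue_cross' h₁.hypX hle hX₁
        intro h
        have h3 := h i hiX
        rw [flip_self, hX₁ i hiX] at h3
        simp at h3
      · rw [glue_pos hX₁, glue_pos (TH70.AR.On.flip hX₁ hiX)]
        refine h₂.hypX u (fun x hx => hu x (mem_union_right _ hx)) i ?_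
        rcases mem_union.1 hi with h | h
        · exact absurd h hiX
        · exact h
    · intro A hA u hu i hi
      by_cases hX₁ : On X s₁.a u
      · by_cases hiX : i ∈ X
        · apply glue_cross' h₁.hypX hle hX₁
          intro h
          have h3 := h i hiX
          rw [flip_self, hX₁ i hiX] at h3
          simp at h3
        · rw [glue_pos hX₁, glue_pos (TH70.AR.On.flip hX₁ hiX)]
          exact h₂.hyp (A \ X) (mem_image_of_mem _ hA) u
            (fun x hx => hu x (mem_sdiff.1 hx).1) i (mem_sdiff.2 ⟨hi, hiX⟩)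
      · by_cases h3 : On X s₁.a (TH70.AR.flip u i)
        · exfalso
          have h4 := flip_mem_exit hX₁ h3
          have h5 := h3 i h4
          rw [flip_self, hu i hi, hvX i h4] at h5
          simp at h5
        · rw [glue_neg hX₁, glue_neg h3]
          exact h₁.hyp A hA u hu i hi
    · intro y
      by_cases hy : On X s₁.a y
      · rw [glue_pos hy]; exact h₂.lt y
      · rw [glue_neg hy]
        have := h₁.lt y
        omega
    · intro y hy h
      have hX₁ : On X s₁.a y := fun x hx => by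
        rw [hy x (mem_union_left _ hx), hbX x hx]
      rw [glue_pos hX₁] at h
      obtain ⟨A', hA', h3⟩ := h₂.exit y (fun x hx => hy x (mem_union_right _ hx)) h
      obtain ⟨A, hA, rfl⟩ := mem_image.1 hA'
      refine ⟨A, hA, fun x hx hxt => ?_⟩
      by_cases hxX : x ∈ X
      · rw [hX₁ x hxX, hvX x hxX]
      · exact h3 x (mem_sdiff.2 ⟨hx, hxX⟩) hxt
    · intro y
      by_cases hy : On X s₁.a y
      · rw [glue_pos hy]; exact (h₁.le y).trans (hle y hy)
      · rw [glue_neg hy]; exact h₁.le y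
    · intro y hyf
      have hyf' : r < cnt ρ₀.W s.a y := lt_of_lt_of_le hyf (cnt_mono (clr_W_sub _ _ _) _ _)
      by_cases hy : On X s₁.a y
      · rw [glue_pos hy]; exact (h₁.far y hyf').trans (hle y hy)
      · rw [glue_neg hy]; exact h₁.far y hyf'

/-- the state after a release -/
def rst (s s₂ : St n) (X' : Finset (Fin n)) : St n := ⟨s.Y \ X', s₂.a, s₂.t, s₂.Ω, s₂.J⟩

/-- **Composition with release.** The exit of the second play wipes all records of the first one; then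
the directions frozen by the first play are free again. -/
lemma play_release {r B H H' : ℕ} {s s₁ s₂ : St n} {ρ₀ ρ₁ : LR n} {p q : List (LR n)}
    {X X' : Finset (Fin n)} (hp : Play r B H s ρ₀ p X s₁)
    (hq : Play r B H' s₁ ρ₁ q X' s₂) (hHB : H ≤ B)
    (hrel : ∀ ρ ∈ ρ₀ :: p, r < wc X' s₂.a ρ) :
    Play r B (H' + (n + 1)) s (clr X s₁.a ρ₀) (p.map (clr X s₁.a) ++ ρ₁ :: q) X'
      (rst s s₂ X') := by
  classical
  have hcov := comp_cov (s₁ := s₁) (ρ₀ := ρ₀) (ρ₁ := ρ₁) (p := p) (q := q) (X := X)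
  have hY₁ : ∀ x, x ∈ s₁.Y ↔ x ∈ s.Y ∧ x ∉ X := fun x => by rw [hp.hY, mem_sdiff]
  have hY₂ : ∀ x, x ∈ s₂.Y ↔ x ∈ s₁.Y ∧ x ∉ X' := fun x => by rw [hq.hY, mem_sdiff]
  have hbX : ∀ x ∈ X, s₂.a x = s₁.a x := fun x hx => hq.off x fun h => ((hY₁ x).1 h).2 hx
  have hoff₁ : ∀ x, x ∉ s.Y → x ∉ s₁.Y := fun x hx h => hx ((hY₁ x).1 h).1
  have hYs : s₁.Y ⊆ s.Y := fun x hx => ((hY₁ x).1 hx).1
  have hX'X : ∀ x ∈ X', x ∉ X := fun x hx => ((hY₁ x).1 (hq.XY hx)).2
  have htX : ∀ x ∈ X, s₂.t x = s₁.a x := by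
    intro x hx
    rw [hq.toff x fun h => ((hY₁ x).1 ((hY₂ x).1 h).1).2 hx, hbX x hx]
  -- the exit avoids the first records
  have hav : ∀ ρ ∈ ρ₀ :: p, ∀ u ∈ ρ.Q, ¬ On X' s₂.a u := by
    intro ρ hρ u hu h
    have h1 := hrel ρ hρ
    have h2 := hp.cov ρ hρ u hu
    have h3 := wc_le_of_on (ρ := ρ) h
    omega
  have hwX : ∀ (A : Finset (Fin n)) (v : Fin n → Bool), ∀ ρ ∈ ρ₀ :: p,
      (∀ x ∈ A ∩ (clr X s₁.a ρ).W, v x ≠ ρ.w x → x ∈ X → v x = s₁.a x) := by
    intro A v ρ hρ x hx hvx hxX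
    rw [mem_inter] at hx
    have h1 := (mem_filter.1 hx.2).2
    have h2 : s₁.a x ≠ ρ.w x := fun h => h1 ⟨hxX, h⟩
    exact bool_eq_of_ne hvx h2
  refine ⟨rfl, hq.XY.trans hYs, ?_, ?_, hp.hJ.trans (by have := hq.hJ; change s₁.J ≤ s₂.J; omega),
    ?_, ?_, ?_, ?_, ?_, hp.w₀, ?_, ?_, ?_, ?_⟩
  · intro x hx
    change s₂.a x = _
    rw [hq.off x (hoff₁ x hx), hp.off x hx]
  · intro x hx
    change s₂.t x = s₂.a x
    change x ∉ s.Y \ X' at hx
    refine hq.toff x fun h => hx ?_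
    rw [mem_sdiff]
    have h1 := (hY₂ x).1 h
    exact ⟨hYs h1.1, h1.2⟩
  · intro ρ hρ u hu x hx
    rcases hcov ρ hρ with ⟨ρ', hρ', rfl⟩ | hρ
    · exact hp.QY ρ' hρ' u hu x hx
    · rw [hq.QY ρ hρ u hu x (hoff₁ x hx), hp.off x hx]
  · intro ρ hρ u hu
    rcases hcov ρ hρ with ⟨ρ', hρ', rfl⟩ | hρ
    · exact hp.DY ρ' hρ' u hu
    · exact (hq.DY ρ hρ u hu).trans hYs
  · intro ρ hρ
    rcases hcov ρ hρ with ⟨ρ', hρ', rfl⟩ | hρ
    · exact (clr_W_sub _ _ _).trans (hp.WY ρ' hρ')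
    · exact (hq.WY ρ hρ).trans hYs
  · intro ρ hρ u hu
    rcases hcov ρ hρ with ⟨ρ', hρ', rfl⟩ | hρ
    · exact (cnt_mono (clr_W_sub _ _ _) _ _).trans (hp.cov ρ' hρ' u hu)
    · exact hq.cov ρ hρ u hu
  · -- exit
    intro ρ hρ u hu hX'
    change On X' s₂.a u at hX'
    rcases hcov ρ hρ with ⟨ρ', hρ', rfl⟩ | hρ
    · exact absurd hX' (hav ρ' hρ' u hu)
    · obtain ⟨h1, h2⟩ := hq.exit ρ hρ u hu hX'
      refine ⟨?_, h2⟩
      rw [zone, mem_filter] at h1 ⊢
      refine ⟨mem_univ _, ?_, ?_⟩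
      · intro x hx
        change x ∉ s.Y \ X' at hx
        change u x = s₂.a x
        refine h1.2.1 x fun h => hx ?_
        rw [mem_sdiff]
        have h3 := (hY₂ x).1 h
        exact ⟨hYs h3.1, h3.2⟩
      · refine le_trans (card_le_card ?_) h1.2.2
        intro x hx
        rw [mem_filter, mem_sdiff] at hx ⊢
        change (x ∈ s.Y \ X' ∧ x ∉ s₂.Ω) ∧ u x ≠ s₂.a x at hx
        refine ⟨⟨?_, hx.1.2⟩, hx.2⟩
        by_contra h
        exact hx.2 (h1.2.1 x h)
  · intro x hx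
    exact hp.W₀ x (clr_W_sub _ _ _ hx)
  · exact hp.entry
  · -- start
    refine lt_of_lt_of_le (hrel ρ₀ List.mem_cons_self) ?_
    apply card_le_card
    intro x hx
    rw [mem_filter, mem_inter] at hx
    obtain ⟨⟨h1, h2⟩, h3⟩ := hx
    rw [mem_filter, mem_inter]
    exact ⟨⟨h1, mem_filter.2 ⟨h2, fun h => hX'X x h1 h.1⟩⟩, h3⟩
  · -- ext
    intro v 𝓐 hv h𝓐
    change ∀ x ∈ X', v x = s₂.a x at hv
    set v' : Fin n → Bool := fun x => if x ∈ X then s₁.a x else v x with hv'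
    have hv'X : ∀ x ∈ X, v' x = s₁.a x := fun x hx => by simp [hv', hx]
    have hv'n : ∀ x, x ∉ X → v' x = v x := fun x hx => by simp [hv', hx]
    set κ : Finset (Fin n) → Finset (Fin n) := fun A => A.filter fun x => x ∈ X → v x = s₁.a x
      with hκ
    have hκm : ∀ A x, x ∈ κ A ↔ x ∈ A ∧ (x ∈ X → v x = s₁.a x) := fun A x => by
      rw [hκ, mem_filter]
    have hv'κ : ∀ A, ∀ x ∈ κ A, v' x = v x := by
      intro A x hx
      by_cases hxX : x ∈ X
      · rw [hv'X x hxX, ((hκm A x).1 hx).2 hxX]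
      · exact hv'n x hxX
    have hκA : ∀ A, κ A ⊆ A := fun A => filter_subset _ _
    -- the sets `κ A` wipe
    have hwp : ∀ A ∈ 𝓐, ∀ ρ ∈ ρ₀ :: p, r < wc (κ A) v' ρ := by
      intro A hA ρ hρ
      have h1 : r < wc A v (clr X s₁.a ρ) := by
        apply h𝓐 A hA
        rcases List.mem_cons.1 hρ with rfl | hρ
        · exact List.mem_cons_self
        · exact List.mem_cons_of_mem _ (List.mem_append_left _ (List.mem_map_of_mem hρ))
      refine lt_of_lt_of_le h1 (card_le_card ?_)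
      intro x hx
      rw [mem_filter] at hx
      have h2 := hwX A v ρ hρ x hx.1 hx.2
      have h3 := mem_inter.1 hx.1
      have h4 : x ∈ κ A := (hκm A x).2 ⟨h3.1, h2⟩
      rw [mem_filter, mem_inter]
      refine ⟨⟨h4, clr_W_sub _ _ _ h3.2⟩, ?_⟩
      rw [hv'κ A x h4]
      exact hx.2
    have hwq : ∀ A ∈ 𝓐, ∀ ρ ∈ ρ₁ :: q, r < wc (A \ X) v ρ := by
      intro A hA ρ hρ
      refine lt_of_lt_of_le (h𝓐 A hA ρ (List.mem_cons_of_mem _
        (List.mem_append_right _ hρ))) (cnt_mono ?_ _ _)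
      intro x hx
      rw [mem_inter] at hx
      rw [mem_inter, mem_sdiff]
      exact ⟨⟨hx.1, ((hY₁ x).1 (hq.WY ρ hρ hx.2)).2⟩, hx.2⟩
    have hX'v' : ∀ x ∈ X', v' x = s₂.a x := fun x hx => by rw [hv'n x (hX'X x hx), hv x hx]
    obtain ⟨f₁, h₁⟩ := hp.ext v' (insert X' (𝓐.image κ)) hv'X (by
      intro A hA ρ hρ
      rw [mem_insert] at hA
      rcases hA with rfl | hA
      · rw [wc_congr hX'v']
        exact hrel ρ hρ
      · obtain ⟨A', hA', rfl⟩ := mem_image.1 hA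
        exact hwp A' hA' ρ hρ)
    obtain ⟨f₂, h₂⟩ := hq.ext v (𝓐.image fun A => A \ X) hv (by
      intro A hA ρ hρ
      obtain ⟨A', hA', rfl⟩ := mem_image.1 hA
      exact hwq A' hA' ρ hρ)
    have hle := dom h₁ h₂ hq.w₀ hq.W₀ hHB (by
      intro A hA
      rw [mem_insert] at hA
      rcases hA with rfl | hA
      · rw [wc_congr hX'v']
        exact hq.start
      · obtain ⟨A', hA', rfl⟩ := mem_image.1 hA
        refine lt_of_lt_of_le (hwq A' hA' ρ₁ List.mem_cons_self) ?_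
        apply card_le_card
        intro x hx
        rw [mem_filter, mem_inter, mem_sdiff] at hx
        obtain ⟨⟨⟨h1, h2⟩, h3⟩, h4⟩ := hx
        rw [mem_filter, mem_inter, hv'n x h2]
        exact ⟨⟨(hκm A' x).2 ⟨h1, fun h => absurd h h2⟩, h3⟩, h4⟩)
    have hdat := glue_data hp hq h₁ h₂ hle
    obtain ⟨g, hg⟩ : ∃ g, g = glue X s₁.a f₂ f₁ := ⟨_, rfl⟩
    have hgA : AOF g := by rw [hg]; exact aof_glue h₁.aof h₂.aof h₁.hypX hle
    rw [← hg] at hdat
    have hJ₁ : s₁.J * B + H ≤ s₂.J * B := by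
      have h3 := Nat.mul_le_mul_right B hq.hJ
      have h4 : (s₁.J + 1) * B = s₁.J * B + B := by ring
      omega
    have hglt : ∀ y, g y < s₂.J * B + H' := by
      intro y
      rw [hg]
      by_cases hy : On X s₁.a y
      · rw [glue_pos hy]; exact h₂.lt y
      · rw [glue_neg hy]
        have := h₁.lt y
        omega
    -- hypersinks of `g`
    have hgX' : Hyp g X' s₂.a := by
      intro u hu i hi
      rw [hg]
      have hiX := hX'X i hi
      by_cases hX₁ : On X s₁.a u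
      · rw [glue_pos hX₁, glue_pos (TH70.AR.On.flip hX₁ hiX)]
        exact h₂.hypX u hu i hi
      · have h3 : ¬ On X s₁.a (TH70.AR.flip u i) := fun h => hX₁ (On.of_flip h hiX)
        rw [glue_neg hX₁, glue_neg h3]
        exact h₁.hyp X' (mem_insert_self _ _) u (fun x hx => by rw [hX'v' x hx]; exact hu x hx) i hi
    have hgκ : ∀ A ∈ 𝓐, Hyp g (κ A) v := by
      intro A hA u hu i hi
      rw [hg]
      by_cases hX₁ : On X s₁.a u
      · by_cases hiX : i ∈ X
        · apply glue_cross' h₁.hypX hle hX₁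
          intro h
          have h3 := h i hiX
          rw [flip_self, hX₁ i hiX] at h3
          simp at h3
        · rw [glue_pos hX₁, glue_pos (TH70.AR.On.flip hX₁ hiX)]
          refine h₂.hyp (A \ X) (mem_image_of_mem _ hA) u
            (fun x hx => hu x ((hκm A x).2 ⟨(mem_sdiff.1 hx).1, fun h => absurd h
              (mem_sdiff.1 hx).2⟩)) i (mem_sdiff.2 ⟨hκA A hi, hiX⟩)
      · by_cases h3 : On X s₁.a (TH70.AR.flip u i)
        · exfalso
          have h4 := flip_mem_exit hX₁ h3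
          have h5 := h3 i h4
          rw [flip_self, hu i hi, ((hκm A i).1 hi).2 h4] at h5
          simp at h5
        · rw [glue_neg hX₁, glue_neg h3]
          exact h₁.hyp (κ A) (mem_insert_of_mem (mem_image_of_mem _ hA)) u
            (fun x hx => by rw [hv'κ A x hx]; exact hu x hx) i hi
    -- make the hypersinks bigger
    set P : (Fin n → Bool) → Prop := fun u => ∃ A ∈ 𝓐, On (κ A) v u with hP
    have hPA : AOF (raise P (s₂.J * B + H') v g) := by
      apply aof_raise hgA hglt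
      · rintro u i ⟨A, hA, h⟩ hi
        refine ⟨A, hA, fun j hj => ?_⟩
        by_cases hji : j = i
        · subst hji
          exact absurd (h j hj) hi
        · rw [flip_of_ne _ hji]
          exact h j hj
      · rintro u ⟨A, hA, h⟩
        exact ⟨κ A, hgκ A hA, h, fun z hz => ⟨A, hA, hz⟩⟩
    -- the records are not raised
    have hPn : ∀ ρ ∈ (ρ₀ :: p) ++ ρ₁ :: q, ∀ u ∈ ρ.Q, ¬ P u := by
      rintro ρ hρ u hu ⟨A, hA, hAu⟩
      rcases List.mem_append.1 hρ with hρ | hρ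
      · have h1 := hwp A hA ρ hρ
        have h2 := hp.cov ρ hρ u hu
        have h3 := wc_le_of_on (ρ := ρ) (A := κ A) (v := v') (u := u)
          (fun x hx => by rw [hv'κ A x hx]; exact hAu x hx)
        omega
      · have h1 := hwq A hA ρ hρ
        have h2 := hq.cov ρ hρ u hu
        have h3 := wc_le_of_on (ρ := ρ) (A := A \ X) (v := v) (u := u)
          (fun x hx => hAu x ((hκm A x).2 ⟨(mem_sdiff.1 hx).1, fun h => absurd h
              (mem_sdiff.1 hx).2⟩))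
        omega
    have hdat' : ∀ ρ ∈ (ρ₀ :: p) ++ ρ₁ :: q, ∀ u ∈ ρ.Q,
        raise P (s₂.J * B + H') v g u = (ρ.D u).1 ∧
        ∀ i ∈ s.Y, (raise P (s₂.J * B + H') v g u < raise P (s₂.J * B + H') v g (TH70.AR.flip u i) ↔
          i ∈ (ρ.D u).2) := by
      intro ρ hρ u hu
      have hPu := hPn ρ hρ u hu
      obtain ⟨h1, h2⟩ := hdat ρ hρ u hu
      refine ⟨by rw [raise_neg hPu]; exact h1, fun i hi => ?_⟩
      rw [← h2 i hi, raise_neg hPu]
      by_cases hPf : P (TH70.AR.flip u i)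
      · rw [raise_pos hPf]
        have h3 := hglt u
        refine iff_of_true (by omega) ?_
        obtain ⟨A, hA, h⟩ := hPf
        have hiA : i ∈ κ A := by
          by_contra h'
          exact hPu ⟨A, hA, On.of_flip h h'⟩
        have := hgκ A hA _ h i hiA
        rwa [fl_fl] at this
      · rw [raise_neg hPf]
    have hdat'' : ∀ ρ ∈ clr X s₁.a ρ₀ :: (p.map (clr X s₁.a) ++ ρ₁ :: q), ∀ u ∈ ρ.Q,
        raise P (s₂.J * B + H') v g u = (ρ.D u).1 ∧
        ∀ i ∈ s.Y, (raise P (s₂.J * B + H') v g u < raise P (s₂.J * B + H') v g (TH70.AR.flip u i) ↔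
          i ∈ (ρ.D u).2) := by
      intro ρ hρ u hu
      rcases hcov ρ hρ with ⟨ρ', hρ', rfl⟩ | hρ
      · exact hdat' ρ' (List.mem_append_left _ hρ') u hu
      · exact hdat' ρ (List.mem_append_right _ hρ) u hu
    refine ⟨_, hPA, fun ρ hρ u hu => (hdat'' ρ hρ u hu).1,
      fun ρ hρ u hu => (hdat'' ρ hρ u hu).2, ?_, ?_, ?_, ?_, ?_, ?_⟩
    · -- exit hypersink
      intro u hu i hi
      change On X' s₂.a u at hu
      have hPfP : P (TH70.AR.flip u i) → P u := by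
        rintro ⟨A, hA, hAu⟩
        refine ⟨A, hA, fun x hx => ?_⟩
        by_cases hxi : x = i
        · subst hxi
          rw [hu x hi, hv x hi]
        · rw [← hAu x hx, flip_of_ne _ hxi]
      by_cases hPu : P u
      · rw [raise_pos hPu]
        by_cases hPf : P (TH70.AR.flip u i)
        · rw [raise_pos hPf]
          have := agr_flip_lt (u := u) (v := v) (i := i) (by rw [hu i hi, hv i hi])
          omega
        · rw [raise_neg hPf]
          have := hglt (TH70.AR.flip u i)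
          omega
      · rw [raise_neg hPu, raise_neg fun h => hPu (hPfP h)]
        exact hgX' u hu i hi
    · intro A hA u hu i hi
      have hPu : P u := ⟨A, hA, fun x hx => hu x (hκA A hx)⟩
      rw [raise_pos hPu]
      by_cases hPf : P (TH70.AR.flip u i)
      · rw [raise_pos hPf]
        have := agr_flip_lt (hu i hi)
        omega
      · rw [raise_neg hPf]
        have := hglt (TH70.AR.flip u i)
        omega
    · intro y
      change raise P (s₂.J * B + H') v g y < s₂.J * B + (H' + (n + 1))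
      by_cases hPy : P y
      · rw [raise_pos hPy]
        have := agr_le y v
        omega
      · rw [raise_neg hPy]
        have := hglt y
        omega
    · -- exit
      intro y hy h
      change On X' s₂.a y at hy
      change s₂.J * B + agr y s₂.t < _ at h
      change ∃ A ∈ 𝓐, ∀ x ∈ A, v x = s₂.t x → y x = v x
      by_cases hPy : P y
      · obtain ⟨A, hA, hAy⟩ := hPy
        refine ⟨A, hA, fun x hx hxt => hAy x ((hκm A x).2 ⟨hx, fun hxX => ?_⟩)⟩
        rw [hxt, htX x hxX]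
      · rw [raise_neg hPy] at h
        by_cases hX₁ : On X s₁.a y
        · rw [hg, glue_pos hX₁] at h
          obtain ⟨A', hA', h3⟩ := h₂.exit y hy h
          obtain ⟨A, hA, rfl⟩ := mem_image.1 hA'
          refine ⟨A, hA, fun x hx hxt => ?_⟩
          by_cases hxX : x ∈ X
          · rw [hX₁ x hxX, hxt, htX x hxX]
          · exact h3 x (mem_sdiff.2 ⟨hx, hxX⟩) hxt
        · rw [hg, glue_neg hX₁] at h
          have := h₁.lt y
          omega
    · intro y
      have h4 : s.J * B + agr y s.t ≤ g y := by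
        rw [hg]
        by_cases hy : On X s₁.a y
        · rw [glue_pos hy]; exact (h₁.le y).trans (hle y hy)
        · rw [glue_neg hy]; exact h₁.le y
      by_cases hPy : P y
      · rw [raise_pos hPy]
        have := hglt y
        omega
      · rw [raise_neg hPy]
        exact h4
    · intro y hyf
      have hyf' : r < cnt ρ₀.W s.a y := lt_of_lt_of_le hyf (cnt_mono (clr_W_sub _ _ _) _ _)
      have h4 : (s.J + 1) * B ≤ g y := by
        rw [hg]
        by_cases hy : On X s₁.a y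
        · rw [glue_pos hy]; exact (h₁.far y hyf').trans (hle y hy)
        · rw [glue_neg hy]; exact h₁.far y hyf'
      by_cases hPy : P y
      · rw [raise_pos hPy]
        have := hglt y
        omega
      · rw [raise_neg hPy]
        exact h4

end Pool.Agent.J4.H16.LA
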