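import Pool.Agent.TH70.AR.Run
set_option autoImplicit false

/-!
# Lookahead: what a rule sees
-/

namespace Pool.Agent.J4.H16.LA

open Finset
open Pool.Agent.TH70.AR hiding flip flip_flip

variable {n : ℕ}

/-- what a rule with lookahead sees: for each visited vertex, the current one first, a function which
gives value and improving directions of the vertices ahead -/
abbrev LPast (n : ℕ) := List ((Fin n → Bool) × ((Fin n → Bool) → Option (ℕ × Finset (Fin n))))

/-- the vertices which can be reached by at most `s` improving steps, where `I u` is the set of improving
directions at `u` -/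
def ahead (I : (Fin n → Bool) → Finset (Fin n)) : ℕ → (Fin n → Bool) → Finset (Fin n → Bool)
  | 0, x => {x}
  | s + 1, x => ahead I s x ∪ (ahead I s x).biUnion fun u => (I u).image (TH70.AR.flip u)

/-- what is seen at a vertex `x`: value and improving directions of all vertices which can be reached by at
most `r` improving steps -/
noncomputable def look (f : (Fin n → Bool) → ℕ) (r : ℕ) (x : Fin n → Bool) :
    (Fin n → Bool) → Option (ℕ × Finset (Fin n)) := fun u =>
  if u ∈ ahead (improving f) r x then some (f u, improving f u) else none

/-- everything seen along `w 0, …, w t`, the current vertex first -/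
noncomputable def lseen (f : (Fin n → Bool) → ℕ) (r : ℕ) (w : ℕ → (Fin n → Bool)) : ℕ → LPast n
  | 0 => [(w 0, look f r (w 0))]
  | t + 1 => (w (t + 1), look f r (w (t + 1))) :: lseen f r w t

end Pool.Agent.J4.H16.LA
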