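import Pool.Agent.J4.H16.LA.Level
set_option autoImplicit false

/-!
# Lookahead: the lower bound
-/

namespace Pool.Agent.J4.H16.LA

open Finset
open Pool.Agent.TH70.AR hiding flip flip_flip

variable {n : ℕ} {A : LPast n → Fin n} {r : ℕ}

lemma Lvl.mono {B P P' N κ κ' l l' M M' j : ℕ} (h : Lvl A r B P N κ l M j) (h1 : P ≤ P')
    (h2 : κ ≤ κ') (h3 : l ≤ l') (h4 : M ≤ M') : Lvl A r B P' N κ' l' M' j := by
  intro g s hs hP hN
  obtain ⟨ρ₀, p, X, s', g1, g2, g3⟩ := h g s hs (h1.trans hP) hN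
  exact ⟨ρ₀, p, X, s', g1.mono h2 h3 h4, g2, g3⟩

/-- all levels -/
lemma levels (hA : LValid A) {B k u N m lam T l D M' L : ℕ} (hB : 4 * n + 4 ≤ B)
    (hk : k = 14 * (L + 1)) (hu : r + 1 ≤ u) (hT : T = 2 * (k + 1) ^ 2 * (lam + r + 1))
    (hl : l = T * ((m + 1) * (r + 2)) + (2 * r + 2)) (hD : D = 3 * u + r + 2 * l)
    (hm : N ≤ (m + 1) * u) (hM' : M' = T * ((m + 1) * N) + 2 * N)
    (hM : 2 * ((2 ^ (L + 1) - 1) * M') ≤ 2 ^ lam) :
    ∀ j ≤ L, Lvl A r B ((2 * L + 2) * D + j * l) N ((2 * j + 1) * D) l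
      ((2 ^ (j + 1) - 1) * M') j := by
  have hD0 : r < D := by omega
  intro j
  induction j with
  | zero =>
    intro _
    apply level_zero hA
    · omega
    · have : (2 * L + 2) * D = 2 * (L * D) + 2 * D := by ring
      omega
    · omega
    · omega
    · simp only [zero_add, pow_one]
      omega
  | succ j ih =>
    intro hj
    have hpow : 2 ^ (j + 1) ≤ 2 ^ (L + 1) := Nat.pow_le_pow_right (by norm_num) (by omega)
    have h1 := level_succ (k := k) (u := u) (K := (2 * j + 1) * D) (K' := (2 * j + 2) * D)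
      (N := N) (m := m) (lam := lam) (P := (2 * L + 2) * D + j * l) (l := l)
      (M := (2 ^ (j + 1) - 1) * M') (j := j) hA hB (by omega) hu ?_ ?_ hm ?_ ?_ ?_ (ih (by omega))
    · refine h1.mono ?_ ?_ le_rfl ?_
      · have : (j + 1) * l = j * l + l := by ring
        omega
      · have e1 : (2 * (j + 1) + 1) * D = (2 * j + 2) * D + D := by ring
        omega
      · rw [← hT]
        obtain ⟨y, hy⟩ : ∃ y, 2 ^ (j + 1) = y + 1 :=
          ⟨2 ^ (j + 1) - 1, by have : 0 < 2 ^ (j + 1) := by positivity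
                               omega⟩
        have e1 : 2 ^ (j + 1 + 1) - 1 = 2 * y + 1 := by
          rw [pow_succ, hy]; omega
        have e2 : 2 ^ (j + 1) - 1 = y := by omega
        rw [e1, e2, hM']
        ring_nf
        omega
    · -- growth of the number of useless directions
      have h2 : 7 * (2 * j + 1) ≤ k := by omega
      have h3 : 1 ≤ k := by omega
      have h4 : (2 * j + 1) * (3 * k ^ 2 + 3 * k + 1) ≤ k ^ 3 := by
        have h5 : 3 * k ^ 2 + 3 * k + 1 ≤ 7 * k ^ 2 := by nlinarith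
        calc (2 * j + 1) * (3 * k ^ 2 + 3 * k + 1) ≤ (2 * j + 1) * (7 * k ^ 2) :=
              Nat.mul_le_mul_left _ h5
          _ = (7 * (2 * j + 1)) * k ^ 2 := by ring
          _ ≤ k * k ^ 2 := Nat.mul_le_mul_right _ h2
          _ = k ^ 3 := by ring
      calc (2 * j + 1) * D * (k + 1) ^ 3
          = D * ((2 * j + 1) * k ^ 3 + (2 * j + 1) * (3 * k ^ 2 + 3 * k + 1)) := by ring
        _ ≤ D * ((2 * j + 1) * k ^ 3 + k ^ 3) := Nat.mul_le_mul_left _ (by omega)
        _ = _ := by ring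
    · exact Nat.mul_le_mul_right _ (by omega)
    · refine le_trans ?_ hM
      exact Nat.mul_le_mul_left _ (Nat.mul_le_mul_right _ (by omega))
    · rw [← hT]
      have e1 : (2 * j + 2) * D ≤ (2 * L) * D := Nat.mul_le_mul_right _ (by omega)
      have e2 : (2 * L + 2) * D = (2 * L) * D + 2 * D := by ring
      omega
    · rw [← hT, ← hl]

/-- `t` steps of the rule from `a` with the past `h` -/
noncomputable def lrun (A : LPast n → Fin n) (f : (Fin n → Bool) → ℕ) (r : ℕ) :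
    ℕ → (Fin n → Bool) → LPast n → (Fin n → Bool) × LPast n
  | 0, a, h => (a, h)
  | t + 1, a, h => lrun A f r t (TH70.AR.flip a (A ((a, look f r a) :: h))) ((a, look f r a) :: h)

lemma lrun_succ (f : (Fin n → Bool) → ℕ) (t : ℕ) (a : Fin n → Bool)
    (h : LPast n) : lrun A f r (t + 1) a h =
      (TH70.AR.flip (lrun A f r t a h).1 (A (((lrun A f r t a h).1, look f r (lrun A f r t a h).1) ::
        (lrun A f r t a h).2)),
        ((lrun A f r t a h).1, look f r (lrun A f r t a h).1) :: (lrun A f r t a h).2) := by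
  induction t generalizing a h with
  | zero => rfl
  | succ t ih => rw [lrun, ih]; rfl

/-- the data of the records are correct -/
lemma ahead_eq {f : (Fin n → Bool) → ℕ} {I : (Fin n → Bool) → Finset (Fin n)}
    {Q : Finset (Fin n → Bool)} {a : Fin n → Bool} (hQ : ahead I r a ⊆ Q)
    (h : ∀ u ∈ Q, improving f u = I u) : ahead (improving f) r a = ahead I r a := by
  have key : ∀ j ≤ r, ahead (improving f) j a = ahead I j a ∧ ahead I j a ⊆ ahead I r a := by
    have hm : ∀ i j, i ≤ j → ahead I i a ⊆ ahead I j a := by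
      intro i j hij
      induction hij with
      | refl => exact Subset.refl _
      | step _ ih => exact ih.trans subset_union_left
    intro j hj
    refine ⟨?_, hm j r hj⟩
    induction j with
    | zero => rfl
    | succ j ih =>
      simp only [ahead]
      rw [ih (by omega)]
      congr 1
      apply biUnion_congr rfl
      intro u hu
      rw [h u (hQ (hm j r (by omega) hu))]
  exact (key r le_rfl).1

lemma look_eq {f : (Fin n → Bool) → ℕ} {ρ : LR n}
    (hQ : ahead (fun z => (ρ.D z).2) r ρ.w ⊆ ρ.Q)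
    (hI : ∀ u ∈ ρ.Q, improving f u = (ρ.D u).2)
    (hv : ∀ u ∈ ρ.Q, f u = (ρ.D u).1 * 2 ^ n + (Fintype.equivFin (Fin n → Bool) u : ℕ)) :
    look f r ρ.w = lk r ρ := by
  funext u
  unfold look lk
  rw [ahead_eq hQ hI]
  by_cases hu : u ∈ ahead (fun z => (ρ.D z).2) r ρ.w
  · rw [if_pos hu, if_pos hu, hI u (hQ hu), hv u (hQ hu)]
  · rw [if_neg hu, if_neg hu]

lemma lrun_walk {f : (Fin n → Bool) → ℕ} {q : List (LR n)}
    {h : LPast n} {a b : Fin n → Bool} (hq : LWalk A r h a q b)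
    (hI : ∀ ρ ∈ q, ∀ u ∈ ρ.Q, improving f u = (ρ.D u).2)
    (hv : ∀ ρ ∈ q, ∀ u ∈ ρ.Q,
      f u = (ρ.D u).1 * 2 ^ n + (Fintype.equivFin (Fin n → Bool) u : ℕ)) :
    ∀ (t : ℕ), t < q.length → (improving f (lrun A f r t a h).1).Nonempty := by
  induction q generalizing h a with
  | nil => intro t ht; simp at ht
  | cons ρ q ih =>
    simp only [LWalk] at hq
    obtain ⟨h1, h2, h3, h4⟩ := hq
    have haQ : a ∈ ρ.Q := h3 (self_mem_ahead _ _ _)
    have hlk : look f r a = lk r ρ := by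
      rw [← h1]
      refine look_eq (by rw [h1]; exact h3) (hI ρ List.mem_cons_self) (hv ρ List.mem_cons_self)
    intro t ht
    cases t with
    | zero =>
      change (improving f a).Nonempty
      rw [hI ρ List.mem_cons_self a haQ]
      exact h2
    | succ t =>
      rw [lrun, hlk]
      exact ih h4 (fun ρ' hρ' => hI ρ' (List.mem_cons_of_mem _ hρ'))
        (fun ρ' hρ' => hv ρ' (List.mem_cons_of_mem _ hρ')) t (by simpa using ht)

/-- the numbers -/
lemma numbers {L r k lam T m l u D N M' q : ℕ} (hq : q = L + r + 1) (hk : k = 14 * (L + 1))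
    (hlam : lam = 48 * q) (hT : T = 2 * (k + 1) ^ 2 * (lam + r + 1)) (hm : m = 12 * L + 7)
    (hl : l = T * ((m + 1) * (r + 2)) + (2 * r + 2)) (hu : u = r + 2 * l + 1)
    (hD : D = 3 * u + r + 2 * l) (hN : N = (3 * L + 2) * D)
    (hM' : M' = T * ((m + 1) * N) + 2 * N) :
    N ≤ (m + 1) * u ∧ (2 * L + 2) * D + L * l ≤ N ∧ N ≤ 2 ^ 24 * q ^ 6 ∧
      2 * ((2 ^ (L + 1) - 1) * M') ≤ 2 ^ lam := by
  have hq1 : 1 ≤ q := by omega
  have hk1 : k + 1 ≤ 15 * q := by omega
  have hk2 : (k + 1) ^ 2 ≤ (15 * q) ^ 2 := Nat.pow_le_pow_left hk1 2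
  have hT1 : T ≤ 22050 * q ^ 3 := by
    rw [hT]
    calc 2 * (k + 1) ^ 2 * (lam + r + 1) ≤ 2 * (15 * q) ^ 2 * (49 * q) :=
          Nat.mul_le_mul (Nat.mul_le_mul_left _ hk2) (by omega)
      _ = 22050 * q ^ 3 := by ring
  have hm1 : m + 1 ≤ 12 * q := by omega
  have hr : r + 2 ≤ 2 * q := by omega
  have hq5 : q ≤ q ^ 5 := Nat.le_self_pow (by norm_num) q
  have hl1 : l ≤ 529202 * q ^ 5 := by
    rw [hl]
    have h1 : T * ((m + 1) * (r + 2)) ≤ 529200 * q ^ 5 := by
      calc T * ((m + 1) * (r + 2)) ≤ (22050 * q ^ 3) * ((12 * q) * (2 * q)) :=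
            Nat.mul_le_mul hT1 (Nat.mul_le_mul hm1 hr)
        _ = 529200 * q ^ 5 := by ring
    omega
  have hu1 : u ≤ 1058405 * q ^ 5 := by omega
  have hD1 : D ≤ 4 * u := by omega
  have hD2 : D ≤ 4233620 * q ^ 5 := by omega
  have hN1 : N ≤ 12700860 * q ^ 6 := by
    rw [hN]
    calc (3 * L + 2) * D ≤ (3 * q) * (4233620 * q ^ 5) := Nat.mul_le_mul (by omega) hD2
      _ = 12700860 * q ^ 6 := by ring
  refine ⟨?_, ?_, ?_, ?_⟩
  · rw [hN, hm]
    calc (3 * L + 2) * D ≤ (3 * L + 2) * (4 * u) := Nat.mul_le_mul_left _ hD1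
      _ = (12 * L + 7 + 1) * u := by ring
  · rw [hN]
    have h1 : L * l ≤ L * D := Nat.mul_le_mul_left _ (by omega)
    have h2 : (3 * L + 2) * D = (2 * L + 2) * D + L * D := by ring
    omega
  · exact hN1.trans (Nat.mul_le_mul_right _ (by norm_num))
  · have h1 : M' ≤ 2 ^ 42 * q ^ 10 := by
      rw [hM']
      have h2 : T * ((m + 1) * N) ≤ 22050 * 12 * 12700860 * q ^ 10 := by
        calc T * ((m + 1) * N) ≤ (22050 * q ^ 3) * ((12 * q) * (12700860 * q ^ 6)) :=
              Nat.mul_le_mul hT1 (Nat.mul_le_mul hm1 hN1)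
          _ = 22050 * 12 * 12700860 * q ^ 10 := by ring
      have h3 : q ^ 6 ≤ q ^ 10 := Nat.pow_le_pow_right hq1 (by norm_num)
      omega
    have h2 : q ≤ 2 ^ (q - 1) := by
      have h3 : q - 1 < 2 ^ (q - 1) := Nat.lt_two_pow_self
      omega
    have h3 : q ^ 10 ≤ 2 ^ (10 * (q - 1)) := by
      rw [mul_comm, pow_mul]
      exact Nat.pow_le_pow_left h2 10
    calc 2 * ((2 ^ (L + 1) - 1) * M') ≤ 2 * (2 ^ (L + 1) * (2 ^ 42 * 2 ^ (10 * (q - 1)))) :=
          Nat.mul_le_mul_left _ (Nat.mul_le_mul (Nat.sub_le _ _)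
            (h1.trans (Nat.mul_le_mul_left _ h3)))
      _ = 2 ^ (1 + (L + 1 + (42 + 10 * (q - 1)))) := by
          rw [pow_add 2 1, pow_add 2 (L + 1), pow_add 2 42, pow_one]
      _ ≤ 2 ^ lam := Nat.pow_le_pow_right (by norm_num) (by omega)

/-- **The main lower bound.** -/
theorem lookahead_slow {k : ℕ} (hn : 2 ^ 24 * (k + r + 1) ^ 6 ≤ n) (hA : LValid A)
    (x₀ : Fin n → Bool) :
    ∃ f : (Fin n → Bool) → ℕ, Function.Injective f ∧ AOF f ∧
      ∃ (L : ℕ) (w : ℕ → (Fin n → Bool)), w 0 = x₀ ∧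
        (∀ t < L, (improving f (w t)).Nonempty ∧ w (t + 1) = TH70.AR.flip (w t) (A (lseen f r w t))) ∧
        improving f (w L) = ∅ ∧ 2 ^ k ≤ L := by
  classical
  obtain ⟨q, hq⟩ : ∃ q, q = k + r + 1 := ⟨_, rfl⟩
  obtain ⟨κ, hκ⟩ : ∃ κ, κ = 14 * (k + 1) := ⟨_, rfl⟩
  obtain ⟨lam, hlam⟩ : ∃ lam, lam = 48 * q := ⟨_, rfl⟩
  obtain ⟨T, hT⟩ : ∃ T, T = 2 * (κ + 1) ^ 2 * (lam + r + 1) := ⟨_, rfl⟩
  obtain ⟨m, hm⟩ : ∃ m, m = 12 * k + 7 := ⟨_, rfl⟩
  obtain ⟨l, hl⟩ : ∃ l, l = T * ((m + 1) * (r + 2)) + (2 * r + 2) := ⟨_, rfl⟩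
  obtain ⟨u, hu⟩ : ∃ u, u = r + 2 * l + 1 := ⟨_, rfl⟩
  obtain ⟨D, hD⟩ : ∃ D, D = 3 * u + r + 2 * l := ⟨_, rfl⟩
  obtain ⟨N, hN⟩ : ∃ N, N = (3 * k + 2) * D := ⟨_, rfl⟩
  obtain ⟨M', hM'⟩ : ∃ M', M' = T * ((m + 1) * N) + 2 * N := ⟨_, rfl⟩
  obtain ⟨n1, n2, n3, n4⟩ := numbers hq hκ hlam hT hm hl hu hD hN hM'
  have hNn : N ≤ n := by
    rw [← hq] at hn
    exact n3.trans hn
  obtain ⟨Y, -, hY⟩ := exists_subset_card_eq (s := (univ : Finset (Fin n))) (n := N)
    (by simpa using hNn)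
  -- the starting state
  obtain ⟨s, hs⟩ : ∃ s : St n, s = ⟨Y, x₀, fun x => if x ∈ Y then !x₀ x else x₀ x, ∅, 1⟩ :=
    ⟨_, rfl⟩
  have hfr : Fresh s := by
    rw [hs]
    refine ⟨fun x hx => if_neg hx, fun x hx => ?_, fun x _ => by simp⟩
    change (if x ∈ Y then !x₀ x else x₀ x) ≠ x₀ x
    rw [if_pos hx]
    simp
  have hsY : s.Y = Y := by rw [hs]
  have hsa : s.a = x₀ := by rw [hs]
  have hsJ : s.J = 1 := by rw [hs]
  obtain ⟨ρ₀, p, X, s', h1, h2, h3⟩ := levels (n := n) (A := A) (r := r) (B := 4 * n + 4) hA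
    le_rfl hκ (show r + 1 ≤ u by omega) hT hl hD n1 hM' n4 k le_rfl [] s hfr
    (by rw [hsY, hY]; exact n2) (by rw [hsY, hY])
  obtain ⟨f₀, hf₀⟩ := h1.play.ext s'.a ∅ (fun x _ => rfl) (by simp)
  -- the objective function
  have hXle : ∀ y, On Yᶜ x₀ y → agr y x₀ ≤ f₀ y := by
    intro y _
    have h4 := hf₀.le y
    rw [hsJ] at h4
    have h5 := agr_le y x₀
    omega
  have hHyp : Hyp (fun y => agr y x₀) Yᶜ x₀ := by
    intro y hy i hi
    exact agr_flip_lt (hy i hi)
  obtain ⟨f₁, hf₁⟩ : ∃ f₁, f₁ = glue Yᶜ x₀ f₀ (fun y => agr y x₀) := ⟨_, rfl⟩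
  have hf₁A : AOF f₁ := by
    rw [hf₁]
    exact aof_glue (AOF.uniform x₀) hf₀.aof hHyp hXle
  set e := Fintype.equivFin (Fin n → Bool) with he
  have hcard : Fintype.card (Fin n → Bool) = 2 ^ n := by simp
  have hκe : ∀ u, (e u : ℕ) < 2 ^ n := fun u => hcard ▸ (e u).2
  obtain ⟨g, hg⟩ : ∃ g : (Fin n → Bool) → ℕ, g = fun u => f₁ u * 2 ^ n + (e u : ℕ) := ⟨_, rfl⟩
  have hgu : ∀ u, g u = f₁ u * 2 ^ n + (e u : ℕ) := fun u => by rw [hg]
  have hglt : ∀ u v, f₁ u < f₁ v → g u < g v := by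
    intro u v h
    rw [hgu, hgu]
    have h1 := hκe u
    have h2 : (f₁ u + 1) * 2 ^ n ≤ f₁ v * 2 ^ n := Nat.mul_le_mul_right _ h
    nlinarith
  have hginj : Function.Injective g := by
    intro u v h
    have h1 : f₁ u = f₁ v := by
      rcases lt_trichotomy (f₁ u) (f₁ v) with h' | h' | h'
      · exact absurd h (hglt u v h').ne
      · exact h'
      · exact absurd h (hglt v u h').ne'
    rw [hgu, hgu, h1] at h
    exact e.injective (Fin.ext (by omega))
  have hadj : ∀ x i, g x < g (TH70.AR.flip x i) ↔ f₁ x < f₁ (TH70.AR.flip x i) := by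
    intro x i
    constructor
    · intro h
      by_contra h'
      have h1 : f₁ (TH70.AR.flip x i) < f₁ x := lt_of_le_of_ne (not_lt.1 h') (hf₁A.ne x i)
      have := hglt _ _ h1
      omega
    · exact hglt _ _
  have himp : ∀ x, improving g x = improving f₁ x := by
    intro x
    ext i
    simp only [improving, mem_filter, hadj]
  have hgA : AOF g := by
    refine aof_congr hf₁A fun y i => ?_
    have := hadj (TH70.AR.flip y i) i
    rwa [fl_fl] at this
  -- the records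
  have hrec : ∀ ρ ∈ ρ₀ :: p, ∀ u ∈ ρ.Q, f₁ u = (ρ.D u).1 ∧ improving f₁ u = (ρ.D u).2 := by
    intro ρ hρ u hu
    have hoff := h1.play.QY ρ hρ u hu
    rw [hsY, hsa] at hoff
    have hon : On Yᶜ x₀ u := fun x hx => hoff x (mem_compl.1 hx)
    refine ⟨?_, ?_⟩
    · rw [hf₁, glue_pos hon]
      exact hf₀.val ρ hρ u hu
    · ext i
      rw [improving, mem_filter]
      simp only [mem_univ, true_and]
      by_cases hi : i ∈ Y
      · have hiY : i ∉ Yᶜ := fun h => mem_compl.1 h hi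
        rw [hf₁, glue_pos hon, glue_pos (TH70.AR.On.flip hon hiY)]
        exact hf₀.imp ρ hρ u hu i (by rw [hsY]; exact hi)
      · have h4 : ¬ On Yᶜ x₀ (TH70.AR.flip u i) := by
          intro h
          have h5 := h i (mem_compl.2 hi)
          rw [flip_self, hon i (mem_compl.2 hi)] at h5
          simp at h5
        have h5 := glue_cross' hHyp hXle hon h4
        rw [← hf₁] at h5
        refine iff_of_false (by omega) fun h => hi ?_
        have h6 := h1.play.DY ρ hρ u hu h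
        rwa [hsY] at h6
  have hwalk := h1.walk
  rw [hsa] at hwalk
  have hrun := lrun_walk (f := g) hwalk (fun ρ hρ u hu => by rw [himp]; exact (hrec ρ hρ u hu).2)
    (fun ρ hρ u hu => by rw [hgu, (hrec ρ hρ u hu).1])
  refine ⟨g, hginj, hgA, ?_⟩
  -- the run
  set w : ℕ → (Fin n → Bool) := fun t => (lrun A g r t x₀ []).1 with hw
  have hseen : ∀ t, lseen g r w t = (w t, look g r (w t)) :: (lrun A g r t x₀ []).2 := by
    intro t
    induction t with
    | zero => rfl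
    | succ t ih => rw [lseen, ih, lrun_succ]
  have hstep : ∀ t, w (t + 1) = TH70.AR.flip (w t) (A (lseen g r w t)) := by
    intro t
    rw [hseen]
    simp only [hw, lrun_succ]
  have hup : ∀ t, (improving g (w t)).Nonempty → g (w t) < g (w (t + 1)) := by
    intro t ht
    have h1 := hA (w t) (look g r (w t)) (g (w t)) (improving g (w t)) (lrun A g r t x₀ []).2
      (if_pos (self_mem_ahead _ _ _)) ht
    rw [hstep, hseen]
    rw [improving, mem_filter] at h1
    exact h1.2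
  have hend : ∃ t, improving g (w t) = ∅ := by
    by_contra hne
    push Not at hne
    have h1 : StrictMono fun t => g (w t) := strictMono_nat_of_lt_succ fun t => hup t (hne t)
    have h2 := h1.injective
    have h3 : Function.Injective w := fun s t h => h2 (by simp only [h])
    exact not_injective_infinite_finite w h3
  refine ⟨Nat.find hend, w, rfl, fun t ht => ⟨?_, hstep t⟩, Nat.find_spec hend, ?_⟩
  · exact nonempty_iff_ne_empty.2 (Nat.find_min hend ht)
  · by_contra hlt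
    have h4 := hrun (Nat.find hend) (by omega)
    rw [show (lrun A g r (Nat.find hend) x₀ []).1 = w (Nat.find hend) from rfl,
      Nat.find_spec hend] at h4
    exact absurd h4 (by simp)

end Pool.Agent.J4.H16.LA
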