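import Pool.Agent.J4.H16.LA.Wipe
set_option autoImplicit false

/-!
# Lookahead: the levels of the construction
-/

namespace Pool.Agent.J4.H16.LA

open Finset
open Pool.Agent.TH70.AR hiding flip flip_flip

variable {n : ℕ} {A : LPast n → Fin n} {r : ℕ}

lemma mem_good {s : St n} {t' : Fin n → Bool} {x : Fin n} :
    x ∈ good s t' ↔ x ∈ s.Y ∧ x ∉ s.Ω ∧ s.t x ≠ s.a x ∧ t' x = s.t x := by
  unfold good; rw [mem_filter]

lemma card_le_add {Y Y' X : Finset (Fin n)} (h : Y' = Y \ X) : Y.card ≤ Y'.card + X.card := by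
  have h1 : Y ⊆ Y' ∪ X := by
    intro x hx
    rw [mem_union, h, mem_sdiff]
    by_cases hxX : x ∈ X
    · exact Or.inr hxX
    · exact Or.inl ⟨hx, hxX⟩
  exact (card_le_card h1).trans (card_union_le _ _)

/-- a batch without any waste -/
lemma batch_fresh (hA : LValid A) {B N c : ℕ} (hB : n < B) {s : St n} (h : LPast n)
    (ht : ∀ x, x ∉ s.Y → s.t x = s.a x) (hΩ : ∀ x ∈ s.Y, x ∈ s.Ω → s.t x = s.a x)
    (hc : (s.Y.filter fun x => s.t x = s.a x).card ≤ c) (hY : c + r < s.Y.card)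
    (hN : s.Y.card ≤ N) :
    ∃ (ρ₀ : LR n) (p : List (LR n)) (X : Finset (Fin n)) (s' : St n),
      Seg A r B (2 * n + 2) (c + r) (r + 1) N h s ρ₀ p X s' ∧ Fresh s' := by
  have hgm : ∀ x, x ∈ good s (tgt s ∅) ↔ x ∈ s.Y ∧ s.t x ≠ s.a x := by
    intro x
    rw [mem_good_tgt]
    constructor
    · rintro ⟨h1, h2, h3, h4⟩
      exact ⟨h1, h3⟩
    · rintro ⟨h1, h2⟩
      exact ⟨h1, fun h3 => h2 (hΩ x h1 h3), h2, by simp⟩
  have hgc : (s.Y \ good s (tgt s ∅)).card ≤ c := by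
    refine le_trans (card_le_card ?_) hc
    intro x hx
    rw [mem_sdiff, hgm] at hx
    rw [mem_filter]
    refine ⟨hx.1, ?_⟩
    by_contra h1
    exact hx.2 ⟨hx.1, h1⟩
  have h2 : (s.Y \ good s (tgt s ∅)).card = s.Y.card - (good s (tgt s ∅)).card :=
    card_sdiff_of_subset (filter_subset _ _)
  have h3 : r < (good s (tgt s ∅)).card := by omega
  obtain ⟨ρ₀, p, b, X, hX, hP, hW, hb, hbc, hU, hL⟩ := batch hA hB ht
    (fun x hx => tgt_off hx) (t' := tgt s ∅) (Z := ∅) h3 (by simp) h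
  have hbx : ∀ x ∈ s.Y \ X, b x = s.a x := by
    intro x hx
    rw [mem_sdiff] at hx
    by_contra h4
    apply hx.2
    rw [hX, mem_union, mem_filter, hgm]
    refine Or.inl ⟨⟨hx.1, ?_⟩, h4⟩
    rw [← (hb x).resolve_left h4]
    exact h4
  refine ⟨ρ₀, p, X, _, ⟨hP, hW, ?_, ?_, hL.trans hN⟩, ⟨?_, ?_, ?_⟩⟩
  · rw [hX, union_empty]
    unfold cnt at hbc
    omega
  · intro ρ hρ
    have h4 : s.Y \ (ρ.W ∪ X) ⊆ s.Y \ ρ.W :=
      sdiff_subset_sdiff (Subset.refl _) subset_union_left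
    have h5 := card_le_card h4
    have h6 := hU ρ hρ
    omega
  · exact hP.toff
  · intro x hx
    change x ∈ s.Y \ X at hx
    change tgt s ∅ x ≠ b x
    rw [tgt_not (mem_sdiff.1 hx).1 (by simp), hbx x hx]
    simp
  · intro x hx hx'
    change x ∈ s.Y \ X at hx
    change x ∈ (s.Y \ X).filter (fun x => b x ≠ s.a x) at hx'
    exact (mem_filter.1 hx').2 (hbx x hx)

/-- a batch after which no wasted direction is improving -/
lemma batch_clear (hA : LValid A) {B N c : ℕ} (hB : n < B) {s : St n} (h : LPast n)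
    (ht : ∀ x, x ∉ s.Y → s.t x = s.a x)
    (hc : (s.Y.filter fun x => x ∈ s.Ω ∨ s.t x = s.a x).card ≤ c) (hY : c + r < s.Y.card)
    (hN : s.Y.card ≤ N) :
    ∃ (ρ₀ : LR n) (p : List (LR n)) (X : Finset (Fin n)) (s' : St n),
      Seg A r B (2 * n + 2) (c + r) (r + 1) N h s ρ₀ p X s' ∧
      (∀ x ∈ s'.Y, x ∈ s'.Ω → s'.t x = s'.a x) ∧
      (s'.Y.filter fun x => s'.t x = s'.a x).card ≤ c := by
  have hgc : (s.Y \ good s s.t).card ≤ c := by
    refine le_trans (card_le_card ?_) hc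
    intro x hx
    rw [mem_sdiff, mem_good] at hx
    rw [mem_filter]
    refine ⟨hx.1, ?_⟩
    by_contra h1
    rw [not_or] at h1
    exact hx.2 ⟨hx.1, h1.1, h1.2, rfl⟩
  have h2 : (s.Y \ good s s.t).card = s.Y.card - (good s s.t).card :=
    card_sdiff_of_subset (filter_subset _ _)
  have h3 : r < (good s s.t).card := by omega
  obtain ⟨ρ₀, p, b, X, hX, hP, hW, hb, hbc, hU, hL⟩ := batch hA hB ht
    ht (Z := ∅) h3 (by simp) h
  refine ⟨ρ₀, p, X, _, ⟨hP, hW, ?_, ?_, hL.trans hN⟩, ?_, ?_⟩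
  · rw [hX, union_empty]
    unfold cnt at hbc
    omega
  · intro ρ hρ
    have h4 : s.Y \ (ρ.W ∪ X) ⊆ s.Y \ ρ.W :=
      sdiff_subset_sdiff (Subset.refl _) subset_union_left
    have h5 := card_le_card h4
    have h6 := hU ρ hρ
    omega
  · intro x hx hx'
    change x ∈ (s.Y \ X).filter (fun x => b x ≠ s.a x) at hx'
    change s.t x = b x
    exact ((hb x).resolve_left (mem_filter.1 hx').2).symm
  · refine le_trans (card_le_card ?_) hc
    intro x hx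
    change x ∈ (s.Y \ X).filter (fun x => s.t x = b x) at hx
    rw [mem_filter, mem_sdiff] at hx
    obtain ⟨⟨h4, h5⟩, h6⟩ := hx
    rw [mem_filter]
    refine ⟨h4, ?_⟩
    by_contra h7
    rw [not_or] at h7
    apply h5
    rw [hX, mem_union, mem_filter, mem_good]
    refine Or.inl ⟨⟨h4, h7.1, h7.2, rfl⟩, ?_⟩
    rw [← h6]
    exact h7.2

/-- a fresh state is reached by two batches -/
lemma refresh (hA : LValid A) {B N c : ℕ} (hB : n < B) (hHB : 2 * n + 2 ≤ B) {s : St n}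
    (h : LPast n) (ht : ∀ x, x ∉ s.Y → s.t x = s.a x)
    (hc : (s.Y.filter fun x => x ∈ s.Ω ∨ s.t x = s.a x).card ≤ c)
    (hY : c + 2 * r + 1 < s.Y.card) (hN : s.Y.card ≤ N) :
    ∃ (ρ₀ : LR n) (p : List (LR n)) (X : Finset (Fin n)) (s' : St n),
      Seg A r B (2 * n + 2) (c + r) (2 * r + 2) (2 * N) h s ρ₀ p X s' ∧ Fresh s' := by
  obtain ⟨ρ₀, p, X, s₁, h1, h2, h3⟩ := batch_clear (r := r) hA hB h ht hc (by omega) hN
  have h4 := card_le_add h1.play.hY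
  have h5 := h1.cX
  have h6 : s₁.Y ⊆ s.Y := by rw [h1.play.hY]; exact sdiff_subset
  obtain ⟨ρ₁, q, X', s', g1, g2⟩ := batch_fresh (r := r) hA hB (lpst r h (ρ₀ :: p))
    (fun x hx => h1.play.toff x hx) h2 h3 (by omega) ((card_le_card h6).trans hN)
  exact ⟨_, _, _, s', (seg_nested hHB h1 g1).mono le_rfl (by omega) (by omega), g2⟩

/-- the level `j` -/
def Lvl (A : LPast n → Fin n) (r B P N κ l M j : ℕ) : Prop :=
  ∀ (h : LPast n) (s : St n), Fresh s → P ≤ s.Y.card → s.Y.card ≤ N →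
    ∃ (ρ₀ : LR n) (p : List (LR n)) (X : Finset (Fin n)) (s' : St n),
      Seg A r B (2 * n + 2) κ l M h s ρ₀ p X s' ∧ Fresh s' ∧ 2 ^ j ≤ (ρ₀ :: p).length

lemma level_zero (hA : LValid A) {B P N κ l M : ℕ} (hB : n < B) (hP : r < P) (hκ : r ≤ κ)
    (hl : r + 1 ≤ l) (hM : N ≤ M) : Lvl A r B P N κ l M 0 := by
  intro h s hs hPY hN
  obtain ⟨ρ₀, p, X, s', h1, h2⟩ := batch_fresh (r := r) (c := 0) hA hB h hs.toff
    (fun x hx hx' => absurd hx' (hs.om x hx)) (by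
      rw [Nat.le_zero, card_eq_zero, filter_eq_empty_iff]
      exact fun x hx => hs.ne x hx) (by omega) hN
  exact ⟨ρ₀, p, X, s', h1.mono (by omega) hl hM, h2, by simp⟩

lemma Ex_card3 {ι : Type} [Fintype ι] {k K K' : ℕ} {Y : Finset (Fin n)} {R : ι → LR n}
    {ω : ι → ℝ} (hk : 1 ≤ k) (hω : ∀ j, 0 ≤ ω j) (hK : ∀ j, (Y \ (R j).W).card ≤ K)
    (hK' : K * (k + 1) ^ 3 ≤ K' * k ^ 3) :
    (Ex Y R ω ((k : ℝ) / (k + 1) * ((k : ℝ) / (k + 1) * (k / (k + 1))))).card ≤ K' := by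
  have hkr : (0 : ℝ) < k := by exact_mod_cast hk
  set κ₃ : ℝ := (k : ℝ) / (k + 1) * ((k : ℝ) / (k + 1) * (k / (k + 1))) with hκ₃
  have hκ₃0 : 0 < κ₃ := by rw [hκ₃]; positivity
  have h3 := Ex_card (κ := κ₃) hω hK
  have h4 : (K : ℝ) ≤ K' * κ₃ := by
    have h5 : ((K * (k + 1) ^ 3 : ℕ) : ℝ) ≤ ((K' * k ^ 3 : ℕ) : ℝ) := by exact_mod_cast hK'
    push_cast at h5
    rw [hκ₃]
    have h6 : (K' : ℝ) * ((k : ℝ) / (k + 1) * ((k : ℝ) / (k + 1) * (k / (k + 1)))) =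
        K' * (k : ℝ) ^ 3 / (k + 1) ^ 3 := by field_simp
    rw [h6, le_div_iff₀ (by positivity)]
    exact h5
  have h5 : ((Ex Y R ω κ₃).card : ℝ) ≤ K' := le_of_mul_le_mul_right (h3.trans h4) hκ₃0
  exact_mod_cast h5

/-- **The next level.** -/
lemma level_succ (hA : LValid A) {B k u K K' N m lam P l M j : ℕ} (hB : 4 * n + 4 ≤ B)
    (hk : 1 ≤ k) (hu : r + 1 ≤ u) (hK' : K * (k + 1) ^ 3 ≤ K' * k ^ 3) (hKK' : K ≤ K')
    (hm : N ≤ (m + 1) * u) (hM : 2 * M ≤ 2 ^ lam)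
    (hP : K' + 3 * u + r + 2 * (k + 1) ^ 2 * (lam + r + 1) * ((m + 1) * (r + 2)) + l < P)
    (hl : 2 * (k + 1) ^ 2 * (lam + r + 1) * ((m + 1) * (r + 2)) + (2 * r + 2) ≤ l)
    (hj : Lvl A r B P N K l M j) :
    Lvl A r B (P + l) N (K' + 3 * u + r + 2 * l) l
      (2 * M + 2 * (k + 1) ^ 2 * (lam + r + 1) * ((m + 1) * N) + 2 * N) (j + 1) := by
  intro h s hs hPY hN
  obtain ⟨ρ₀, p, X, s₁, h1, h2, h3⟩ := hj h s hs (by omega) hN
  have e1 := card_le_add h1.play.hY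
  have f1 := h1.cX
  have g1 : s₁.Y ⊆ s.Y := by rw [h1.play.hY]; exact sdiff_subset
  have k1 := card_le_card g1
  obtain ⟨ρ₁, q, X₂, s₂, i1, i2, i3⟩ := hj (lpst r h (ρ₀ :: p)) s₁ h2 (by omega) (by omega)
  have e2 := card_le_add i1.play.hY
  have f2 := i1.cX
  have g2 : s₂.Y ⊆ s₁.Y := by rw [i1.play.hY]; exact sdiff_subset
  have k2 := card_le_card g2
  -- the records
  obtain ⟨Ls, hLs⟩ : ∃ Ls, Ls = (ρ₀ :: p) ++ (ρ₁ :: q) := ⟨_, rfl⟩
  have hlen : Ls.length ≤ 2 ^ lam := by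
    rw [hLs, List.length_append]
    have := h1.len
    have := i1.len
    omega
  have hR : ∀ ρ ∈ Ls, (s₂.Y \ ρ.W).card ≤ K := by
    intro ρ hρ
    rw [hLs, List.mem_append] at hρ
    rcases hρ with hρ | hρ
    · refine le_trans (card_le_card ?_) (h1.cW ρ hρ)
      intro x hx
      rw [mem_sdiff] at hx
      rw [mem_sdiff, mem_union, not_or]
      have h4 := g2 hx.1
      rw [h1.play.hY, mem_sdiff] at h4
      exact ⟨h4.1, hx.2, h4.2⟩
    · refine le_trans (card_le_card ?_) (i1.cW ρ hρ)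
      intro x hx
      rw [mem_sdiff] at hx
      rw [mem_sdiff, mem_union, not_or]
      have h4 := hx.1
      rw [i1.play.hY, mem_sdiff] at h4
      exact ⟨h4.1, hx.2, h4.2⟩
  have hB1 : n < B := by omega
  have hB2 : 2 * n + 2 ≤ B := by omega
  have hB3 : 2 * n + 2 + (n + 1) + (n + 1) ≤ B := by omega
  obtain ⟨ρ₂, q', X₃, s₃, ω, j1, hω, j2, j3⟩ := wipe (r := r) (ι := Fin Ls.length)
    (R := fun i => Ls.get i) (lam := lam) (u := u) (m := m) (N := N) hA hB1 hB2 hk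
    (by omega) hK' hm (lpst r (lpst r h (ρ₀ :: p)) (ρ₁ :: q)) i2 (fun i => hR _ (List.get_mem _ _))
    (by simpa using hlen) (by omega) (by omega)
  have f3 := j1.cX
  have hwall : ∀ ρ ∈ Ls, r < wc X₃ s₃.a ρ := by
    intro ρ hρ
    obtain ⟨i, hi⟩ := List.get_of_mem hρ
    rw [← hi]
    exact j3 i
  -- release the second one
  have l1 := seg_release hB2 (show K ≤ K' + 3 * u + r by omega) i1 j1
    (fun ρ hρ => hwall ρ (by rw [hLs]; exact List.mem_append_right _ hρ))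
  have l2 := seg_release hB2 (show K ≤ K' + 3 * u + r + l by omega) h1 l1
    (fun ρ hρ => hwall ρ (by rw [hLs]; exact List.mem_append_left _ hρ))
  -- the state after the release
  obtain ⟨s₄, hs₄⟩ : ∃ s₄, s₄ = rst s (rst s₁ s₃ X₃) X₃ := ⟨_, rfl⟩
  rw [← hs₄] at l2
  have hY₄ : s₄.Y = s.Y \ X₃ := l2.play.hY
  have ha₄ : s₄.a = s₃.a := by rw [hs₄]; rfl
  have ht₄ : s₄.t = s₃.t := by rw [hs₄]; rfl
  have hΩ₄ : s₄.Ω = s₃.Ω := by rw [hs₄]; rfl
  obtain ⟨V, hV, hm3⟩ := j2.m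
  have hbad : (s₄.Y.filter fun x => x ∈ s₄.Ω ∨ s₄.t x = s₄.a x).card ≤ K' + 2 * u + 2 * l := by
    rw [ha₄, ht₄, hΩ₄]
    have h4 : (s₄.Y.filter fun x => x ∈ s₃.Ω ∨ s₃.t x = s₃.a x) ⊆
        (Ex s₃.Y (fun i => Ls.get i) ω
          ((k : ℝ) / (k + 1) * ((k : ℝ) / (k + 1) * (k / (k + 1)))) ∪ V) ∪ (X ∪ X₂) := by
      intro x hx
      rw [mem_filter] at hx
      obtain ⟨h5, h6⟩ := hx
      rw [hY₄, mem_sdiff] at h5
      by_cases hxX : x ∈ X ∪ X₂
      · exact mem_union_right _ hxX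
      · refine mem_union_left _ (hm3 x ?_ h6)
        rw [mem_union, not_or] at hxX
        rw [j1.play.hY, i1.play.hY, h1.play.hY, mem_sdiff, mem_sdiff, mem_sdiff]
        exact ⟨⟨⟨h5.1, hxX.1⟩, hxX.2⟩, h5.2⟩
    have h5 := card_le_card h4
    have h6 := card_union_le (Ex s₃.Y (fun i => Ls.get i) ω
          ((k : ℝ) / (k + 1) * ((k : ℝ) / (k + 1) * (k / (k + 1)))) ∪ V) (X ∪ X₂)
    have h7 := card_union_le (Ex s₃.Y (fun i => Ls.get i) ω
          ((k : ℝ) / (k + 1) * ((k : ℝ) / (k + 1) * (k / (k + 1))))) V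
    have h8 := card_union_le X X₂
    have h9 := Ex_card3 (K' := K') (Y := s₃.Y) (R := fun i => Ls.get i) (ω := ω) (K := K) hk hω
      (fun i => by
        refine le_trans (card_le_card (sdiff_subset_sdiff ?_ (Subset.refl _)))
          (hR _ (List.get_mem Ls i))
        rw [j1.play.hY]
        exact sdiff_subset) hK'
    omega
  have e4 := card_le_add hY₄
  have f4 := l2.cX
  have k4 : s₄.Y.card ≤ s.Y.card := by rw [hY₄]; exact card_le_card sdiff_subset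
  obtain ⟨ρ₅, q₅, X₅, s₅, o1, o2⟩ := refresh (r := r) (B := B) (N := N) hA hB1 hB2
    (lpst r h (clr X s₁.a ρ₀ :: (p.map (clr X s₁.a) ++ clr X₂ s₂.a ρ₁ ::
      (q.map (clr X₂ s₂.a) ++ ρ₂ :: q'))))
    (fun x hx => l2.play.toff x hx) hbad (by omega) (by omega)
  have o3 := seg_nested hB3 (l2.mono (κ' := K' + 3 * u + r + 2 * l) (by omega)
    le_rfl le_rfl) (o1.mono (κ' := K' + 3 * u + r + 2 * l) (by omega) le_rfl le_rfl)
  refine ⟨_, _, _, s₅, o3.mono le_rfl (by omega) (by omega), o2, ?_⟩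
  rw [seg_len, seg_len]
  have : 2 ^ (j + 1) = 2 ^ j + 2 ^ j := by ring
  rw [seg_len]
  omega

end Pool.Agent.J4.H16.LA
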