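import Pool.Agent.J4.H16.LA.Weight
set_option autoImplicit false

/-!
# Lookahead: the wiping phase
-/

namespace Pool.Agent.J4.H16.LA

open Finset
open Pool.Agent.TH70.AR hiding flip flip_flip

variable {n : ℕ} {ι : Type} [Fintype ι]

/-- the state in a wiping phase: few directions are bad -/
structure PInv (k u : ℕ) (R : ι → LR n) (ω : ι → ℝ) (s : St n) : Prop where
  toff : ∀ x, x ∉ s.Y → s.t x = s.a x
  o : ∃ V : Finset (Fin n), V.card ≤ u ∧ ∀ x ∈ s.Y, x ∈ s.Ω → s.t x ≠ s.a x →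
    x ∈ Ex s.Y R ω ((k : ℝ) / (k + 1) * (k / (k + 1))) ∪ V
  m : ∃ V : Finset (Fin n), V.card ≤ 2 * u ∧ ∀ x ∈ s.Y, (x ∈ s.Ω ∨ s.t x = s.a x) →
    x ∈ Ex s.Y R ω ((k : ℝ) / (k + 1) * ((k : ℝ) / (k + 1) * (k / (k + 1)))) ∪ V

/-- the new target, `N` are the directions which are not improving any more -/
def tgt (s : St n) (N : Finset (Fin n)) : Fin n → Bool :=
  fun x => if x ∈ s.Y ∧ x ∉ N then !s.a x else s.a x

lemma tgt_off {s : St n} {N : Finset (Fin n)} {x : Fin n} (hx : x ∉ s.Y) :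
    tgt s N x = s.a x := if_neg fun h => hx h.1

lemma tgt_mem {s : St n} {N : Finset (Fin n)} {x : Fin n} (hx : x ∈ N) :
    tgt s N x = s.a x := if_neg fun h => h.2 hx

lemma tgt_not {s : St n} {N : Finset (Fin n)} {x : Fin n} (hx : x ∈ s.Y) (hN : x ∉ N) :
    tgt s N x = !s.a x := if_pos ⟨hx, hN⟩

lemma not_eq_of_ne {a b : Bool} (h : a ≠ b) : (!b) = a := by
  cases a <;> cases b <;> simp_all

lemma mem_good_tgt {s : St n} {N : Finset (Fin n)} {x : Fin n} :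
    x ∈ good s (tgt s N) ↔ x ∈ s.Y ∧ x ∉ s.Ω ∧ s.t x ≠ s.a x ∧ x ∉ N := by
  unfold good
  rw [mem_filter]
  constructor
  · rintro ⟨h1, h2, h3, h4⟩
    refine ⟨h1, h2, h3, fun h5 => h3 ?_⟩
    rw [← h4, tgt_mem h5]
  · rintro ⟨h1, h2, h3, h4⟩
    exact ⟨h1, h2, h3, by rw [tgt_not h1 h4]; exact not_eq_of_ne h3⟩

/-- few directions are not useful -/
lemma good_card {k u K K' : ℕ} {R : ι → LR n} {ω : ι → ℝ} {s : St n} (hk : 1 ≤ k)
    (hω : ∀ j, 0 ≤ ω j) (hI : PInv k u R ω s) (hK : ∀ j, (s.Y \ (R j).W).card ≤ K)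
    (hK' : K * (k + 1) ^ 3 ≤ K' * k ^ 3) {V : Finset (Fin n)} (hV : V.card ≤ u) :
    (s.Y \ good s (tgt s (Ex s.Y R ω ((k : ℝ) / (k + 1)) ∪ V))).card ≤ K' + 3 * u := by
  obtain ⟨V', hV', hm⟩ := hI.m
  have hkr : (0 : ℝ) < k := by exact_mod_cast hk
  have hδ := delta_le_one k
  have hδ0 : (0 : ℝ) < (k : ℝ) / (k + 1) := by positivity
  set κ₃ : ℝ := (k : ℝ) / (k + 1) * ((k : ℝ) / (k + 1) * (k / (k + 1))) with hκ₃
  have h31 : κ₃ ≤ (k : ℝ) / (k + 1) := by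
    rw [hκ₃]
    have h1 : (k : ℝ) / (k + 1) * (k / (k + 1)) ≤ 1 := by nlinarith
    nlinarith
  have hκ₃0 : 0 < κ₃ := by rw [hκ₃]; positivity
  have h1 : s.Y \ good s (tgt s (Ex s.Y R ω ((k : ℝ) / (k + 1)) ∪ V)) ⊆
      Ex s.Y R ω κ₃ ∪ (V' ∪ V) := by
    intro x hx
    rw [mem_sdiff, mem_good_tgt] at hx
    obtain ⟨hxY, hx⟩ := hx
    by_cases hxm : x ∈ s.Ω ∨ s.t x = s.a x
    · have := hm x hxY hxm
      rw [mem_union] at this
      rcases this with h | h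
      · exact mem_union_left _ h
      · exact mem_union_right _ (mem_union_left _ h)
    · rw [not_or] at hxm
      have h2 : x ∈ Ex s.Y R ω ((k : ℝ) / (k + 1)) ∪ V := by
        by_contra h
        exact hx ⟨hxY, hxm.1, hxm.2, h⟩
      rcases mem_union.1 h2 with h | h
      · exact mem_union_left _ (Ex_mono hω h31 h)
      · exact mem_union_right _ (mem_union_right _ h)
  have h2 : (Ex s.Y R ω κ₃).card ≤ K' := by
    have h3 := Ex_card (κ := κ₃) hω hK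
    have h4 : (K : ℝ) ≤ K' * κ₃ := by
      have h5 : ((K * (k + 1) ^ 3 : ℕ) : ℝ) ≤ ((K' * k ^ 3 : ℕ) : ℝ) := by exact_mod_cast hK'
      push_cast at h5
      rw [hκ₃]
      have h6 : (K' : ℝ) * ((k : ℝ) / (k + 1) * ((k : ℝ) / (k + 1) * (k / (k + 1)))) =
          K' * (k : ℝ) ^ 3 / (k + 1) ^ 3 := by field_simp
      rw [h6, le_div_iff₀ (by positivity)]
      exact h5
    have h5 : ((Ex s.Y R ω κ₃).card : ℝ) ≤ K' := le_of_mul_le_mul_right (h3.trans h4) hκ₃0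
    exact_mod_cast h5
  have h3 := card_union_le (Ex s.Y R ω κ₃) (V' ∪ V)
  have h4 := card_union_le V' V
  have h5 := card_le_card h1
  omega

/-- the invariant after a batch -/
lemma inv_batch {k u : ℕ} {R : ι → LR n} {ω ω' : ι → ℝ} {s : St n} {b : Fin n → Bool}
    {X V Z : Finset (Fin n)} (hk : 1 ≤ k) (hω : ∀ j, 0 ≤ ω j) (hI : PInv k u R ω s)
    (h1 : ∀ j, ω' j ≤ ω j)
    (h2 : ∀ j, (k : ℝ) / (k + 1) * ω j ≤ ω' j) (hV : V.card ≤ u)
    (hX : X = ((good s (tgt s (Ex s.Y R ω ((k : ℝ) / (k + 1)) ∪ V))).filter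
      fun x => b x ≠ s.a x) ∪ Z)
    (hZ : ∀ x ∈ Z, x ∈ s.Y ∧ s.t x = s.a x ∧
      tgt s (Ex s.Y R ω ((k : ℝ) / (k + 1)) ∪ V) x = s.a x)
    (hb : ∀ x, b x = s.a x ∨ b x = s.t x) :
    PInv k u R ω' (bst s (tgt s (Ex s.Y R ω ((k : ℝ) / (k + 1)) ∪ V)) b X) := by
  obtain ⟨V', hV', ho⟩ := hI.o
  have hkr : (0 : ℝ) < k := by exact_mod_cast hk
  have hδ0 : (0 : ℝ) < (k : ℝ) / (k + 1) := by positivity
  obtain ⟨N, hN⟩ : ∃ N, N = Ex s.Y R ω ((k : ℝ) / (k + 1)) ∪ V := ⟨_, rfl⟩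
  rw [← hN] at hX hZ ⊢
  have hδ := delta_le_one k
  have hω' : ∀ j, 0 ≤ ω' j := fun j => (mul_nonneg hδ0.le (hω j)).trans (h2 j)
  -- flipped directions that are not frozen
  have hflip : ∀ x, x ∈ s.Y \ X → b x ≠ s.a x → b x = s.t x ∧ s.t x ≠ s.a x ∧
      ((x ∈ s.Ω) ∨ x ∈ N) := by
    intro x hx hbx
    have h3 : b x = s.t x := (hb x).resolve_left hbx
    have h4 : s.t x ≠ s.a x := by rw [← h3]; exact hbx
    refine ⟨h3, h4, ?_⟩
    by_contra hne
    rw [not_or] at hne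
    refine (mem_sdiff.1 hx).2 ?_
    rw [hX, mem_union, mem_filter, mem_good_tgt]
    exact Or.inl ⟨⟨(mem_sdiff.1 hx).1, hne.1, h4, hne.2⟩, hbx⟩
  refine ⟨?_, ⟨V, hV, ?_⟩, ⟨V ∪ V', ?_, ?_⟩⟩
  · -- toff
    intro x hx
    change tgt s N x = b x
    change x ∉ s.Y \ X at hx
    by_cases hxX : x ∈ X
    · rw [hX, mem_union, mem_filter, mem_good_tgt] at hxX
      rcases hxX with h | h
      · rw [tgt_not h.1.1 h.1.2.2.2]
        exact not_eq_of_ne h.2
      · rw [(hZ x h).2.2]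
        rcases hb x with h3 | h3
        · exact h3.symm
        · rw [h3, (hZ x h).2.1]
    · have hxY : x ∉ s.Y := fun h => hx (mem_sdiff.2 ⟨h, hxX⟩)
      rw [tgt_off hxY]
      rcases hb x with h3 | h3
      · exact h3.symm
      · rw [h3, hI.toff x hxY]
  · -- o
    intro x hxY hxΩ hxt
    change x ∈ s.Y \ X at hxY
    change x ∈ (s.Y \ X).filter (fun x => b x ≠ s.a x) at hxΩ
    change tgt s N x ≠ b x at hxt
    rw [mem_filter] at hxΩ
    obtain ⟨h3, h4, -⟩ := hflip x hxY hxΩ.2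
    have h5 : x ∈ N := by
      by_contra h
      apply hxt
      rw [tgt_not (mem_sdiff.1 hxY).1 h, h3]
      exact not_eq_of_ne h4
    rw [hN, mem_union] at h5
    rcases h5 with h5 | h5
    · exact mem_union_left _ (Ex_trans hδ0.le hδ0 h1 h2 h5 hxY)
    · exact mem_union_right _ h5
  · have := card_union_le V V'
    omega
  · -- m
    intro x hxY hxm
    change x ∈ s.Y \ X at hxY
    change x ∈ (s.Y \ X).filter (fun x => b x ≠ s.a x) ∨ tgt s N x = b x at hxm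
    have hδ2 : (0 : ℝ) ≤ (k : ℝ) / (k + 1) * (k / (k + 1)) := by positivity
    have key : x ∈ N ∨ (x ∈ s.Ω ∧ s.t x ≠ s.a x) := by
      by_cases hbx : b x = s.a x
      · left
        rcases hxm with h | h
        · exact absurd hbx (mem_filter.1 h).2
        · by_contra h'
          rw [tgt_not (mem_sdiff.1 hxY).1 h', hbx] at h
          simp at h
      · obtain ⟨h3, h4, h5⟩ := hflip x hxY hbx
        rcases h5 with h5 | h5
        · exact Or.inr ⟨h5, h4⟩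
        · exact Or.inl h5
    have h32 : (k : ℝ) / (k + 1) * ((k : ℝ) / (k + 1) * (k / (k + 1))) ≤
        (k : ℝ) / (k + 1) * (k / (k + 1)) := by nlinarith
    rcases key with h | ⟨h3, h4⟩
    · rw [hN, mem_union] at h
      rcases h with h | h
      · refine mem_union_left _ (Ex_mono hω' h32 ?_)
        exact Ex_trans hδ0.le hδ0 h1 h2 h hxY
      · exact mem_union_right _ (mem_union_left _ h)
    · have h5 := ho x (mem_sdiff.1 hxY).1 h3 h4
      rcases mem_union.1 h5 with h5 | h5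
      · exact mem_union_left _ (Ex_trans hδ2 hδ0 h1 h2 h5 hxY)
      · exact mem_union_right _ (mem_union_right _ h5)

end Pool.Agent.J4.H16.LA
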