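import Pool.Agent.J4.H16.LA.Base
set_option autoImplicit false

/-!
# Lookahead: plays and their extension to objective functions
-/

namespace Pool.Agent.J4.H16.LA

open Finset
open Pool.Agent.TH70.AR hiding flip flip_flip

variable {n : ℕ}

/-- A visited vertex `w`, the directions `W` that wipe it, and the data `D` (value and improving
directions) which are prescribed at the vertices of `Q`. -/
structure LR (n : ℕ) where
  w : Fin n → Bool
  W : Finset (Fin n)
  D : (Fin n → Bool) → ℕ × Finset (Fin n)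
  Q : Finset (Fin n → Bool)

/-- the number of directions of `A` which wipe the record -/
def wc (A : Finset (Fin n)) (v : Fin n → Bool) (ρ : LR n) : ℕ := cnt (A ∩ ρ.W) ρ.w v

/-- closing a record: the coordinates of `X` have been frozen at the values of `b` -/
def clr (X : Finset (Fin n)) (b : Fin n → Bool) (ρ : LR n) : LR n :=
  ⟨ρ.w, ρ.W.filter fun x => ¬ (x ∈ X ∧ b x = ρ.w x), ρ.D, ρ.Q⟩

/-- A state: the free directions, the current vertex, the present target, the wasted directions and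
the number of the present region. -/
structure St (n : ℕ) where
  Y : Finset (Fin n)
  a : Fin n → Bool
  t : Fin n → Bool
  Ω : Finset (Fin n)
  J : ℕ

/-- the vertices of the present face that may have been seen -/
def zone (r : ℕ) (s : St n) : Finset (Fin n → Bool) :=
  univ.filter fun u => (∀ x, x ∉ s.Y → u x = s.a x) ∧ cnt (s.Y \ s.Ω) s.a u ≤ r

/-- the data there -/
def zd (B : ℕ) (s : St n) (u : Fin n → Bool) : ℕ × Finset (Fin n) :=
  (s.J * B + agr u s.t, univ.filter fun x => u x ≠ s.t x)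

/-- `f` solves the play -/
structure Sol (r B H : ℕ) (s : St n) (ρ₀ : LR n) (p : List (LR n)) (X : Finset (Fin n))
    (s' : St n) (v : Fin n → Bool) (𝓐 : Finset (Finset (Fin n))) (f : (Fin n → Bool) → ℕ) :
    Prop where
  aof : AOF f
  val : ∀ ρ ∈ ρ₀ :: p, ∀ u ∈ ρ.Q, f u = (ρ.D u).1
  imp : ∀ ρ ∈ ρ₀ :: p, ∀ u ∈ ρ.Q, ∀ i ∈ s.Y, (f u < f (TH70.AR.flip u i) ↔ i ∈ (ρ.D u).2)
  hypX : Hyp f X s'.a
  hyp : ∀ A ∈ 𝓐, Hyp f A v
  lt : ∀ y, f y < s'.J * B + H
  exit : ∀ y, On X s'.a y → s'.J * B + agr y s'.t < f y →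
    ∃ A ∈ 𝓐, ∀ x ∈ A, v x = s'.t x → y x = v x
  le : ∀ y, s.J * B + agr y s.t ≤ f y
  far : ∀ y, r < cnt ρ₀.W s.a y → (s.J + 1) * B ≤ f y

/-- A play from the state `s` to the state `s'`; the directions `X` are frozen. -/
structure Play (r B H : ℕ) (s : St n) (ρ₀ : LR n) (p : List (LR n)) (X : Finset (Fin n))
    (s' : St n) : Prop where
  hY : s'.Y = s.Y \ X
  XY : X ⊆ s.Y
  off : ∀ x, x ∉ s.Y → s'.a x = s.a x
  toff : ∀ x, x ∉ s'.Y → s'.t x = s'.a x
  hJ : s.J + 1 ≤ s'.J
  QY : ∀ ρ ∈ ρ₀ :: p, ∀ u ∈ ρ.Q, ∀ x, x ∉ s.Y → u x = s.a x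
  DY : ∀ ρ ∈ ρ₀ :: p, ∀ u ∈ ρ.Q, (ρ.D u).2 ⊆ s.Y
  WY : ∀ ρ ∈ ρ₀ :: p, ρ.W ⊆ s.Y
  cov : ∀ ρ ∈ ρ₀ :: p, ∀ u ∈ ρ.Q, cnt ρ.W ρ.w u ≤ r
  exit : ∀ ρ ∈ ρ₀ :: p, ∀ u ∈ ρ.Q, On X s'.a u → u ∈ zone r s' ∧ ρ.D u = zd B s' u
  w₀ : ρ₀.w = s.a
  W₀ : ∀ x ∈ ρ₀.W, s.t x ≠ s.a x
  entry : ∀ u ∈ zone r s, u ∈ ρ₀.Q ∧ ρ₀.D u = zd B s u
  start : r < wc X s'.a ρ₀
  ext : ∀ (v : Fin n → Bool) (𝓐 : Finset (Finset (Fin n))), (∀ x ∈ X, v x = s'.a x) →
    (∀ A ∈ 𝓐, ∀ ρ ∈ ρ₀ :: p, r < wc A v ρ) → ∃ f, Sol r B H s ρ₀ p X s' v 𝓐 f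

/-- the data of a batch -/
def bdat (r B : ℕ) (s : St n) (G : Finset (Fin n)) (t' u : Fin n → Bool) : ℕ × Finset (Fin n) :=
  (two r B s.J G s.a s.t t' u,
    univ.filter fun x => if r < cnt G s.a u then u x ≠ t' x else u x ≠ s.t x)

/-- the record of a batch at `w` -/
def brec (r B : ℕ) (s : St n) (G : Finset (Fin n)) (t' w : Fin n → Bool) : LR n :=
  ⟨w, G.filter fun x => w x = s.a x, bdat r B s G t',
    univ.filter fun u => (∀ x, x ∉ s.Y → u x = s.a x) ∧
      (cnt (s.Y \ s.Ω) s.a u ≤ r ∨ cnt univ w u ≤ r)⟩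

/-- the useful directions of a batch -/
def good (s : St n) (t' : Fin n → Bool) : Finset (Fin n) :=
  s.Y.filter fun x => x ∉ s.Ω ∧ s.t x ≠ s.a x ∧ t' x = s.t x

/-- the state after a batch -/
def bst (s : St n) (t' b : Fin n → Bool) (X : Finset (Fin n)) : St n :=
  ⟨s.Y \ X, b, t', (s.Y \ X).filter fun x => b x ≠ s.a x, s.J + 1⟩

/-- **A batch is a play.** -/
lemma batch_play {r B : ℕ} {s : St n} {t' b : Fin n → Bool} {Z : Finset (Fin n)}
    {ws : List (Fin n → Bool)} (hB : n < B) (ht : ∀ x, x ∉ s.Y → s.t x = s.a x)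
    (ht' : ∀ x, x ∉ s.Y → t' x = s.a x) (hb : ∀ x, b x = s.a x ∨ b x = s.t x)
    (hbc : cnt (good s t') s.a b = r + 1)
    (hZ : ∀ x ∈ Z, x ∈ s.Y ∧ s.t x = s.a x ∧ t' x = s.a x)
    (hws : ∀ w ∈ s.a :: ws, cnt (good s t') s.a w ≤ r ∧
      ∀ x, w x = s.a x ∨ (w x = s.t x ∧ b x = s.t x)) :
    Play r B (2 * n + 2) s (brec r B s (good s t') t' s.a) (ws.map (brec r B s (good s t') t'))
      (((good s t').filter fun x => b x ≠ s.a x) ∪ Z)
      (bst s t' b (((good s t').filter fun x => b x ≠ s.a x) ∪ Z)) := by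
  classical
  obtain ⟨G, hGd⟩ : ∃ G, G = good s t' := ⟨_, rfl⟩
  rw [← hGd] at hbc hws ⊢
  have hGm : ∀ x, x ∈ G ↔ x ∈ s.Y ∧ x ∉ s.Ω ∧ s.t x ≠ s.a x ∧ t' x = s.t x := by
    intro x; rw [hGd, good, mem_filter]
  have hG : ∀ x ∈ G, s.t x ≠ s.a x := fun x hx => ((hGm x).1 hx).2.2.1
  have hG' : ∀ x ∈ G, t' x = s.t x := fun x hx => ((hGm x).1 hx).2.2.2
  have hGY : G ⊆ s.Y := fun x hx => ((hGm x).1 hx).1
  have hGΩ : G ⊆ s.Y \ s.Ω := fun x hx =>
    mem_sdiff.2 ⟨((hGm x).1 hx).1, ((hGm x).1 hx).2.1⟩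
  obtain ⟨X, hXd⟩ : ∃ X, X = (G.filter fun x => b x ≠ s.a x) ∪ Z := ⟨_, rfl⟩
  rw [← hXd]
  have hXm : ∀ x, x ∈ X ↔ (x ∈ G ∧ b x ≠ s.a x) ∨ x ∈ Z := by
    intro x; rw [hXd, mem_union, mem_filter]
  have hXY : X ⊆ s.Y := by
    intro x hx
    rcases (hXm x).1 hx with h | h
    · exact hGY h.1
    · exact (hZ x h).1
  have hXt : ∀ x ∈ X, t' x = b x := by
    intro x hx
    rcases (hXm x).1 hx with h | h
    · rw [hG' x h.1]
      rcases hb x with h1 | h1
      · exact absurd h1 h.2
      · exact h1.symm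
    · have h1 := hZ x h
      rw [h1.2.2]
      rcases hb x with h2 | h2
      · exact h2.symm
      · rw [h2, h1.2.1]
  have hboff : ∀ x, x ∉ s.Y → b x = s.a x := by
    intro x hx
    rcases hb x with h | h
    · exact h
    · rw [h, ht x hx]
  -- vertices of the exit face are far
  have hfar : ∀ u, On X b u → r < cnt G s.a u := by
    intro u hu
    have h1 : cnt G s.a b ≤ cnt G s.a u := by
      apply card_le_card
      intro x hx
      rw [mem_filter] at hx ⊢
      refine ⟨hx.1, ?_⟩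
      rw [hu x ((hXm x).2 (Or.inl hx))]
      exact hx.2
    omega
  -- the records
  have hrec : ∀ ρ ∈ brec r B s G t' s.a :: ws.map (brec r B s G t'),
      ∃ w, ρ = brec r B s G t' w ∧ cnt G s.a w ≤ r ∧
        ∀ x, w x = s.a x ∨ (w x = s.t x ∧ b x = s.t x) := by
    intro ρ hρ
    have h1 : ρ ∈ (s.a :: ws).map (brec r B s G t') := hρ
    obtain ⟨w, hw, rfl⟩ := List.mem_map.1 h1
    exact ⟨w, rfl, hws w hw⟩
  have hQ : ∀ w u, u ∈ (brec r B s G t' w).Q ↔ (∀ x, x ∉ s.Y → u x = s.a x) ∧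
      (cnt (s.Y \ s.Ω) s.a u ≤ r ∨ cnt univ w u ≤ r) := by
    intro w u
    simp only [brec, mem_filter, mem_univ, true_and]
  have hcov : ∀ ρ ∈ brec r B s G t' s.a :: ws.map (brec r B s G t'), ∀ u ∈ ρ.Q,
      cnt ρ.W ρ.w u ≤ r := by
    intro ρ hρ u hu
    obtain ⟨w, rfl, hw⟩ := hrec ρ hρ
    rw [hQ] at hu
    change cnt (G.filter fun x => w x = s.a x) w u ≤ r
    rcases hu.2 with h | h
    · refine le_trans (card_le_card ?_) h
      intro x hx
      rw [mem_filter, mem_filter] at hx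
      rw [mem_filter, ← hx.1.2]
      exact ⟨hGΩ hx.1.1, hx.2⟩
    · exact le_trans (cnt_mono (subset_univ _) _ _) h
  have h3 : (s.J + 1) * B = s.J * B + B := by ring
  refine ⟨rfl, hXY, hboff, ?_, le_refl _, ?_, ?_, ?_, hcov, ?_, rfl, ?_, ?_, ?_, ?_⟩
  · -- toff
    intro x hx
    change t' x = b x
    by_cases hxX : x ∈ X
    · exact hXt x hxX
    · have hxY : x ∉ s.Y := fun h => hx (mem_sdiff.2 ⟨h, hxX⟩)
      rw [ht' x hxY, hboff x hxY]
  · -- QY
    intro ρ hρ u hu
    obtain ⟨w, rfl, hw⟩ := hrec ρ hρ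
    exact ((hQ w u).1 hu).1
  · -- DY
    intro ρ hρ u hu x hx
    obtain ⟨w, rfl, hw⟩ := hrec ρ hρ
    by_contra hxY
    have h1 := ((hQ w u).1 hu).1 x hxY
    change x ∈ (bdat r B s G t' u).2 at hx
    rw [bdat, mem_filter, h1, ht x hxY, ht' x hxY] at hx
    simp at hx
  · -- WY
    intro ρ hρ
    obtain ⟨w, rfl, hw⟩ := hrec ρ hρ
    exact (filter_subset _ _).trans hGY
  · -- exit
    intro ρ hρ u hu hX
    obtain ⟨w, rfl, hw1, hw2⟩ := hrec ρ hρ
    have h1 := (hQ w u).1 hu
    have h2 := hfar u hX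
    constructor
    · rw [zone, mem_filter]
      refine ⟨mem_univ _, ?_, ?_⟩
      · intro x hx
        change u x = b x
        by_cases hxX : x ∈ X
        · exact hX x hxX
        · have hxY : x ∉ s.Y := fun h => hx (mem_sdiff.2 ⟨h, hxX⟩)
          rw [h1.1 x hxY, hboff x hxY]
      · rcases h1.2 with h | h
        · have := cnt_mono hGΩ s.a u
          omega
        · refine le_trans (card_le_card ?_) h
          intro x hx
          rw [mem_filter, mem_sdiff] at hx
          rw [mem_filter]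
          refine ⟨mem_univ _, ?_⟩
          obtain ⟨⟨h4, h5⟩, h6⟩ := hx
          change x ∉ (s.Y \ X).filter (fun x => b x ≠ s.a x) at h5
          change u x ≠ b x at h6
          rw [mem_filter, not_and, not_not] at h5
          have h7 := h5 h4
          rcases hw2 x with h8 | h8
          · rw [h8, ← h7]; exact h6
          · rw [h8.1, ← h8.2]; exact h6
    · change bdat r B s G t' u = zd B (bst s t' b X) u
      rw [bdat, two_pos h2]
      simp only [if_pos h2]
      rfl
  · -- W₀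
    intro x hx
    exact hG x (filter_subset _ _ hx)
  · -- entry
    intro u hu
    rw [zone, mem_filter] at hu
    refine ⟨(hQ _ _).2 ⟨hu.2.1, Or.inl hu.2.2⟩, ?_⟩
    have h2 : ¬ r < cnt G s.a u := by
      have := cnt_mono hGΩ s.a u
      omega
    change bdat r B s G t' u = zd B s u
    rw [bdat, two_neg h2]
    simp only [if_neg h2]
    rfl
  · -- start
    change r < cnt (X ∩ G.filter fun x => s.a x = s.a x) s.a b
    have h1 : cnt G s.a b ≤ cnt (X ∩ G.filter fun x => s.a x = s.a x) s.a b := by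
      apply card_le_card
      intro x hx
      rw [mem_filter] at hx
      rw [mem_filter, mem_inter, mem_filter]
      exact ⟨⟨(hXm x).2 (Or.inl hx), hx.1, rfl⟩, hx.2⟩
    omega
  · -- ext
    intro v 𝓐 hv h𝓐
    change ∀ x ∈ X, v x = b x at hv
    set g := two r B s.J G s.a s.t t' with hg
    set P : (Fin n → Bool) → Prop := fun u => ∃ A ∈ 𝓐, ∀ x ∈ A, v x = t' x → u x = v x with hP
    have hgA : AOF g := aof_two hB hG hG'
    -- a useful direction of `A` is in its consistent part
    have hcons : ∀ x ∈ G, v x ≠ s.a x → v x = t' x := by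
      intro x hx h
      rw [hG' x hx]
      exact bool_eq_of_ne h (hG x hx)
    have hPfar : ∀ u, P u → r < cnt G s.a u := by
      rintro u ⟨A, hA, hu⟩
      refine lt_of_lt_of_le (h𝓐 A hA _ List.mem_cons_self) (card_le_card ?_)
      intro x hx
      rw [mem_filter, mem_inter] at hx
      obtain ⟨⟨h1, h2⟩, h4⟩ := hx
      have hxG : x ∈ G := filter_subset _ _ h2
      change v x ≠ s.a x at h4
      rw [mem_filter]
      refine ⟨hxG, ?_⟩
      rw [hu x h1 (hcons x hxG h4)]
      exact h4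
    have hPrec : ∀ ρ ∈ brec r B s G t' s.a :: ws.map (brec r B s G t'), ∀ u ∈ ρ.Q, ¬ P u := by
      rintro ρ hρ u hu ⟨A, hA, hPu⟩
      have h1 := h𝓐 A hA ρ hρ
      have h2 := hcov ρ hρ u hu
      obtain ⟨w, rfl, hw⟩ := hrec ρ hρ
      have h4 : wc A v (brec r B s G t' w) ≤
          cnt (brec r B s G t' w).W (brec r B s G t' w).w u := by
        apply card_le_card
        intro x hx
        rw [mem_filter, mem_inter] at hx
        obtain ⟨⟨h5, h6⟩, h7⟩ := hx
        rw [mem_filter]
        refine ⟨h6, ?_⟩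
        change x ∈ G.filter (fun x => w x = s.a x) at h6
        rw [mem_filter] at h6
        change v x ≠ w x at h7
        change u x ≠ w x
        rw [hPu x h5 (hcons x h6.1 (by rw [← h6.2]; exact h7))]
        exact h7
      omega
    have hup : ∀ u i, P u → u i ≠ v i → P (TH70.AR.flip u i) := by
      rintro u i ⟨A, hA, hu⟩ hi
      refine ⟨A, hA, fun x hx hxt => ?_⟩
      by_cases hxi : x = i
      · subst hxi; exact absurd (hu x hx hxt) hi
      · rw [flip_of_ne _ hxi]; exact hu x hx hxt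
    have hPA : AOF (raise P ((s.J + 1) * B + (n + 1)) v g) := by
      apply aof_raise hgA (fun u => two_lt u) hup
      rintro u ⟨A, hA, hu⟩
      refine ⟨A.filter fun x => v x = t' x, ?_, ?_, ?_⟩
      · intro z hz x hx
        have hPz : P z := ⟨A, hA, fun y hy hyt => hz y (mem_filter.2 ⟨hy, hyt⟩)⟩
        have h4 := two_improving (r := r) (J := s.J) hB hG hG' z x
        rw [if_pos (hPfar z hPz), hz x hx, ← (mem_filter.1 hx).2] at h4
        have h5 := hgA.ne z x
        have h6 : ¬ g z < g (TH70.AR.flip z x) := by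
          rw [hg, h4]
          simp
        omega
      · intro x hx
        exact hu x (mem_filter.1 hx).1 (mem_filter.1 hx).2
      · intro z hz
        exact ⟨A, hA, fun y hy hyt => hz y (mem_filter.2 ⟨hy, hyt⟩)⟩
    have hlt : ∀ u, g u < (s.J + 1) * B + (n + 1) := fun u => two_lt u
    refine ⟨_, hPA, ?_, ?_, ?_, ?_, ?_, ?_, ?_, ?_⟩
    · -- val
      intro ρ hρ u hu
      rw [raise_neg (hPrec ρ hρ u hu)]
      obtain ⟨w, rfl, hw⟩ := hrec ρ hρ
      rfl
    · -- imp
      intro ρ hρ u hu i hi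
      have hPu := hPrec ρ hρ u hu
      obtain ⟨w, rfl, hw⟩ := hrec ρ hρ
      have h4 := two_improving (r := r) (J := s.J) hB hG hG' u i
      have h5 : i ∈ ((brec r B s G t' w).D u).2 ↔
          (if r < cnt G s.a u then u i ≠ t' i else u i ≠ s.t i) := by
        simp only [brec, bdat, mem_filter, mem_univ, true_and]
      rw [h5, raise_neg hPu]
      by_cases hPf : P (TH70.AR.flip u i)
      · rw [raise_pos hPf]
        have h6 := hlt u
        refine iff_of_true (by omega) ?_
        obtain ⟨A, hA, hAu⟩ := hPf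
        have h7 : i ∈ A ∧ v i = t' i ∧ u i ≠ v i := by
          by_contra h8
          apply hPu
          refine ⟨A, hA, fun x hx hxt => ?_⟩
          by_cases hxi : x = i
          · subst hxi
            by_contra h9
            exact h8 ⟨hx, hxt, h9⟩
          · rw [← hAu x hx hxt, flip_of_ne _ hxi]
        by_cases hu2 : r < cnt G s.a u
        · rw [if_pos hu2, ← h7.2.1]
          exact h7.2.2
        · rw [if_neg hu2]
          have h8 := hPfar _ ⟨A, hA, hAu⟩
          by_cases hiG : i ∈ G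
          · rw [← hG' i hiG, ← h7.2.1]
            exact h7.2.2
          · rw [cnt_flip_of_not_mem hiG] at h8
            exact absurd h8 hu2
      · rw [raise_neg hPf]
        exact h4
    · -- hypX
      intro u hu i hi
      change On X b u at hu
      have hPfP : P (TH70.AR.flip u i) → P u := by
        rintro ⟨A, hA, hAu⟩
        refine ⟨A, hA, fun x hx hxt => ?_⟩
        by_cases hxi : x = i
        · subst hxi
          rw [hu x hi, hv x hi]
        · rw [← hAu x hx hxt, flip_of_ne _ hxi]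
      by_cases hPu : P u
      · rw [raise_pos hPu]
        by_cases hPf : P (TH70.AR.flip u i)
        · rw [raise_pos hPf]
          have := agr_flip_lt (u := u) (v := v) (i := i) (by rw [hu i hi, hv i hi])
          omega
        · rw [raise_neg hPf]
          have := hlt (TH70.AR.flip u i)
          omega
      · rw [raise_neg hPu, raise_neg fun h => hPu (hPfP h)]
        have h4 := two_improving (r := r) (J := s.J) hB hG hG' u i
        rw [if_pos (hfar u hu), hu i hi, ← hXt i hi] at h4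
        have h5 := hgA.ne u i
        have h6 : ¬ g u < g (TH70.AR.flip u i) := by
          rw [hg, h4]
          simp
        omega
    · -- hyp
      intro A hA u hu i hi
      have hPu : P u := ⟨A, hA, fun x hx _ => hu x hx⟩
      rw [raise_pos hPu]
      by_cases hPf : P (TH70.AR.flip u i)
      · rw [raise_pos hPf]
        have := agr_flip_lt (hu i hi)
        omega
      · rw [raise_neg hPf]
        have := hlt (TH70.AR.flip u i)
        omega
    · -- lt
      intro y
      change raise P ((s.J + 1) * B + (n + 1)) v g y < (s.J + 1) * B + (2 * n + 2)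
      by_cases hPy : P y
      · rw [raise_pos hPy]
        have := agr_le y v
        omega
      · rw [raise_neg hPy]
        have := hlt y
        omega
    · -- exit
      intro y hy h
      change On X b y at hy
      change (s.J + 1) * B + agr y t' < _ at h
      by_cases hPy : P y
      · exact hPy
      · rw [raise_neg hPy, hg, two_pos (hfar y hy)] at h
        omega
    · -- le
      intro y
      by_cases hPy : P y
      · rw [raise_pos hPy]
        have := agr_le y s.t
        omega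
      · rw [raise_neg hPy, hg]
        have := agr_le y s.t
        unfold two
        split_ifs <;> omega
    · -- far
      intro y hy
      have hy' : r < cnt G s.a y := lt_of_lt_of_le hy (cnt_mono (filter_subset _ _) _ _)
      by_cases hPy : P y
      · rw [raise_pos hPy]
        omega
      · rw [raise_neg hPy, hg, two_pos hy']
        omega

end Pool.Agent.J4.H16.LA
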