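import Pool.Agent.J4.H16.LA.Phase
set_option autoImplicit false

/-!
# Lookahead: one useful step, and the whole wiping phase
-/

namespace Pool.Agent.J4.H16.LA

open Finset
open Pool.Agent.TH70.AR hiding flip flip_flip

variable {n : ℕ} {ι : Type} [Fintype ι] {A : LPast n → Fin n} {r : ℕ}

/-- A play together with the walk of the rule: at most `m` directions are frozen (the set `X`), the
records have at most `κ` useless directions outside of `X`, and there are at most `M` records. -/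
structure Seg (A : LPast n → Fin n) (r B H κ m M : ℕ) (h : LPast n) (s : St n) (ρ₀ : LR n)
    (p : List (LR n)) (X : Finset (Fin n)) (s' : St n) : Prop where
  play : Play r B H s ρ₀ p X s'
  walk : LWalk A r h s.a (ρ₀ :: p) s'.a
  cX : X.card ≤ m
  cW : ∀ ρ ∈ ρ₀ :: p, (s.Y \ (ρ.W ∪ X)).card ≤ κ
  len : (ρ₀ :: p).length ≤ M

lemma Seg.mono {B H κ κ' m m' M M' : ℕ} {h : LPast n} {s s' : St n} {ρ₀ : LR n}
    {p : List (LR n)} {X : Finset (Fin n)} (hs : Seg A r B H κ m M h s ρ₀ p X s')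
    (h1 : κ ≤ κ') (h2 : m ≤ m') (h3 : M ≤ M') : Seg A r B H κ' m' M' h s ρ₀ p X s' :=
  ⟨hs.play, hs.walk, hs.cX.trans h2, fun ρ hρ => (hs.cW ρ hρ).trans h1, hs.len.trans h3⟩

lemma seg_walk {B H H' κ κ' m m' M M' : ℕ} {h : LPast n} {s s₁ s₂ : St n} {ρ₀ ρ₁ : LR n}
    {p q : List (LR n)} {X X' : Finset (Fin n)}
    (hp : Seg A r B H κ m M h s ρ₀ p X s₁)
    (hq : Seg A r B H' κ' m' M' (lpst r h (ρ₀ :: p)) s₁ ρ₁ q X' s₂) :
    LWalk A r h s.a (clr X s₁.a ρ₀ :: (p.map (clr X s₁.a) ++ ρ₁ :: q)) s₂.a := by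
  have h1 := lwalk_map (X := X) (b := s₁.a) hp.walk
  have h2 : LWalk A r (lpst r h ((ρ₀ :: p).map (clr X s₁.a))) s₁.a (ρ₁ :: q) s₂.a := by
    rw [lpst_map]; exact hq.walk
  exact lwalk_append h1 h2

lemma seg_len {p q : List (LR n)} {ρ₀ ρ₁ : LR n} {X : Finset (Fin n)} {b : Fin n → Bool} :
    (clr X b ρ₀ :: (p.map (clr X b) ++ ρ₁ :: q)).length = (ρ₀ :: p).length + (ρ₁ :: q).length := by
  simp only [List.length_cons, List.length_append, List.length_map]
  omega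

lemma seg_nested {B H H' κ m m' M M' : ℕ} {h : LPast n} {s s₁ s₂ : St n} {ρ₀ ρ₁ : LR n}
    {p q : List (LR n)} {X X' : Finset (Fin n)} (hHB : H ≤ B)
    (hp : Seg A r B H κ m M h s ρ₀ p X s₁)
    (hq : Seg A r B H' κ m' M' (lpst r h (ρ₀ :: p)) s₁ ρ₁ q X' s₂) :
    Seg A r B H' κ (m + m') (M + M') h s (clr X s₁.a ρ₀) (p.map (clr X s₁.a) ++ ρ₁ :: q)
      (X ∪ X') s₂ := by
  refine ⟨play_nested hp.play hq.play hHB, seg_walk hp hq, ?_, ?_, ?_⟩
  · have := hp.cX
    have := hq.cX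
    have := card_union_le X X'
    omega
  · intro ρ hρ
    rcases comp_cov ρ hρ with ⟨ρ', hρ', rfl⟩ | hρ
    · refine (card_le_card ?_).trans (hp.cW ρ' hρ')
      intro x hx
      rw [mem_sdiff, mem_union, mem_union, not_or, not_or] at hx
      rw [mem_sdiff, mem_union, not_or]
      exact ⟨hx.1, fun hW => hx.2.1 (mem_filter.2 ⟨hW, fun h' => hx.2.2.1 h'.1⟩), hx.2.2.1⟩
    · refine (card_le_card ?_).trans (hq.cW ρ hρ)
      intro x hx
      rw [mem_sdiff, mem_union, mem_union, not_or, not_or] at hx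
      rw [mem_sdiff, mem_union, not_or, hp.play.hY, mem_sdiff]
      exact ⟨⟨hx.1, hx.2.2.1⟩, hx.2.1, hx.2.2.2⟩
  · rw [seg_len]
    have := hp.len
    have := hq.len
    omega

lemma seg_release {B H H' κ κ' m m' M M' : ℕ} {h : LPast n} {s s₁ s₂ : St n} {ρ₀ ρ₁ : LR n}
    {p q : List (LR n)} {X X' : Finset (Fin n)} (hHB : H ≤ B) (hκ : κ ≤ κ')
    (hp : Seg A r B H κ m M h s ρ₀ p X s₁)
    (hq : Seg A r B H' κ' m' M' (lpst r h (ρ₀ :: p)) s₁ ρ₁ q X' s₂)
    (hrel : ∀ ρ ∈ ρ₀ :: p, r < wc X' s₂.a ρ) :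
    Seg A r B (H' + (n + 1)) (κ' + m) m' (M + M') h s (clr X s₁.a ρ₀)
      (p.map (clr X s₁.a) ++ ρ₁ :: q) X' (rst s s₂ X') := by
  have hw := seg_walk hp hq
  refine ⟨play_release hp.play hq.play hHB hrel, hw, hq.cX, ?_, ?_⟩
  · intro ρ hρ
    rcases comp_cov ρ hρ with ⟨ρ', hρ', rfl⟩ | hρ
    · have h1 : s.Y \ ((clr X s₁.a ρ').W ∪ X') ⊆ (s.Y \ (ρ'.W ∪ X)) ∪ X := by
        intro x hx
        rw [mem_sdiff, mem_union, not_or] at hx
        rw [mem_union, mem_sdiff, mem_union, not_or]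
        by_cases hxX : x ∈ X
        · exact Or.inr hxX
        · exact Or.inl ⟨hx.1, fun hW => hx.2.1 (mem_filter.2 ⟨hW, fun h' => hxX h'.1⟩), hxX⟩
      have h2 := card_le_card h1
      have h3 := card_union_le (s.Y \ (ρ'.W ∪ X)) X
      have h4 := hp.cW ρ' hρ'
      have h5 := hp.cX
      omega
    · have h1 : s.Y \ (ρ.W ∪ X') ⊆ (s₁.Y \ (ρ.W ∪ X')) ∪ X := by
        intro x hx
        rw [mem_sdiff] at hx
        rw [mem_union, mem_sdiff, hp.play.hY, mem_sdiff]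
        by_cases hxX : x ∈ X
        · exact Or.inr hxX
        · exact Or.inl ⟨⟨hx.1, hxX⟩, hx.2⟩
      have h2 := card_le_card h1
      have h3 := card_union_le (s₁.Y \ (ρ.W ∪ X')) X
      have h4 := hq.cW ρ hρ
      have h5 := hp.cX
      omega
  · rw [seg_len]
    have := hp.len
    have := hq.len
    omega

/-- directions which can only be flipped to the wrong side -/
noncomputable def Up (k : ℕ) (R : ι → LR n) (ω : ι → ℝ) (s : St n) : Finset (Fin n) := by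
  classical
  exact s.Y.filter fun x => x ∉ Ex s.Y R ω ((k : ℝ) / (k + 1)) ∧ s.t x ≠ s.a x ∧
    ¬ Gd k R ω x (!s.a x)

lemma mem_Up {k : ℕ} {R : ι → LR n} {ω : ι → ℝ} {s : St n} {x : Fin n} :
    x ∈ Up k R ω s ↔ x ∈ s.Y ∧ x ∉ Ex s.Y R ω ((k : ℝ) / (k + 1)) ∧ s.t x ≠ s.a x ∧
    ¬ Gd k R ω x (!s.a x) := by
  classical
  unfold Up
  rw [mem_filter]

/-- a batch of the wiping phase -/
lemma phase_batch (hA : LValid A) {B k u K K' N : ℕ} (hB : n < B) (hk : 1 ≤ k) {R : ι → LR n}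
    (hK' : K * (k + 1) ^ 3 ≤ K' * k ^ 3) {ω : ι → ℝ} (hω : ∀ j, 0 ≤ ω j) {s : St n}
    (hI : PInv k u R ω s) (hK : ∀ j, (s.Y \ (R j).W).card ≤ K) {V Z : Finset (Fin n)}
    (hV : V.card ≤ u) (hZ : ∀ x ∈ Z, x ∈ s.Y ∧ s.t x = s.a x ∧
      tgt s (Ex s.Y R ω ((k : ℝ) / (k + 1)) ∪ V) x = s.a x)
    (hY : K' + 3 * u + r < s.Y.card) (hN : s.Y.card ≤ N) (h : LPast n) :
    ∃ (ρ₀ : LR n) (p : List (LR n)) (b : Fin n → Bool) (X : Finset (Fin n)),
      X = ((good s (tgt s (Ex s.Y R ω ((k : ℝ) / (k + 1)) ∪ V))).filter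
        fun x => b x ≠ s.a x) ∪ Z ∧
      Seg A r B (2 * n + 2) (K' + 3 * u + r) (r + 1 + Z.card) N h s ρ₀ p X
        (bst s (tgt s (Ex s.Y R ω ((k : ℝ) / (k + 1)) ∪ V)) b X) ∧
      (∀ x, b x = s.a x ∨ b x = s.t x) ∧
      cnt (good s (tgt s (Ex s.Y R ω ((k : ℝ) / (k + 1)) ∪ V))) s.a b = r + 1 := by
  have h1 := good_card hk hω hI hK hK' hV
  have h2 : (s.Y \ good s (tgt s (Ex s.Y R ω ((k : ℝ) / (k + 1)) ∪ V))).card =
      s.Y.card - (good s (tgt s (Ex s.Y R ω ((k : ℝ) / (k + 1)) ∪ V))).card :=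
    card_sdiff_of_subset (filter_subset _ _)
  have h3 : r < (good s (tgt s (Ex s.Y R ω ((k : ℝ) / (k + 1)) ∪ V))).card := by omega
  obtain ⟨ρ₀, p, b, X, hX, hP, hW, hb, hc, hU, hL⟩ := batch hA hB hI.toff
    (fun x hx => tgt_off hx) (t' := tgt s (Ex s.Y R ω ((k : ℝ) / (k + 1)) ∪ V)) h3 hZ h
  refine ⟨ρ₀, p, b, X, hX, ⟨hP, hW, ?_, ?_, hL.trans hN⟩, hb, hc⟩
  · rw [hX]
    refine (card_union_le _ _).trans ?_
    unfold cnt at hc
    omega
  · intro ρ hρ
    have h3 : s.Y \ (ρ.W ∪ X) ⊆ s.Y \ ρ.W :=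
      sdiff_subset_sdiff (Subset.refl _) subset_union_left
    have h4 := card_le_card h3
    have h5 := hU ρ hρ
    omega

lemma Gd_congr {k : ℕ} {R : ι → LR n} {ω ω' : ι → ℝ} {x : Fin n} {c c' : Bool} (h : ω = ω')
    (hc : c = c') (hg : Gd k R ω x c) : Gd k R ω' x c' := by rw [← h, ← hc]; exact hg

/-- freezing a useful direction -/
lemma finish {k u : ℕ} {R : ι → LR n} {s : St n} {F V Z X : Finset (Fin n)}
    {b : Fin n → Bool} {x₀ : Fin n} (hk : 1 ≤ k) (hF : ∀ x ∈ F, x ∉ s.Y)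
    (hI : PInv k u R (wt k R F s.a) s) (hV : V.card ≤ u)
    (hX : X = ((good s (tgt s (Ex s.Y R (wt k R F s.a) ((k : ℝ) / (k + 1)) ∪ V))).filter
      fun x => b x ≠ s.a x) ∪ Z)
    (hZ : ∀ x ∈ Z, x ∈ s.Y ∧ s.t x = s.a x ∧
      tgt s (Ex s.Y R (wt k R F s.a) ((k : ℝ) / (k + 1)) ∪ V) x = s.a x)
    (hb : ∀ x, b x = s.a x ∨ b x = s.t x) (hx₀ : x₀ ∈ X)
    (hg : Gd k R (wt k R F s.a) x₀ (b x₀)) :
    x₀ ∉ F ∧ PInv k u R (wt k R (insert x₀ F) b)
      (bst s (tgt s (Ex s.Y R (wt k R F s.a) ((k : ℝ) / (k + 1)) ∪ V)) b X) ∧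
    ∑ j, wt k R (insert x₀ F) b j ≤
      (1 - 1 / (2 * ((k : ℝ) + 1) ^ 2)) * ∑ j, wt k R F s.a j := by
  have hXY : ∀ x ∈ X, x ∈ s.Y := by
    intro x hx
    rw [hX, mem_union, mem_filter, mem_good_tgt] at hx
    rcases hx with h | h
    · exact h.1.1
    · exact (hZ x h).1
  have hxF : x₀ ∉ F := fun h => hF x₀ h (hXY x₀ hx₀)
  have hwt : wt k R F s.a = wt k R F b := by
    apply wt_congr
    intro x hx
    rcases hb x with h | h
    · exact h.symm
    · rw [h, hI.toff x (hF x hx)]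
  refine ⟨hxF, ?_, ?_⟩
  · refine inv_batch hk (wt_nonneg k R F s.a) hI ?_ ?_ hV hX hZ hb
    · intro j
      rw [hwt]
      exact wt_insert_le hxF j
    · intro j
      rw [hwt]
      exact le_wt_insert hxF j
  · rw [hwt] at hg ⊢
    exact sum_wt_insert hxF hg

/-- a direction which is not improving and useful as it is -/
lemma step_A (hA : LValid A) {B k u K K' N : ℕ} (hB : n < B)
    (hk : 1 ≤ k) (hu : 1 ≤ u) {R : ι → LR n} (hK' : K * (k + 1) ^ 3 ≤ K' * k ^ 3)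
    {s : St n} {F : Finset (Fin n)} (h : LPast n) (hF : ∀ x ∈ F, x ∉ s.Y)
    (hI : PInv k u R (wt k R F s.a) s) (hK : ∀ j, (s.Y \ (R j).W).card ≤ K)
    (hY : K' + 3 * u + r < s.Y.card) (hN : s.Y.card ≤ N) {x₀ : Fin n} (hx₀ : x₀ ∈ s.Y)
    (hx2 : s.t x₀ = s.a x₀) (hx3 : Gd k R (wt k R F s.a) x₀ (s.a x₀)) :
    ∃ (ρ₀ : LR n) (p : List (LR n)) (X : Finset (Fin n)) (s' : St n) (x₀ : Fin n),
      Seg A r B (2 * n + 2) (K' + 3 * u + r) (r + 2) N h s ρ₀ p X s' ∧
      x₀ ∈ X ∧ x₀ ∉ F ∧ PInv k u R (wt k R (insert x₀ F) s'.a) s' ∧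
      ∑ j, wt k R (insert x₀ F) s'.a j ≤
        (1 - 1 / (2 * ((k : ℝ) + 1) ^ 2)) * ∑ j, wt k R F s.a j := by
  have hZ : ∀ x ∈ ({x₀} : Finset (Fin n)), x ∈ s.Y ∧ s.t x = s.a x ∧
      tgt s (Ex s.Y R (wt k R F s.a) ((k : ℝ) / (k + 1)) ∪ {x₀}) x = s.a x := by
    intro x hx
    rw [mem_singleton] at hx
    subst hx
    exact ⟨hx₀, hx2, tgt_mem (by simp)⟩
  have hV : ({x₀} : Finset (Fin n)).card ≤ u := by simpa using hu
  obtain ⟨ρ₀, p, b, X, hX, hS, hb, hc⟩ := phase_batch (r := r) hA hB hk hK' (wt_nonneg k R F s.a)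
    hI hK hV hZ hY hN h
  have hx₀X : x₀ ∈ X := by rw [hX]; simp
  have hbx : b x₀ = s.a x₀ := by
    rcases hb x₀ with h1 | h1
    · exact h1
    · rw [h1, hx2]
  have hg : Gd k R (wt k R F s.a) x₀ (b x₀) := by rw [hbx]; exact hx3
  obtain ⟨h1, h2, h3⟩ := finish hk hF hI hV hX hZ hb hx₀X hg
  refine ⟨ρ₀, p, X, _, x₀, hS.mono le_rfl ?_ le_rfl, hx₀X, h1, h2, h3⟩
  rw [card_singleton]

/-- all directions which can be flipped only to the wrong side are excluded -/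
lemma step_B (hA : LValid A) {B k u K K' N : ℕ} (hB : n < B)
    (hk : 1 ≤ k) {R : ι → LR n} (hK' : K * (k + 1) ^ 3 ≤ K' * k ^ 3)
    {s : St n} {F : Finset (Fin n)} (h : LPast n) (hF : ∀ x ∈ F, x ∉ s.Y)
    (hI : PInv k u R (wt k R F s.a) s) (hK : ∀ j, (s.Y \ (R j).W).card ≤ K)
    (hY : K' + 3 * u + r < s.Y.card) (hN : s.Y.card ≤ N)
    (hV : (Up k R (wt k R F s.a) s).card ≤ u) :
    ∃ (ρ₀ : LR n) (p : List (LR n)) (X : Finset (Fin n)) (s' : St n) (x₀ : Fin n),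
      Seg A r B (2 * n + 2) (K' + 3 * u + r) (r + 2) N h s ρ₀ p X s' ∧
      x₀ ∈ X ∧ x₀ ∉ F ∧ PInv k u R (wt k R (insert x₀ F) s'.a) s' ∧
      ∑ j, wt k R (insert x₀ F) s'.a j ≤
        (1 - 1 / (2 * ((k : ℝ) + 1) ^ 2)) * ∑ j, wt k R F s.a j := by
  have hZ : ∀ x ∈ (∅ : Finset (Fin n)), x ∈ s.Y ∧ s.t x = s.a x ∧
      tgt s (Ex s.Y R (wt k R F s.a) ((k : ℝ) / (k + 1)) ∪ Up k R (wt k R F s.a) s) x =
        s.a x := by
    intro x hx
    simp at hx
  obtain ⟨ρ₀, p, b, X, hX, hS, hb, hc⟩ := phase_batch (r := r) hA hB hk hK' (wt_nonneg k R F s.a)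
    hI hK hV hZ hY hN h
  have hne : ((good s (tgt s (Ex s.Y R (wt k R F s.a) ((k : ℝ) / (k + 1)) ∪
      Up k R (wt k R F s.a) s))).filter fun x => b x ≠ s.a x).Nonempty := by
    rw [← card_pos]
    unfold cnt at hc
    omega
  obtain ⟨x₀, hx₀⟩ := hne
  have hx₀X : x₀ ∈ X := by rw [hX]; exact mem_union_left _ hx₀
  rw [mem_filter, mem_good_tgt, mem_union, not_or, mem_Up] at hx₀
  obtain ⟨⟨h1, h2, h3, h4, h5⟩, h6⟩ := hx₀
  have hg : Gd k R (wt k R F s.a) x₀ (b x₀) := by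
    by_contra hg
    refine h5 ⟨h1, h4, h3, fun h7 => hg ?_⟩
    have h8 : (!s.a x₀) = b x₀ := not_eq_of_ne h6
    rwa [← h8]
  obtain ⟨h7, h8, h9⟩ := finish hk hF hI hV hX hZ hb hx₀X hg
  refine ⟨ρ₀, p, X, _, x₀, hS.mono le_rfl ?_ le_rfl, hx₀X, h7, h8, h9⟩
  rw [card_empty]
  omega

/-- **One useful step.** -/
lemma sub_phase (hA : LValid A) {B k u K K' N : ℕ} (hB : n < B) (hHB : 2 * n + 2 ≤ B)
    (hk : 1 ≤ k) (hu : 1 ≤ u) {R : ι → LR n} (hK' : K * (k + 1) ^ 3 ≤ K' * k ^ 3) (m : ℕ) :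
    ∀ (s : St n) (F : Finset (Fin n)) (h : LPast n), (∀ x ∈ F, x ∉ s.Y) →
      PInv k u R (wt k R F s.a) s → (∀ j, (s.Y \ (R j).W).card ≤ K) →
      (Up k R (wt k R F s.a) s).card ≤ (m + 1) * u →
      K' + 3 * u + r + m * (r + 2) < s.Y.card → s.Y.card ≤ N →
      ∃ (ρ₀ : LR n) (p : List (LR n)) (X : Finset (Fin n)) (s' : St n) (x₀ : Fin n),
        Seg A r B (2 * n + 2) (K' + 3 * u + r) ((m + 1) * (r + 2)) ((m + 1) * N) h s ρ₀ p X s' ∧
        x₀ ∈ X ∧ x₀ ∉ F ∧ PInv k u R (wt k R (insert x₀ F) s'.a) s' ∧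
        ∑ j, wt k R (insert x₀ F) s'.a j ≤
          (1 - 1 / (2 * ((k : ℝ) + 1) ^ 2)) * ∑ j, wt k R F s.a j := by
  have hkr : (0 : ℝ) < k := by exact_mod_cast hk
  have hδ := delta_le_one k
  induction m with
  | zero =>
    intro s F h hF hI hK hUp hY hN
    obtain ⟨ρ₀, p, X, s', x₀, h1, h2⟩ := step_B (r := r) hA hB hk hK' h hF hI hK (by omega) hN
      (by simpa using hUp)
    exact ⟨ρ₀, p, X, s', x₀, by simpa using h1, h2⟩
  | succ m ih =>
    intro s F h hF hI hK hUp hY hN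
    have e1 : (m + 1) * (r + 2) = m * (r + 2) + (r + 2) := by ring
    have e2 : (m + 1 + 1) * (r + 2) = m * (r + 2) + (r + 2) + (r + 2) := by ring
    have e3 : (m + 1 + 1) * N = m * N + N + N := by ring
    have e4 : (m + 1) * N = m * N + N := by ring
    have e5 : (m + 1 + 1) * u = (m + 1) * u + u := by ring
    by_cases hAc : ∃ x ∈ s.Y, x ∉ Ex s.Y R (wt k R F s.a) ((k : ℝ) / (k + 1)) ∧
        s.t x = s.a x ∧ Gd k R (wt k R F s.a) x (s.a x)
    · -- case A
      obtain ⟨x₀, hx₀, hx1, hx2, hx3⟩ := hAc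
      obtain ⟨ρ₀, p, X, s', x₀, h1, h2⟩ := step_A (r := r) hA hB hk hu hK' h hF hI hK (by omega)
        hN hx₀ hx2 hx3
      exact ⟨ρ₀, p, X, s', x₀, h1.mono le_rfl (by omega) (by omega), h2⟩
    · by_cases hBc : (Up k R (wt k R F s.a) s).card ≤ u
      · obtain ⟨ρ₀, p, X, s', x₀, h1, h2⟩ := step_B (r := r) hA hB hk hK' h hF hI hK (by omega)
          hN hBc
        exact ⟨ρ₀, p, X, s', x₀, h1.mono le_rfl (by omega) (by omega), h2⟩
      · -- case C
        push Not at hBc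
        obtain ⟨V, hVU, hVc⟩ := exists_subset_card_eq hBc.le
        have hZ : ∀ x ∈ (∅ : Finset (Fin n)), x ∈ s.Y ∧ s.t x = s.a x ∧
            tgt s (Ex s.Y R (wt k R F s.a) ((k : ℝ) / (k + 1)) ∪ V) x = s.a x := by
          intro x hx
          simp at hx
        obtain ⟨ρ₀, p, b, X, hX, hS, hb, hc⟩ := phase_batch (r := r) hA hB hk hK'
          (wt_nonneg k R F s.a) hI hK hVc.le hZ (by omega) hN h
        obtain ⟨t', ht'⟩ : ∃ t', t' = tgt s (Ex s.Y R (wt k R F s.a) ((k : ℝ) / (k + 1)) ∪ V) :=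
          ⟨_, rfl⟩
        have hI₁ := inv_batch (ω' := wt k R F s.a) hk (wt_nonneg k R F s.a) hI (fun j => le_rfl)
          (fun j => by
            have h1 := wt_nonneg k R F s.a j
            nlinarith) hVc.le hX hZ hb
        rw [← ht'] at hX hS hc hI₁
        have hwt : wt k R F s.a = wt k R F b := by
          apply wt_congr
          intro x hx
          rcases hb x with h1 | h1
          · exact h1.symm
          · rw [h1, hI.toff x (hF x hx)]
        have hXc : X.card ≤ r + 1 := by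
          rw [hX, union_empty]
          unfold cnt at hc
          omega
        have hYc : s.Y.card ≤ (s.Y \ X).card + X.card := by
          have h1 : s.Y ⊆ (s.Y \ X) ∪ X := by
            intro x hx
            rw [mem_union, mem_sdiff]
            by_cases hxX : x ∈ X
            · exact Or.inr hxX
            · exact Or.inl ⟨hx, hxX⟩
          exact (card_le_card h1).trans (card_union_le _ _)
        have hYs : (s.Y \ X).card ≤ s.Y.card := card_le_card sdiff_subset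
        have hUp₁ : (Up k R (wt k R F b) (bst s t' b X)).card ≤ (m + 1) * u := by
          rw [← hwt]
          have h1 : Up k R (wt k R F s.a) (bst s t' b X) ⊆ Up k R (wt k R F s.a) s \ V := by
            intro x hx
            rw [mem_Up] at hx
            obtain ⟨h1, h2, h3, h4⟩ := hx
            change x ∈ s.Y \ X at h1
            change x ∉ Ex (s.Y \ X) R (wt k R F s.a) ((k : ℝ) / (k + 1)) at h2
            change t' x ≠ b x at h3
            change ¬ Gd k R (wt k R F s.a) x (!b x) at h4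
            have hxY := (mem_sdiff.1 h1).1
            have h5 : x ∉ Ex s.Y R (wt k R F s.a) ((k : ℝ) / (k + 1)) := by
              intro h5
              rw [mem_Ex] at h5 h2
              exact h2 ⟨h1, h5.2⟩
            have h6 := (gd_or hxY h5 (b x)).resolve_right h4
            by_cases hbx : b x = s.a x
            · rw [hbx] at h6 h4 h3
              rw [mem_sdiff, mem_Up]
              refine ⟨⟨hxY, h5, fun h7 => hAc ⟨x, hxY, h5, h7, h6⟩, h4⟩, fun hV => h3 ?_⟩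
              rw [ht']
              exact tgt_mem (mem_union_right _ hV)
            · have h7 : b x = !s.a x := (not_eq_of_ne hbx).symm
              rw [h7] at h3 h6
              exfalso
              by_cases hN' : x ∈ V
              · have h8 := hVU hN'
                rw [mem_Up] at h8
                exact h8.2.2.2 h6
              · apply h3
                rw [ht']
                refine tgt_not hxY fun h8 => ?_
                rcases mem_union.1 h8 with h8 | h8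
                · exact h5 h8
                · exact hN' h8
          have h2 := card_le_card h1
          rw [card_sdiff_of_subset hVU] at h2
          omega
        obtain ⟨ρ₁, q, X', s', x₀, h1, h2, h3, h4, h5⟩ := ih (bst s t' b X) F
          (lpst r h (ρ₀ :: p)) (fun x hx h' => hF x hx (mem_sdiff.1 h').1)
          (by rw [← show wt k R F s.a = wt k R F (bst s t' b X).a from hwt]; exact hI₁)
          (fun j => (card_le_card (sdiff_subset_sdiff sdiff_subset (Subset.refl _))).trans (hK j))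
          hUp₁ (by
            change _ < (s.Y \ X).card
            omega) (by
            change (s.Y \ X).card ≤ N
            omega)
        refine ⟨_, _, _, s', x₀, (seg_nested hHB hS h1).mono le_rfl ?_ ?_, mem_union_right _ h2,
          h3, h4, ?_⟩
        · rw [card_empty]
          omega
        · omega
        · rw [show wt k R F s.a = wt k R F (bst s t' b X).a from hwt]
          exact h5

end Pool.Agent.J4.H16.LA
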