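import Pool.Agent.J4.H16.LA.Comp
import Pool.Agent.J4.H16.LA.Defs
set_option autoImplicit false

/-!
# Lookahead: the walk of a rule through a batch
-/

namespace Pool.Agent.J4.H16.LA

open Finset
open Pool.Agent.TH70.AR hiding flip flip_flip

variable {n : ℕ}

lemma self_mem_ahead (I : (Fin n → Bool) → Finset (Fin n)) (s : ℕ) (x : Fin n → Bool) :
    x ∈ ahead I s x := by
  induction s with
  | zero => exact mem_singleton_self x
  | succ s ih => exact mem_union_left _ ih

/-- what is shown at a record -/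
noncomputable def lk (r : ℕ) (ρ : LR n) : (Fin n → Bool) → Option (ℕ × Finset (Fin n)) := fun u =>
  if u ∈ ahead (fun z => (ρ.D z).2) r ρ.w then
    some ((ρ.D u).1 * 2 ^ n + (Fintype.equivFin (Fin n → Bool) u : ℕ), (ρ.D u).2)
  else none

lemma lk_self (r : ℕ) (ρ : LR n) : lk r ρ ρ.w =
    some ((ρ.D ρ.w).1 * 2 ^ n + (Fintype.equivFin (Fin n → Bool) ρ.w : ℕ), (ρ.D ρ.w).2) :=
  if_pos (self_mem_ahead _ _ _)

/-- the rule chooses an improving direction -/
def LValid (A : LPast n → Fin n) : Prop :=
  ∀ (x : Fin n → Bool) (L : (Fin n → Bool) → Option (ℕ × Finset (Fin n))) (c : ℕ)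
    (S : Finset (Fin n)) (l : LPast n), L x = some (c, S) → S.Nonempty → A ((x, L) :: l) ∈ S

/-- The records `p` form a walk of the rule `A` from `a` to `b`; `h` is the past before `a`. -/
def LWalk (A : LPast n → Fin n) (r : ℕ) :
    LPast n → (Fin n → Bool) → List (LR n) → (Fin n → Bool) → Prop
  | _, a, [], b => a = b
  | h, a, ρ :: p, b => ρ.w = a ∧ (ρ.D a).2.Nonempty ∧ ahead (fun z => (ρ.D z).2) r a ⊆ ρ.Q ∧
      LWalk A r ((a, lk r ρ) :: h) (TH70.AR.flip a (A ((a, lk r ρ) :: h))) p b

/-- the past after the records `p` -/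
noncomputable def lpst (r : ℕ) : LPast n → List (LR n) → LPast n
  | h, [] => h
  | h, ρ :: p => lpst r ((ρ.w, lk r ρ) :: h) p

variable {A : LPast n → Fin n} {r : ℕ}

lemma lwalk_append {p q : List (LR n)} {h : LPast n} {a b d : Fin n → Bool}
    (hp : LWalk A r h a p d) (hq : LWalk A r (lpst r h p) d q b) : LWalk A r h a (p ++ q) b := by
  induction p generalizing h a with
  | nil =>
    simp only [LWalk] at hp
    subst hp
    simpa [lpst] using hq
  | cons ρ p ih =>
    simp only [LWalk, List.cons_append] at hp ⊢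
    obtain ⟨h1, h2, h4, h3⟩ := hp
    refine ⟨h1, h2, h4, ih h3 ?_⟩
    rw [← h1]
    simpa [lpst] using hq

lemma lk_clr (X : Finset (Fin n)) (b : Fin n → Bool) (ρ : LR n) : lk r (clr X b ρ) = lk r ρ := rfl

lemma lwalk_map {p : List (LR n)} {h : LPast n} {a d : Fin n → Bool} {X : Finset (Fin n)}
    {b : Fin n → Bool} (hp : LWalk A r h a p d) : LWalk A r h a (p.map (clr X b)) d := by
  induction p generalizing h a with
  | nil => simpa [LWalk] using hp
  | cons ρ p ih =>
    simp only [LWalk, List.map_cons] at hp ⊢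
    exact ⟨hp.1, hp.2.1, hp.2.2.1, ih hp.2.2.2⟩

lemma lpst_map {p : List (LR n)} {h : LPast n} {X : Finset (Fin n)} {b : Fin n → Bool} :
    lpst r h (p.map (clr X b)) = lpst r h p := by
  induction p generalizing h with
  | nil => rfl
  | cons ρ p ih => simp only [List.map_cons, lpst]; exact ih

/-- what can be seen at a record of a batch is prescribed there -/
lemma ahead_brec {B : ℕ} {s : St n} {t' w : Fin n → Bool} (ht : ∀ x, x ∉ s.Y → s.t x = s.a x)
    (ht' : ∀ x, x ∉ s.Y → t' x = s.a x) (hw : ∀ x, w x = s.a x ∨ w x = s.t x) :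
    ahead (fun z => ((brec r B s (good s t') t' w).D z).2) r w ⊆
      (brec r B s (good s t') t' w).Q := by
  have key : ∀ j, ∀ u ∈ ahead (fun z => ((brec r B s (good s t') t' w).D z).2) j w,
      (∀ x, x ∉ s.Y → u x = s.a x) ∧ cnt univ w u ≤ j := by
    intro j
    induction j with
    | zero =>
      intro u hu
      simp only [ahead, mem_singleton] at hu
      subst hu
      refine ⟨fun x hx => ?_, by simp [cnt]⟩
      rcases hw x with h | h
      · exact h
      · rw [h, ht x hx]
    | succ j ih =>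
      intro u hu
      simp only [ahead, mem_union, mem_biUnion, mem_image] at hu
      rcases hu with hu | ⟨z, hz, i, hi, rfl⟩
      · obtain ⟨h1, h2⟩ := ih u hu
        exact ⟨h1, by omega⟩
      · obtain ⟨h1, h2⟩ := ih z hz
        have hiY : i ∈ s.Y := by
          by_contra h3
          change i ∈ univ.filter (fun x => if r < cnt (good s t') s.a z then z x ≠ t' x
            else z x ≠ s.t x) at hi
          rw [mem_filter, h1 i h3, ht i h3, ht' i h3] at hi
          simp at hi
        refine ⟨fun x hx => ?_, (cnt_flip_le).trans (by omega)⟩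
        rw [flip_of_ne _ (by rintro rfl; exact hx hiY)]
        exact h1 x hx
  intro u hu
  obtain ⟨h1, h2⟩ := key r u hu
  simp only [brec, mem_filter, mem_univ, true_and]
  exact ⟨h1, Or.inr h2⟩

/-- **The walk through a batch.** -/
lemma batch_walk (hA : LValid A) {B : ℕ} {s : St n} {t' : Fin n → Bool}
    (ht : ∀ x, x ∉ s.Y → s.t x = s.a x) (ht' : ∀ x, x ∉ s.Y → t' x = s.a x)
    (hG : r < (good s t').card) (k : ℕ) :
    ∀ (w : Fin n → Bool) (h : LPast n), (univ.filter fun x => w x ≠ s.t x).card = k →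
      (∀ x, w x = s.a x ∨ w x = s.t x) → cnt (good s t') s.a w ≤ r →
      ∃ (ws : List (Fin n → Bool)) (b : Fin n → Bool),
        LWalk A r h w ((w :: ws).map (brec r B s (good s t') t')) b ∧
        (∀ x, b x = s.a x ∨ b x = s.t x) ∧ cnt (good s t') s.a b = r + 1 ∧
        (∀ w' ∈ w :: ws, cnt (good s t') s.a w' ≤ r ∧
          ∀ x, w' x = s.a x ∨ (w' x = s.t x ∧ b x = s.t x)) ∧
        (ws.length + 1 ≤ k) ∧ (∀ x, w x = s.t x → b x = s.t x) := by
  have hah : ∀ w : Fin n → Bool, (∀ x, w x = s.a x ∨ w x = s.t x) →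
      ahead (fun z => ((brec r B s (good s t') t' w).D z).2) r w ⊆
      (brec r B s (good s t') t' w).Q := fun w hw => ahead_brec ht ht' hw
  obtain ⟨G, hGd⟩ : ∃ G, G = good s t' := ⟨_, rfl⟩
  rw [← hGd] at hG hah ⊢
  have hGm : ∀ x, x ∈ G ↔ x ∈ s.Y ∧ x ∉ s.Ω ∧ s.t x ≠ s.a x ∧ t' x = s.t x := by
    intro x; rw [hGd, good, mem_filter]
  induction k with
  | zero =>
    intro w h hk hw hc
    exfalso
    have h1 : G ⊆ G.filter fun x => w x ≠ s.a x := by
      intro x hx
      rw [mem_filter]
      refine ⟨hx, ?_⟩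
      have h2 : w x = s.t x := by
        by_contra hne
        have : x ∈ univ.filter fun x => w x ≠ s.t x := by simpa using hne
        rw [card_eq_zero.1 hk] at this
        simp at this
      rw [h2]
      exact ((hGm x).1 hx).2.2.1
    have := card_le_card h1
    unfold cnt at hc
    omega
  | succ k ih =>
    intro w h hk hw hc
    -- improving directions at `w`
    set ρ := brec r B s G t' w with hρ
    have hD : (ρ.D w).2 = univ.filter fun x => w x ≠ s.t x := by
      simp only [hρ, brec, bdat, if_neg (not_lt.2 hc)]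
    have hne : (ρ.D w).2.Nonempty := by
      rw [hD, ← card_pos, hk]
      omega
    set i := A ((w, lk r ρ) :: h) with hi
    have hiS : i ∈ (ρ.D w).2 := hA w (lk r ρ) _ _ h (lk_self r ρ) hne
    rw [hD, mem_filter] at hiS
    have hia : w i = s.a i := by
      rcases hw i with h1 | h1
      · exact h1
      · exact absurd h1 hiS.2
    have hfi : TH70.AR.flip w i i = s.t i := by
      rw [flip_self]
      have h1 := hiS.2
      cases h2 : w i <;> cases h3 : s.t i <;> simp_all
    have hw' : ∀ x, TH70.AR.flip w i x = s.a x ∨ TH70.AR.flip w i x = s.t x := by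
      intro x
      by_cases hx : x = i
      · subst hx; exact Or.inr hfi
      · rw [flip_of_ne _ hx]; exact hw x
    have hk' : (univ.filter fun x => TH70.AR.flip w i x ≠ s.t x).card = k := by
      have h1 : (univ.filter fun x => TH70.AR.flip w i x ≠ s.t x) =
          (univ.filter fun x => w x ≠ s.t x).erase i := by
        ext x
        rw [mem_erase, mem_filter, mem_filter]
        by_cases hx : x = i
        · subst hx; simp [hfi]
        · simp [flip_of_ne _ hx, hx]
      rw [h1, card_erase_of_mem (mem_filter.2 hiS), hk]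
      rfl
    by_cases hc' : cnt G s.a (TH70.AR.flip w i) ≤ r
    · obtain ⟨ws, b, h1, h2, h3, h4, h5, h6⟩ := ih (TH70.AR.flip w i) ((w, lk r ρ) :: h) hk' hw' hc'
      refine ⟨TH70.AR.flip w i :: ws, b, ⟨rfl, hne, hah w hw, h1⟩, h2, h3, ?_, ?_, ?_⟩
      · intro w' hw''
        rcases List.mem_cons.1 hw'' with rfl | hw''
        · refine ⟨hc, fun x => ?_⟩
          rcases hw x with h7 | h7
          · exact Or.inl h7
          · right
            refine ⟨h7, h6 x ?_⟩
            by_cases hx : x = i
            · subst hx; exact hfi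
            · rw [flip_of_ne _ hx]; exact h7
        · exact h4 w' hw''
      · simp only [List.length_cons]
        omega
      · intro x hx
        apply h6
        by_cases hxi : x = i
        · subst hxi; exact hfi
        · rw [flip_of_ne _ hxi]; exact hx
    · have hc1 := cnt_flip_le (G := G) (a := s.a) (u := w) (i := i)
      refine ⟨[], TH70.AR.flip w i, ⟨rfl, hne, hah w hw, rfl⟩, hw', by omega, ?_, by simp, ?_⟩
      · intro w' hw''
        rw [List.mem_singleton] at hw''
        subst hw''
        refine ⟨hc, fun x => ?_⟩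
        rcases hw x with h7 | h7
        · exact Or.inl h7
        · right
          refine ⟨h7, ?_⟩
          by_cases hx : x = i
          · subst hx; exact hfi
          · rw [flip_of_ne _ hx]; exact h7
      · intro x hx
        by_cases hxi : x = i
        · subst hxi; exact hfi
        · rw [flip_of_ne _ hxi]; exact hx

/-- useless directions of the records of a batch -/
lemma brec_useless {B : ℕ} {s : St n} {t' w : Fin n → Bool}
    (hw : cnt (good s t') s.a w ≤ r) :
    (s.Y \ (brec r B s (good s t') t' w).W).card ≤ (s.Y \ good s t').card + r := by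
  have h1 : s.Y \ (brec r B s (good s t') t' w).W ⊆
      (s.Y \ good s t') ∪ (good s t').filter fun x => w x ≠ s.a x := by
    intro x hx
    rw [mem_sdiff] at hx
    rw [mem_union, mem_sdiff, mem_filter]
    by_cases hxG : x ∈ good s t'
    · right
      exact ⟨hxG, fun h => hx.2 (mem_filter.2 ⟨hxG, h⟩)⟩
    · exact Or.inl ⟨hx.1, hxG⟩
  refine (card_le_card h1).trans ((card_union_le _ _).trans ?_)
  unfold cnt at hw
  omega

/-- **A batch**: the walk and the play. -/
lemma batch (hA : LValid A) {B : ℕ} {s : St n} {t' : Fin n → Bool} {Z : Finset (Fin n)}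
    (hB : n < B) (ht : ∀ x, x ∉ s.Y → s.t x = s.a x) (ht' : ∀ x, x ∉ s.Y → t' x = s.a x)
    (hG : r < (good s t').card) (hZ : ∀ x ∈ Z, x ∈ s.Y ∧ s.t x = s.a x ∧ t' x = s.a x)
    (h : LPast n) :
    ∃ (ρ₀ : LR n) (p : List (LR n)) (b : Fin n → Bool) (X : Finset (Fin n)),
      X = ((good s t').filter fun x => b x ≠ s.a x) ∪ Z ∧
      Play r B (2 * n + 2) s ρ₀ p X (bst s t' b X) ∧ LWalk A r h s.a (ρ₀ :: p) b ∧
      (∀ x, b x = s.a x ∨ b x = s.t x) ∧ cnt (good s t') s.a b = r + 1 ∧
      (∀ ρ ∈ ρ₀ :: p, (s.Y \ ρ.W).card ≤ (s.Y \ good s t').card + r) ∧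
      (ρ₀ :: p).length ≤ s.Y.card := by
  obtain ⟨ws, b, h1, h2, h3, h4, h5, -⟩ := batch_walk (B := B) hA ht ht' hG _ s.a h rfl
    (fun x => Or.inl rfl) (by simp [cnt])
  refine ⟨_, _, b, _, rfl, batch_play hB ht ht' h2 h3 hZ h4, h1, h2, h3, ?_, ?_⟩
  · intro ρ hρ
    have h6 : ρ ∈ (s.a :: ws).map (brec r B s (good s t') t') := hρ
    obtain ⟨w, hw, rfl⟩ := List.mem_map.1 h6
    exact brec_useless (h4 w hw).1
  · rw [List.length_cons, List.length_map]
    refine h5.trans (card_le_card ?_)
    intro x hx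
    rw [mem_filter] at hx
    by_contra hxY
    exact hx.2 (ht x hxY).symm

end Pool.Agent.J4.H16.LA
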