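import Pool.Agent.J4.H16.LA.Walk
set_option autoImplicit false

/-!
# Lookahead: weights of records
-/

namespace Pool.Agent.J4.H16.LA

open Finset
open Pool.Agent.TH70.AR hiding flip flip_flip

set_option linter.unusedSectionVars false

variable {n : ℕ} {ι : Type} [Fintype ι]

/-- the directions which are useless for more than the fraction `κ` of the weight -/
noncomputable def Ex (Y : Finset (Fin n)) (R : ι → LR n) (ω : ι → ℝ) (κ : ℝ) : Finset (Fin n) :=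
  Y.filter fun x => κ * ∑ j, ω j < ∑ j with x ∉ (R j).W, ω j

lemma mem_Ex {Y : Finset (Fin n)} {R : ι → LR n} {ω : ι → ℝ} {κ : ℝ} {x : Fin n} :
    x ∈ Ex Y R ω κ ↔ x ∈ Y ∧ κ * ∑ j, ω j < ∑ j with x ∉ (R j).W, ω j := by
  unfold Ex; rw [mem_filter]

lemma Ex_sub (Y : Finset (Fin n)) (R : ι → LR n) (ω : ι → ℝ) (κ : ℝ) : Ex Y R ω κ ⊆ Y :=
  filter_subset _ _

lemma Ex_card {Y : Finset (Fin n)} {R : ι → LR n} {ω : ι → ℝ} {κ : ℝ} {K : ℕ}
    (hω : ∀ j, 0 ≤ ω j) (hK : ∀ j, (Y \ (R j).W).card ≤ K) :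
    ((Ex Y R ω κ).card : ℝ) * κ ≤ K := by
  have h0 : 0 ≤ ∑ j, ω j := sum_nonneg fun j _ => hω j
  rcases h0.eq_or_lt with h1 | h1
  · -- no weight
    have h2 : Ex Y R ω κ = ∅ := by
      apply filter_eq_empty_iff.2
      intro x _ hx
      rw [← h1, mul_zero] at hx
      have h3 : ∑ j with x ∉ (R j).W, ω j ≤ ∑ j, ω j :=
        sum_le_sum_of_subset_of_nonneg (filter_subset _ _) fun j _ _ => hω j
      linarith
    rw [h2]
    simp
  · have h2 : ∑ x ∈ Ex Y R ω κ, κ * ∑ j, ω j ≤ ∑ x ∈ Ex Y R ω κ, ∑ j with x ∉ (R j).W, ω j :=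
      sum_le_sum fun x hx => (mem_Ex.1 hx).2.le
    have h3 : ∑ x ∈ Ex Y R ω κ, ∑ j with x ∉ (R j).W, ω j ≤
        ∑ x ∈ Y, ∑ j with x ∉ (R j).W, ω j :=
      sum_le_sum_of_subset_of_nonneg (Ex_sub _ _ _ _) fun x _ _ => sum_nonneg fun j _ => hω j
    have h4 : ∑ x ∈ Y, ∑ j with x ∉ (R j).W, ω j = ∑ j, ((Y \ (R j).W).card : ℝ) * ω j := by
      simp_rw [sum_filter]
      rw [sum_comm]
      refine sum_congr rfl fun j _ => ?_
      rw [← sum_filter, sum_const, nsmul_eq_mul]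
      congr 2
      congr 1
      ext x
      simp [mem_sdiff]
    have h5 : ∑ j, ((Y \ (R j).W).card : ℝ) * ω j ≤ ∑ j, (K : ℝ) * ω j :=
      sum_le_sum fun j _ => mul_le_mul_of_nonneg_right (by exact_mod_cast hK j) (hω j)
    rw [sum_const, nsmul_eq_mul] at h2
    rw [← mul_sum] at h5
    have h6 : (((Ex Y R ω κ).card : ℝ) * κ) * ∑ j, ω j ≤ K * ∑ j, ω j := by
      calc (((Ex Y R ω κ).card : ℝ) * κ) * ∑ j, ω j
          = ((Ex Y R ω κ).card : ℝ) * (κ * ∑ j, ω j) := by ring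
        _ ≤ _ := h2.trans (h3.trans (h4.le.trans h5))
    exact le_of_mul_le_mul_right h6 h1

lemma Ex_trans {Y Y' : Finset (Fin n)} {R : ι → LR n} {ω ω' : ι → ℝ} {κ δ : ℝ}
    (hκ : 0 ≤ κ) (hδ : 0 < δ) (h1 : ∀ j, ω' j ≤ ω j) (h2 : ∀ j, δ * ω j ≤ ω' j)
    {x : Fin n} (hx : x ∈ Ex Y R ω κ) (hxY : x ∈ Y') : x ∈ Ex Y' R ω' (δ * κ) := by
  rw [mem_Ex] at hx ⊢
  refine ⟨hxY, ?_⟩
  have h3 : ∑ j, ω' j ≤ ∑ j, ω j := sum_le_sum fun j _ => h1 j
  have h4 : δ * ∑ j with x ∉ (R j).W, ω j ≤ ∑ j with x ∉ (R j).W, ω' j := by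
    rw [mul_sum]
    exact sum_le_sum fun j _ => h2 j
  have h5 : δ * (κ * ∑ j, ω j) < δ * ∑ j with x ∉ (R j).W, ω j :=
    mul_lt_mul_of_pos_left hx.2 hδ
  have h6 : δ * κ * ∑ j, ω' j ≤ δ * (κ * ∑ j, ω j) := by
    rw [mul_assoc]
    exact mul_le_mul_of_nonneg_left (mul_le_mul_of_nonneg_left h3 hκ) hδ.le
  linarith

lemma Ex_mono {Y : Finset (Fin n)} {R : ι → LR n} {ω : ι → ℝ} {κ κ' : ℝ}
    (hω : ∀ j, 0 ≤ ω j) (h : κ' ≤ κ) : Ex Y R ω κ ⊆ Ex Y R ω κ' := by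
  intro x hx
  rw [mem_Ex] at hx ⊢
  have h0 : 0 ≤ ∑ j, ω j := sum_nonneg fun j _ => hω j
  have h1 := mul_le_mul_of_nonneg_right h h0
  exact ⟨hx.1, by linarith [hx.2]⟩

/-- freezing `x` at the value `c` is useful -/
def Gd (k : ℕ) (R : ι → LR n) (ω : ι → ℝ) (x : Fin n) (c : Bool) : Prop :=
  ∑ j, ω j ≤ (2 * k + 2) * ∑ j with x ∈ (R j).W ∧ (R j).w x ≠ c, ω j

lemma gd_or {k : ℕ} {Y : Finset (Fin n)} {R : ι → LR n} {ω : ι → ℝ} {x : Fin n} (hx : x ∈ Y)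
    (h : x ∉ Ex Y R ω (k / (k + 1))) (c : Bool) : Gd k R ω x c ∨ Gd k R ω x (!c) := by
  rw [mem_Ex, not_and] at h
  have h1 := not_lt.1 (h hx)
  have hk : (0 : ℝ) < k + 1 := by positivity
  have h2 : ∑ j, ω j = ∑ j with x ∉ (R j).W, ω j +
      (∑ j with x ∈ (R j).W ∧ (R j).w x ≠ c, ω j + ∑ j with x ∈ (R j).W ∧ (R j).w x ≠ !c, ω j) := by
    rw [← sum_filter_add_sum_filter_not univ fun j => x ∉ (R j).W]
    congr 1
    rw [← sum_filter_add_sum_filter_not (univ.filter fun j => ¬ x ∉ (R j).W)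
      fun j => (R j).w x ≠ c]
    congr 1
    · rw [filter_filter]
      refine sum_congr (filter_congr fun j _ => by simp) fun _ _ => rfl
    · rw [filter_filter]
      refine sum_congr (filter_congr fun j _ => ?_) fun _ _ => rfl
      cases (R j).w x <;> cases c <;> simp
  by_contra hne
  rw [not_or] at hne
  unfold Gd at hne
  obtain ⟨h3, h4⟩ := hne
  have h3' := not_le.1 h3
  have h4' := not_le.1 h4
  have h5 : (k + 1) * (k / (k + 1) * ∑ j, ω j) = k * ∑ j, ω j := by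
    field_simp
  have h6 := mul_le_mul_of_nonneg_left h1 hk.le
  rw [h5] at h6
  nlinarith

/-- the weight of a record, where the coordinates `F` are frozen at the values of `c` -/
noncomputable def wt (k : ℕ) (R : ι → LR n) (F : Finset (Fin n)) (c : Fin n → Bool) (j : ι) : ℝ :=
  ((k : ℝ) / (k + 1)) ^ wc F c (R j)

lemma wt_nonneg (k : ℕ) (R : ι → LR n) (F : Finset (Fin n)) (c : Fin n → Bool) (j : ι) :
    0 ≤ wt k R F c j := by
  unfold wt; positivity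

lemma wt_congr {k : ℕ} {R : ι → LR n} {F : Finset (Fin n)} {c c' : Fin n → Bool}
    (h : ∀ x ∈ F, c x = c' x) : wt k R F c = wt k R F c' := by
  funext j
  unfold wt
  rw [wc_congr h]

lemma wc_insert {F : Finset (Fin n)} {c : Fin n → Bool} {ρ : LR n} {x : Fin n} (hx : x ∉ F) :
    wc (insert x F) c ρ = wc F c ρ + if x ∈ ρ.W ∧ ρ.w x ≠ c x then 1 else 0 := by
  unfold wc cnt
  by_cases h : x ∈ ρ.W ∧ ρ.w x ≠ c x
  · rw [if_pos h, ← card_insert_of_notMem (a := x) (s := (F ∩ ρ.W).filter fun y => c y ≠ ρ.w y)]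
    · congr 1
      ext y
      simp only [mem_filter, mem_inter, mem_insert]
      constructor
      · rintro ⟨⟨rfl | h1, h2⟩, h3⟩
        · exact Or.inl rfl
        · exact Or.inr ⟨⟨h1, h2⟩, h3⟩
      · rintro (rfl | ⟨⟨h1, h2⟩, h3⟩)
        · exact ⟨⟨Or.inl rfl, h.1⟩, fun h' => h.2 h'.symm⟩
        · exact ⟨⟨Or.inr h1, h2⟩, h3⟩
    · simp [hx]
  · rw [if_neg h, add_zero]
    congr 1
    ext y
    simp only [mem_filter, mem_inter, mem_insert]
    constructor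
    · rintro ⟨⟨rfl | h1, h2⟩, h3⟩
      · exact absurd ⟨h2, fun h' => h3 h'.symm⟩ h
      · exact ⟨⟨h1, h2⟩, h3⟩
    · rintro ⟨⟨h1, h2⟩, h3⟩
      exact ⟨⟨Or.inr h1, h2⟩, h3⟩

lemma delta_le_one (k : ℕ) : (k : ℝ) / (k + 1) ≤ 1 := by
  rw [div_le_one (by positivity)]; linarith

lemma wt_insert_le {k : ℕ} {R : ι → LR n} {F : Finset (Fin n)} {c : Fin n → Bool} {x : Fin n}
    (hx : x ∉ F) (j : ι) : wt k R (insert x F) c j ≤ wt k R F c j := by
  unfold wt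
  rw [wc_insert hx]
  exact pow_le_pow_of_le_one (by positivity) (delta_le_one k) (Nat.le_add_right _ _)

lemma le_wt_insert {k : ℕ} {R : ι → LR n} {F : Finset (Fin n)} {c : Fin n → Bool} {x : Fin n}
    (hx : x ∉ F) (j : ι) : (k : ℝ) / (k + 1) * wt k R F c j ≤ wt k R (insert x F) c j := by
  unfold wt
  rw [wc_insert hx, ← pow_succ']
  apply pow_le_pow_of_le_one (by positivity) (delta_le_one k)
  split_ifs <;> omega

/-- a useful step reduces the total weight -/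
lemma sum_wt_insert {k : ℕ} {R : ι → LR n} {F : Finset (Fin n)} {c : Fin n → Bool} {x : Fin n}
    (hx : x ∉ F) (h : Gd k R (wt k R F c) x (c x)) :
    ∑ j, wt k R (insert x F) c j ≤ (1 - 1 / (2 * ((k : ℝ) + 1) ^ 2)) * ∑ j, wt k R F c j := by
  have hk : (0 : ℝ) < k + 1 := by positivity
  have h1 : ∀ j, wt k R (insert x F) c j = wt k R F c j -
      if x ∈ (R j).W ∧ (R j).w x ≠ c x then 1 / ((k : ℝ) + 1) * wt k R F c j else 0 := by
    intro j
    unfold wt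
    rw [wc_insert hx]
    split_ifs
    · rw [pow_succ]
      field_simp
      ring
    · simp
  have h2 : ∑ j, wt k R (insert x F) c j = ∑ j, wt k R F c j -
      1 / ((k : ℝ) + 1) * ∑ j with x ∈ (R j).W ∧ (R j).w x ≠ c x, wt k R F c j := by
    rw [sum_congr rfl fun j _ => h1 j, sum_sub_distrib, ← sum_filter, mul_sum]
  unfold Gd at h
  rw [h2]
  have h3 : (1 / (2 * ((k : ℝ) + 1) ^ 2)) * ∑ j, wt k R F c j ≤
      1 / ((k : ℝ) + 1) * ∑ j with x ∈ (R j).W ∧ (R j).w x ≠ c x, wt k R F c j := by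
    calc (1 / (2 * ((k : ℝ) + 1) ^ 2)) * ∑ j, wt k R F c j
        ≤ (1 / (2 * ((k : ℝ) + 1) ^ 2)) *
          ((2 * k + 2) * ∑ j with x ∈ (R j).W ∧ (R j).w x ≠ c x, wt k R F c j) :=
          mul_le_mul_of_nonneg_left h (by positivity)
      _ = _ := by field_simp
  linarith

end Pool.Agent.J4.H16.LA
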