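import Pool.Agent.J4.H16.LA.Sub
set_option autoImplicit false

/-!
# Lookahead: the whole wiping phase
-/

namespace Pool.Agent.J4.H16.LA

open Finset
open Pool.Agent.TH70.AR hiding flip flip_flip

variable {n : ℕ} {ι : Type} [Fintype ι] {A : LPast n → Fin n} {r : ℕ}

/-- **The wiping phase.** -/
lemma phase (hA : LValid A) {B k u K K' N m : ℕ} (hB : n < B) (hHB : 2 * n + 2 ≤ B)
    (hk : 1 ≤ k) (hu : 1 ≤ u) {R : ι → LR n} (hK' : K * (k + 1) ^ 3 ≤ K' * k ^ 3)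
    (hm : N ≤ (m + 1) * u) (T : ℕ) :
    ∀ (s : St n) (F : Finset (Fin n)) (h : LPast n), (∀ x ∈ F, x ∉ s.Y) →
      PInv k u R (wt k R F s.a) s → (∀ j, (s.Y \ (R j).W).card ≤ K) →
      K' + 3 * u + r + (T + 1) * ((m + 1) * (r + 2)) < s.Y.card → s.Y.card ≤ N →
      ∃ (ρ₀ : LR n) (p : List (LR n)) (X : Finset (Fin n)) (s' : St n) (F' : Finset (Fin n)),
        Seg A r B (2 * n + 2) (K' + 3 * u + r) ((T + 1) * ((m + 1) * (r + 2)))
          ((T + 1) * ((m + 1) * N)) h s ρ₀ p X s' ∧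
        F' ⊆ F ∪ X ∧ PInv k u R (wt k R F' s'.a) s' ∧
        ∑ j, wt k R F' s'.a j ≤
          (1 - 1 / (2 * ((k : ℝ) + 1) ^ 2)) ^ (T + 1) * ∑ j, wt k R F s.a j := by
  have hUpc : ∀ (ω : ι → ℝ) (s : St n), s.Y.card ≤ N → (Up k R ω s).card ≤ (m + 1) * u := by
    intro ω s hN
    refine le_trans (card_le_card ?_) (hN.trans hm)
    intro x hx
    exact (mem_Up.1 hx).1
  induction T with
  | zero =>
    intro s F h hF hI hK hY hN
    have e1 : (0 + 1) * ((m + 1) * (r + 2)) = m * (r + 2) + (r + 2) := by ring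
    have e2 : (m + 1) * (r + 2) = m * (r + 2) + (r + 2) := by ring
    obtain ⟨ρ₀, p, X, s', x₀, h1, h2, h3, h4, h5⟩ := sub_phase (r := r) hA hB hHB hk hu hK' m s F h hF
      hI hK (hUpc _ _ hN) (by omega) hN
    refine ⟨ρ₀, p, X, s', insert x₀ F, h1.mono le_rfl (by omega) (by simp), ?_, h4, by simpa using h5⟩
    intro x hx
    rw [mem_insert] at hx
    rw [mem_union]
    rcases hx with rfl | hx
    · exact Or.inr h2
    · exact Or.inl hx
  | succ T ih =>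
    intro s F h hF hI hK hY hN
    have e1 : (T + 1 + 1) * ((m + 1) * (r + 2)) =
      (T + 1) * ((m + 1) * (r + 2)) + (m * (r + 2) + (r + 2)) := by ring
    have e2 : (m + 1) * (r + 2) = m * (r + 2) + (r + 2) := by ring
    have e3 : (T + 1 + 1) * ((m + 1) * N) = (T + 1) * ((m + 1) * N) + (m + 1) * N := by ring
    obtain ⟨ρ₀, p, X, s₁, x₀, h1, h2, h3, h4, h5⟩ := sub_phase (r := r) hA hB hHB hk hu hK' m s F h hF
      hI hK (hUpc _ _ hN) (by omega) hN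
    have hYc : s.Y.card ≤ s₁.Y.card + X.card := by
      have h6 : s.Y ⊆ s₁.Y ∪ X := by
        intro x hx
        rw [mem_union, h1.play.hY, mem_sdiff]
        by_cases hxX : x ∈ X
        · exact Or.inr hxX
        · exact Or.inl ⟨hx, hxX⟩
      exact (card_le_card h6).trans (card_union_le _ _)
    have hYs : s₁.Y ⊆ s.Y := by rw [h1.play.hY]; exact sdiff_subset
    have hcX := h1.cX
    obtain ⟨ρ₁, q, X', s', F', g1, g2, g3, g4⟩ := ih s₁ (insert x₀ F) (lpst r h (ρ₀ :: p)) (by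
      intro x hx hx'
      rw [mem_insert] at hx
      rcases hx with rfl | hx
      · rw [h1.play.hY, mem_sdiff] at hx'
        exact hx'.2 h2
      · exact hF x hx (hYs hx')) h4
      (fun j => (card_le_card (sdiff_subset_sdiff hYs (Subset.refl _))).trans (hK j))
      (by omega) ((card_le_card hYs).trans hN)
    refine ⟨_, _, _, s', F', (seg_nested hHB h1 g1).mono le_rfl (by omega) (by omega), ?_, g3, ?_⟩
    · intro x hx
      have h6 := g2 hx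
      rw [mem_union, mem_insert] at h6
      rw [mem_union, mem_union]
      rcases h6 with (rfl | h6) | h6
      · exact Or.inr (Or.inl h2)
      · exact Or.inl h6
      · exact Or.inr (Or.inr h6)
    · have h6 : (0 : ℝ) ≤ 1 - 1 / (2 * ((k : ℝ) + 1) ^ 2) := by
        rw [sub_nonneg, div_le_one (by positivity)]
        have hkr : (0 : ℝ) ≤ k := Nat.cast_nonneg k
        nlinarith
      refine g4.trans ((mul_le_mul_of_nonneg_left h5 (pow_nonneg h6 _)).trans (le_of_eq ?_))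
      ring

/-- the numerical estimate -/
lemma wipe_num {k lam r' : ℕ} (hk : 1 ≤ k) {c : ℝ} (hc : c ≤ 2 ^ lam) :
    (1 - 1 / (2 * ((k : ℝ) + 1) ^ 2)) ^ (2 * (k + 1) ^ 2 * (lam + r' + 1)) * c <
      ((k : ℝ) / (k + 1)) ^ r' := by
  have hkr : (1 : ℝ) ≤ k := by exact_mod_cast hk
  have h6 : (0 : ℝ) ≤ 1 - 1 / (2 * ((k : ℝ) + 1) ^ 2) := by
    rw [sub_nonneg, div_le_one (by positivity)]
    nlinarith
  have h1 : (1 - 1 / (2 * ((k : ℝ) + 1) ^ 2)) ^ (2 * (k + 1) ^ 2) ≤ 1 / 2 := by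
    have h2 : 1 - 1 / (2 * ((k : ℝ) + 1) ^ 2) ≤ Real.exp (-(1 / (2 * ((k : ℝ) + 1) ^ 2))) :=
      Real.one_sub_le_exp_neg _
    have h3 := pow_le_pow_left₀ h6 h2 (2 * (k + 1) ^ 2)
    have h4 : Real.exp (-(1 / (2 * ((k : ℝ) + 1) ^ 2))) ^ (2 * (k + 1) ^ 2) = Real.exp (-1) := by
      rw [← Real.exp_nat_mul]
      congr 1
      push_cast
      field_simp
    have h5 : Real.exp (-1) ≤ 1 / 2 := by
      rw [Real.exp_neg, one_div]
      apply inv_anti₀ (by norm_num)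
      have := Real.add_one_le_exp 1
      linarith
    rw [h4] at h3
    exact h3.trans h5
  have h2 : (1 - 1 / (2 * ((k : ℝ) + 1) ^ 2)) ^ (2 * (k + 1) ^ 2 * (lam + r' + 1)) ≤
      (1 / 2) ^ (lam + r' + 1) := by
    rw [pow_mul]
    exact pow_le_pow_left₀ (pow_nonneg h6 _) h1 _
  have h3 : (1 / 2 : ℝ) ≤ (k : ℝ) / (k + 1) := by
    rw [div_le_div_iff₀ (by norm_num) (by positivity)]
    linarith
  have h4 : (1 / 2 : ℝ) ^ r' ≤ ((k : ℝ) / (k + 1)) ^ r' := pow_le_pow_left₀ (by norm_num) h3 _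
  have h5 : (1 / 2 : ℝ) ^ (lam + r' + 1) * 2 ^ lam < (1 / 2) ^ r' := by
    have h7 : (1 / 2 : ℝ) ^ (lam + r' + 1) * 2 ^ lam = (1 / 2) ^ r' * (1 / 2) := by
      have h8 : (1 / 2 : ℝ) ^ lam * 2 ^ lam = 1 := by
        rw [← mul_pow]
        norm_num
      calc (1 / 2 : ℝ) ^ (lam + r' + 1) * 2 ^ lam
          = ((1 / 2 : ℝ) ^ lam * 2 ^ lam) * ((1 / 2) ^ r' * (1 / 2)) := by ring
        _ = _ := by rw [h8, one_mul]
    rw [h7]
    have : (0 : ℝ) < (1 / 2) ^ r' := by positivity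
    linarith
  have h7 : (0 : ℝ) ≤ (1 - 1 / (2 * ((k : ℝ) + 1) ^ 2)) ^ (2 * (k + 1) ^ 2 * (lam + r' + 1)) :=
    pow_nonneg h6 _
  calc _ ≤ (1 - 1 / (2 * ((k : ℝ) + 1) ^ 2)) ^ (2 * (k + 1) ^ 2 * (lam + r' + 1)) * 2 ^ lam :=
        mul_le_mul_of_nonneg_left hc h7
    _ ≤ (1 / 2) ^ (lam + r' + 1) * 2 ^ lam := mul_le_mul_of_nonneg_right h2 (by positivity)
    _ < (1 / 2) ^ r' := h5
    _ ≤ _ := h4

/-- a state at the beginning of a level -/
structure Fresh (s : St n) : Prop where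
  toff : ∀ x, x ∉ s.Y → s.t x = s.a x
  ne : ∀ x ∈ s.Y, s.t x ≠ s.a x
  om : ∀ x ∈ s.Y, x ∉ s.Ω

lemma Fresh.pinv {s : St n} (hs : Fresh s) (k u : ℕ) (R : ι → LR n) (ω : ι → ℝ) :
    PInv k u R ω s := by
  refine ⟨hs.toff, ⟨∅, by simp, fun x hx hx' => absurd hx' (hs.om x hx)⟩,
    ⟨∅, by simp, fun x hx hx' => ?_⟩⟩
  rcases hx' with h | h
  · exact absurd h (hs.om x hx)
  · exact absurd h (hs.ne x hx)

/-- **All the records are wiped.** -/
lemma wipe (hA : LValid A) {B k u K K' N m lam : ℕ} (hB : n < B) (hHB : 2 * n + 2 ≤ B)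
    (hk : 1 ≤ k) (hu : 1 ≤ u) {R : ι → LR n} (hK' : K * (k + 1) ^ 3 ≤ K' * k ^ 3)
    (hm : N ≤ (m + 1) * u) {s : St n} (h : LPast n) (hs : Fresh s)
    (hK : ∀ j, (s.Y \ (R j).W).card ≤ K) (hι : Fintype.card ι ≤ 2 ^ lam)
    (hY : K' + 3 * u + r + 2 * (k + 1) ^ 2 * (lam + r + 1) * ((m + 1) * (r + 2)) < s.Y.card)
    (hN : s.Y.card ≤ N) :
    ∃ (ρ₀ : LR n) (p : List (LR n)) (X : Finset (Fin n)) (s' : St n) (ω : ι → ℝ),
      Seg A r B (2 * n + 2) (K' + 3 * u + r)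
        (2 * (k + 1) ^ 2 * (lam + r + 1) * ((m + 1) * (r + 2)))
        (2 * (k + 1) ^ 2 * (lam + r + 1) * ((m + 1) * N)) h s ρ₀ p X s' ∧
      (∀ j, 0 ≤ ω j) ∧ PInv k u R ω s' ∧ ∀ j, r < wc X s'.a (R j) := by
  obtain ⟨T, hT⟩ : ∃ T, 2 * (k + 1) ^ 2 * (lam + r + 1) = T + 1 := by
    refine ⟨2 * (k + 1) ^ 2 * (lam + r + 1) - 1, ?_⟩
    have : 0 < 2 * (k + 1) ^ 2 * (lam + r + 1) := by positivity
    omega
  have hnum := wipe_num (lam := lam) (r' := r) hk (c := (Fintype.card ι : ℝ))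
    (by exact_mod_cast hι)
  rw [hT] at hY hnum ⊢
  obtain ⟨ρ₀, p, X, s', F', h1, h2, h3, h4⟩ := phase (r := r) hA hB hHB hk hu hK' hm T s ∅ h
    (by simp) (hs.pinv k u R _) hK hY hN
  refine ⟨ρ₀, p, X, s', _, h1, wt_nonneg k R F' s'.a, h3, fun j => ?_⟩
  have h5 : ∑ j, wt k R ∅ s.a j = (Fintype.card ι : ℝ) := by
    have h6 : ∀ j, wt k R ∅ s.a j = 1 := by
      intro j
      unfold wt wc cnt
      simp
    rw [sum_congr rfl fun j _ => h6 j]
    simp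
  rw [h5] at h4
  have h6 : wt k R F' s'.a j ≤ ∑ j, wt k R F' s'.a j :=
    single_le_sum (fun j _ => wt_nonneg k R F' s'.a j) (mem_univ j)
  have h7 : wt k R F' s'.a j < ((k : ℝ) / (k + 1)) ^ r := lt_of_le_of_lt (h6.trans h4) hnum
  have h8 : r < wc F' s'.a (R j) := by
    by_contra h9
    push Not at h9
    have h10 : ((k : ℝ) / (k + 1)) ^ r ≤ wt k R F' s'.a j :=
      pow_le_pow_of_le_one (by positivity) (delta_le_one k) h9
    linarith
  refine lt_of_lt_of_le h8 (wc_mono ?_ _ _)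
  intro x hx
  simpa using h2 hx

end Pool.Agent.J4.H16.LA
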